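import Mathlib

set_option autoImplicit false

/-! Linear forms in polynomial rings over a field. -/

namespace Pool.Agent.Q82

open MvPolynomial

variable {K : Type} [Field K] {l n : ℕ}

/-- The linear form `∑ j, a j * x_j`. -/
noncomputable def lf (a : Fin l → K) : MvPolynomial (Fin l) K :=
  ∑ j, C (a j) * X j

lemma lf_hom (a : Fin l → K) : (lf a).IsHomogeneous 1 :=
  IsHomogeneous.sum _ _ _ fun _ _ => isHomogeneous_C_mul_X _ _

lemma coeff_lf (a : Fin l → K) (i : Fin l) : coeff (Finsupp.single i 1) (lf a) = a i := by
  classical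
  rw [lf, coeff_sum, Finset.sum_eq_single i _ (by simp)]
  · simp
  · intro j _ hji
    rw [coeff_C_mul, coeff_X, if_neg]
    · simp
    · rwa [Finsupp.single_left_inj Nat.one_ne_zero]

lemma lf_inj {a b : Fin l → K} (h : lf a = lf b) : a = b := by
  funext i
  rw [← coeff_lf a, ← coeff_lf b, h]

lemma lf_ne_zero {a : Fin l → K} (h : a ≠ 0) : lf a ≠ 0 := by
  intro h0
  apply h
  funext i
  rw [← coeff_lf a, h0]; simp

lemma lf_smul (c : K) (a : Fin l → K) : lf (c • a) = C c * lf a := by
  simp only [lf, Pi.smul_apply, smul_eq_mul, C_mul, Finset.mul_sum, mul_assoc]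

lemma irreducible_of_hom_one {p : MvPolynomial (Fin l) K} (hp : p.IsHomogeneous 1) (h0 : p ≠ 0) :
    Irreducible p := by
  apply irreducible_of_totalDegree_eq_one (hp.totalDegree h0)
  intro x hx
  rw [isUnit_iff_ne_zero]
  rintro rfl
  apply h0
  ext i
  simpa using hx i

lemma prime_of_hom_one {p : MvPolynomial (Fin l) K} (hp : p.IsHomogeneous 1) (h0 : p ≠ 0) :
    Prime p :=
  (irreducible_of_hom_one hp h0).prime

lemma prime_lf {a : Fin l → K} (h : a ≠ 0) : Prime (lf a) :=
  prime_of_hom_one (lf_hom a) (lf_ne_zero h)

/-- A linear form dividing another nonzero one is proportional. -/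
lemma exists_smul_of_dvd {a b : Fin l → K} (hb : b ≠ 0) (h : lf a ∣ lf b) :
    ∃ c : K, c ≠ 0 ∧ b = c • a := by
  obtain ⟨q, hq⟩ := h
  have hb' := lf_ne_zero hb
  have ha' : lf a ≠ 0 := by rintro h; rw [hq, h, zero_mul] at hb'; exact hb' rfl
  have hq' : q ≠ 0 := by rintro rfl; rw [hq, mul_zero] at hb'; exact hb' rfl
  have hdeg : q.totalDegree = 0 := by
    have h1 := congrArg totalDegree hq
    rw [totalDegree_mul_of_isDomain ha' hq', (lf_hom a).totalDegree ha',
      (lf_hom b).totalDegree hb'] at h1
    omega
  obtain ⟨c, rfl⟩ : ∃ c, q = C c := ⟨_, (totalDegree_eq_zero_iff_eq_C (p := q)).mp hdeg⟩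
  refine ⟨c, ?_, ?_⟩
  · rintro rfl; simp at hq'
  · apply lf_inj
    rw [hq, lf_smul, mul_comm]

/-- The hyperplane of a vector. -/
def hplane (a : Fin l → K) : Submodule K (Fin l → K) :=
  LinearMap.ker ((LinearMap.lsum K (fun _ : Fin l => K) K) (fun j => a j • LinearMap.id))

lemma mem_hplane (a x : Fin l → K) : x ∈ hplane a ↔ ∑ j, a j * x j = 0 := by
  simp [hplane, LinearMap.mem_ker]

lemma hplane_smul {c : K} (hc : c ≠ 0) (a : Fin l → K) : hplane (c • a) = hplane a := by
  ext x
  rw [mem_hplane, mem_hplane]
  have : ∑ j, (c • a) j * x j = c * ∑ j, a j * x j := by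
    rw [Finset.mul_sum]; exact Finset.sum_congr rfl fun j _ => by simp [mul_assoc]
  rw [this, mul_eq_zero]
  simp [hc]

/-- the forms of distinct hyperplanes are relatively prime -/
lemma isRelPrime_of_hplane_ne {a b : Fin l → K} (ha : a ≠ 0) (hb : b ≠ 0)
    (h : hplane a ≠ hplane b) : IsRelPrime (lf a) (lf b) := by
  rw [(prime_lf ha).irreducible.isRelPrime_iff_not_dvd]
  intro hd
  obtain ⟨c, hc, rfl⟩ := exists_smul_of_dvd hb hd
  exact h (hplane_smul hc a).symm

/-! ### homogeneity -/

section hom

variable {p q : MvPolynomial (Fin l) K}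

/-- a quotient of homogeneous polynomials is homogeneous -/
lemma hom_of_mul_hom {Q f : MvPolynomial (Fin l) K} {m N : ℕ} (hQ : Q.IsHomogeneous m)
    (hQ0 : Q ≠ 0) (h : (f * Q).IsHomogeneous N) :
    f = 0 ∨ ∃ k, k + m = N ∧ f.IsHomogeneous k := by
  classical
  by_cases hf : f = 0
  · exact Or.inl hf
  right
  have key : ∀ k, k + m ≠ N → homogeneousComponent k f = 0 := by
    intro k hk
    have h1 : homogeneousComponent (k + m) (f * Q) = homogeneousComponent k f * Q := by
      conv_lhs => rw [← sum_homogeneousComponent f, Finset.sum_mul, map_sum]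
      by_cases hkf : k ∈ Finset.range (f.totalDegree + 1)
      · rw [Finset.sum_eq_single_of_mem k hkf]
        · exact homogeneousComponent_eq_self
            ((homogeneousComponent_isHomogeneous k f).mul hQ)
        · intro j _ hj
          rw [homogeneousComponent_of_mem ((mem_homogeneousSubmodule _ _).2
            ((homogeneousComponent_isHomogeneous j f).mul hQ)), if_neg]
          omega
      · rw [homogeneousComponent_eq_zero k f (by simpa using hkf), zero_mul]
        apply Finset.sum_eq_zero
        intro j hj
        rw [homogeneousComponent_of_mem ((mem_homogeneousSubmodule _ _).2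
            ((homogeneousComponent_isHomogeneous j f).mul hQ)), if_neg]
        simp only [Finset.mem_range] at hj hkf
        omega
    rw [homogeneousComponent_of_mem ((mem_homogeneousSubmodule _ _).2 h), if_neg hk] at h1
    exact (mul_eq_zero.1 h1.symm).resolve_right hQ0
  have hex : ∃ k, homogeneousComponent k f ≠ 0 := by
    by_contra hno
    push Not at hno
    apply hf
    rw [← sum_homogeneousComponent f]
    exact Finset.sum_eq_zero fun i _ => hno i
  obtain ⟨k, hk⟩ := hex
  have hkN : k + m = N := by
    by_contra h'
    exact hk (key k h')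
  refine ⟨k, hkN, ?_⟩
  have : f = homogeneousComponent k f := by
    conv_lhs => rw [← sum_homogeneousComponent f]
    by_cases hkf : k ∈ Finset.range (f.totalDegree + 1)
    · rw [Finset.sum_eq_single_of_mem k hkf]
      intro j _ hj
      apply key
      omega
    · exfalso
      apply hk
      exact homogeneousComponent_eq_zero k f (by simpa using hkf)
  rw [this]
  exact homogeneousComponent_isHomogeneous k f

/-- the top components multiply -/
lemma top_mul (p q : MvPolynomial (Fin l) K) :
    homogeneousComponent (p.totalDegree + q.totalDegree) (p * q) =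
      homogeneousComponent p.totalDegree p * homogeneousComponent q.totalDegree q := by
  classical
  have h0 : p * q = ∑ i ∈ Finset.range (p.totalDegree + 1),
      ∑ j ∈ Finset.range (q.totalDegree + 1),
        (homogeneousComponent i p * homogeneousComponent j q) := by
    rw [← Finset.sum_mul_sum, sum_homogeneousComponent, sum_homogeneousComponent]
  rw [h0]
  simp only [map_sum]
  have h1 : ∀ i ∈ Finset.range (p.totalDegree + 1), ∀ j ∈ Finset.range (q.totalDegree + 1),
      homogeneousComponent (p.totalDegree + q.totalDegree)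
        (homogeneousComponent i p * homogeneousComponent j q) =
      if i = p.totalDegree ∧ j = q.totalDegree then
        homogeneousComponent i p * homogeneousComponent j q else 0 := by
    intro i hi j hj
    rw [homogeneousComponent_of_mem ((mem_homogeneousSubmodule _ _).2
      ((homogeneousComponent_isHomogeneous i p).mul (homogeneousComponent_isHomogeneous j q)))]
    simp only [Finset.mem_range] at hi hj
    congr 1
    apply propext
    omega
  rw [Finset.sum_congr rfl fun i hi => Finset.sum_congr rfl fun j hj => h1 i hi j hj]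
  rw [Finset.sum_eq_single_of_mem p.totalDegree (by simp)]
  · rw [Finset.sum_eq_single_of_mem q.totalDegree (by simp)]
    · simp
    · intro j _ hj
      simp [hj]
  · intro i _ hi
    simp [hi]

lemma top_ne_zero (hp : p ≠ 0) : homogeneousComponent p.totalDegree p ≠ 0 := by
  classical
  intro h
  by_cases h0 : p.totalDegree = 0
  · rw [h0, homogeneousComponent_zero] at h
    rw [totalDegree_eq_zero_iff_eq_C] at h0
    rw [h0] at hp
    exact hp h
  · -- then the total degree would be smaller
    have h1 : p = ∑ i ∈ Finset.range p.totalDegree, homogeneousComponent i p := by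
      conv_lhs => rw [← sum_homogeneousComponent p, Finset.sum_range_succ, h, add_zero]
    have h2 : p.totalDegree ≤ p.totalDegree - 1 := by
      conv_lhs => rw [h1]
      apply totalDegree_finsetSum_le
      intro i hi
      rw [Finset.mem_range] at hi
      exact le_trans (homogeneousComponent_isHomogeneous i p).totalDegree_le (by omega)
    omega

/-- if `p` divides a homogeneous polynomial, so does its top component -/
lemma top_dvd {f : MvPolynomial (Fin l) K} {m : ℕ} (hf : f.IsHomogeneous m) (h : p ∣ f) :
    homogeneousComponent p.totalDegree p ∣ f := by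
  obtain ⟨q, rfl⟩ := h
  by_cases h0 : p * q = 0
  · rw [h0]; exact dvd_zero _
  have hp : p ≠ 0 := left_ne_zero_of_mul h0
  have hq : q ≠ 0 := right_ne_zero_of_mul h0
  have h1 := hf.totalDegree h0
  rw [totalDegree_mul_of_isDomain hp hq] at h1
  have h2 := top_mul p q
  rw [h1, homogeneousComponent_eq_self hf] at h2
  rw [h2]
  exact dvd_mul_right _ _

end hom

/-! ### elimination of a variable -/

/-- `X i - g` divides `p - p(X_i := g)`. -/
lemma X_sub_dvd (i : Fin l) (g : MvPolynomial (Fin l) K) (p : MvPolynomial (Fin l) K) :
    (X i - g : MvPolynomial (Fin l) K) ∣ p - aeval (Function.update (X : Fin l → _) i g) p := by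
  induction p using MvPolynomial.induction_on with
  | C a => simp
  | add p q hp hq =>
    rw [map_add]
    have := dvd_add hp hq
    convert this using 1
    ring
  | mul_X p j hp =>
    rw [map_mul, aeval_X]
    by_cases h : j = i
    · subst h
      rw [Function.update_self]
      obtain ⟨c, hc⟩ := hp
      refine ⟨c * X j + aeval (Function.update (X : Fin l → _) j g) p, ?_⟩
      linear_combination (X j) * hc
    · rw [Function.update_of_ne h]
      obtain ⟨c, hc⟩ := hp
      refine ⟨c * X j, ?_⟩
      linear_combination (X j) * hc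

/-- every linear form is the form of its coefficient vector -/
lemma exists_lf {p : MvPolynomial (Fin l) K} (hp : p.IsHomogeneous 1) : ∃ a, p = lf a := by
  have h : p ∈ homogeneousSubmodule (Fin l) K 1 := hp
  rw [homogeneousSubmodule_one_eq_span_X] at h
  have h2 : p ∈ Submodule.span K (Set.range (X : Fin l → MvPolynomial (Fin l) K)) := h
  rw [Submodule.mem_span_range_iff_exists_fun] at h2
  obtain ⟨c, hc⟩ := h2
  refine ⟨c, ?_⟩
  rw [← hc, lf]
  exact Finset.sum_congr rfl fun j _ => by rw [smul_eq_C_mul]

/-- elimination homomorphism of a nonzero linear form: an endomorphism of the graded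
polynomial ring with kernel generated by the form. -/
lemma exists_elim {α : MvPolynomial (Fin l) K} (hα : α.IsHomogeneous 1) (h0 : α ≠ 0) :
    ∃ σ : MvPolynomial (Fin l) K →ₐ[K] MvPolynomial (Fin l) K, σ α = 0 ∧ (∀ p, α ∣ p - σ p) ∧
      ∀ (p : MvPolynomial (Fin l) K) (k : ℕ), p.IsHomogeneous k → (σ p).IsHomogeneous k := by
  obtain ⟨a, rfl⟩ := exists_lf hα
  have ha : ∃ k, a k ≠ 0 := by
    by_contra hno
    push Not at hno
    apply h0
    simp [lf, hno]
  obtain ⟨k, hk⟩ := ha
  set g : MvPolynomial (Fin l) K := X k - C (a k)⁻¹ * lf a with hg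
  have hgh : g.IsHomogeneous 1 := (isHomogeneous_X _ _).sub ((lf_hom a).C_mul _)
  have hdvd : ∀ p, lf a ∣ p - aeval (Function.update (X : Fin l → _) k g) p := by
    intro p
    have h1 := X_sub_dvd k g p
    have h2 : (X k - g : MvPolynomial (Fin l) K) = C (a k)⁻¹ * lf a := by rw [hg]; ring
    rw [h2] at h1
    exact dvd_trans (dvd_mul_left _ _) h1
  refine ⟨aeval (Function.update (X : Fin l → _) k g), ?_, hdvd, ?_⟩
  · have hσ : ∀ j, (a j) • (Function.update (X : Fin l → MvPolynomial (Fin l) K) k g j) =
        C (a j) * X j - (if j = k then lf a else 0) := by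
      intro j
      by_cases hj : j = k
      · subst hj
        rw [Function.update_self, if_pos rfl, hg, smul_eq_C_mul, mul_sub, ← mul_assoc, ← C_mul,
          mul_inv_cancel₀ hk, C_1, one_mul]
      · rw [Function.update_of_ne hj, if_neg hj, sub_zero, smul_eq_C_mul]
    have : aeval (Function.update (X : Fin l → _) k g) (lf a) =
        ∑ j, (a j) • (Function.update (X : Fin l → MvPolynomial (Fin l) K) k g j) := by
      conv_lhs => rw [lf]
      rw [map_sum]
      refine Finset.sum_congr rfl fun j _ => ?_
      rw [map_mul, aeval_X, algHom_C, algebraMap_eq, smul_eq_C_mul]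
    rw [this, Finset.sum_congr rfl fun j _ => hσ j, Finset.sum_sub_distrib]
    simp [lf]
  · intro p m hp
    have h1 := hp.aeval (τ := Fin l) (Function.update (X : Fin l → MvPolynomial (Fin l) K) k g)
      (n := 1) ?_
    · rwa [one_mul] at h1
    · intro j
      by_cases hj : j = k
      · subst hj; rw [Function.update_self]; exact hgh
      · rw [Function.update_of_ne hj]; exact isHomogeneous_X _ _

end Pool.Agent.Q82
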