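import Mathlib
import Pool.Agent.Q82.Lin

set_option autoImplicit false

/-! Recognition of strictly plus-one generated arrangements: the core algebra. -/

namespace Pool.Agent.Q82

open MvPolynomial

variable {K : Type} [Field K] {l n : ℕ}

/-- logarithmic vector fields as tuples -/
noncomputable def Dv (A : Fin n → Fin l → K) :
    Submodule (MvPolynomial (Fin l) K) (Fin l → MvPolynomial (Fin l) K) where
  carrier := {θ | ∀ i, lf (A i) ∣ ∑ j, C (A i j) * θ j}
  add_mem' := fun {θ η} hθ hη i => by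
    have := dvd_add (hθ i) (hη i)
    rw [← Finset.sum_add_distrib] at this
    simpa only [Pi.add_apply, mul_add] using this
  zero_mem' := fun i => by simp
  smul_mem' := fun r θ hθ i => by
    have : ∑ j, C (A i j) * (r • θ) j = r * ∑ j, C (A i j) * θ j := by
      rw [Finset.mul_sum]
      exact Finset.sum_congr rfl fun j _ => by rw [Pi.smul_apply, smul_eq_mul]; ring
    rw [this]
    exact dvd_mul_of_dvd_right (hθ i) r

lemma mem_Dv {A : Fin n → Fin l → K} {θ : Fin l → MvPolynomial (Fin l) K} :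
    θ ∈ Dv A ↔ ∀ i, lf (A i) ∣ ∑ j, C (A i j) * θ j := Iff.rfl

/-- defining vectors of a central arrangement -/
def Good (A : Fin n → Fin l → K) : Prop :=
  (∀ i, A i ≠ 0) ∧ Function.Injective fun i => hplane (A i)

/-- the defining polynomial -/
noncomputable def QQ (A : Fin n → Fin l → K) : MvPolynomial (Fin l) K := ∏ i, lf (A i)

lemma QQ_ne_zero {A : Fin n → Fin l → K} (hA : Good A) : QQ A ≠ 0 :=
  Finset.prod_ne_zero_iff.2 fun i _ => lf_ne_zero (hA.1 i)

lemma QQ_hom (A : Fin n → Fin l → K) : (QQ A).IsHomogeneous n := by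
  have := IsHomogeneous.prod Finset.univ (fun i => lf (A i)) (fun _ => 1) fun i _ => lf_hom (A i)
  simpa [QQ] using this

lemma lf_dvd_det {A : Fin n → Fin l → K} {η : Fin l → Fin l → MvPolynomial (Fin l) K}
    (i : Fin n) (hi : A i ≠ 0) (hη : ∀ r, lf (A i) ∣ ∑ j, C (A i j) * η r j) :
    lf (A i) ∣ (Matrix.of η).det := by
  obtain ⟨k, hk⟩ : ∃ k, A i k ≠ 0 := by
    by_contra hno
    push Not at hno
    exact hi (funext hno)
  choose w hw using hη
  have h1 := Matrix.det_updateCol_sum (Matrix.of η) k (fun j => C (A i j))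
  have h2 : (fun r => ∑ j, (C (A i j) : MvPolynomial (Fin l) K) • (Matrix.of η) r j) =
      lf (A i) • w := by
    funext r
    simp only [Matrix.of_apply, smul_eq_mul, Pi.smul_apply]
    exact hw r
  rw [h2, Matrix.det_updateCol_smul, smul_eq_mul] at h1
  have h3 : (Matrix.of η).det = lf (A i) *
      (C (A i k)⁻¹ * ((Matrix.of η).updateCol k w).det) := by
    have : (C (A i k)⁻¹ : MvPolynomial (Fin l) K) * C (A i k) = 1 := by
      rw [← C_mul, inv_mul_cancel₀ hk, C_1]
    calc (Matrix.of η).det = (C (A i k)⁻¹ * C (A i k)) * (Matrix.of η).det := by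
          rw [this, one_mul]
      _ = C (A i k)⁻¹ * (C (A i k) * (Matrix.of η).det) := by ring
      _ = _ := by rw [← h1]; ring
  exact ⟨_, h3⟩

/-- the defining polynomial divides every determinant of logarithmic fields -/
lemma QQ_dvd_det {A : Fin n → Fin l → K} (hA : Good A)
    {η : Fin l → Fin l → MvPolynomial (Fin l) K} (hη : ∀ r, η r ∈ Dv A) :
    QQ A ∣ (Matrix.of η).det := by
  apply Fintype.prod_dvd_of_isRelPrime
  · intro i j hij
    exact isRelPrime_of_hplane_ne (hA.1 i) (hA.1 j) fun h => hij (hA.2 h)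
  · intro i
    exact lf_dvd_det i (hA.1 i) fun r => hη r i

/-- the Laplace relation -/
lemma laplace (θ : Fin (l + 1) → Fin l → MvPolynomial (Fin l) K) (j : Fin l) :
    ∑ i : Fin (l + 1), (-1) ^ (i : ℕ) * θ i j *
      (Matrix.of fun r => θ (i.succAbove r)).det = 0 := by
  let N : Matrix (Fin (l + 1)) (Fin (l + 1)) (MvPolynomial (Fin l) K) :=
    Matrix.of fun i => Fin.cons (θ i j) (θ i)
  have h0 : N.det = 0 := by
    apply Matrix.det_zero_of_column_eq (i := 0) (j := j.succ) (Fin.succ_ne_zero j).symm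
    intro k
    simp [N]
  rw [Matrix.det_succ_column_zero] at h0
  rw [← h0]
  refine Finset.sum_congr rfl fun i _ => ?_
  congr 1

/-- the cofactors of the family `θ` with respect to `Q` -/
def IsCof (A : Fin n → Fin l → K) (θ : Fin (l + 1) → Fin l → MvPolynomial (Fin l) K)
    (g : Fin (l + 1) → MvPolynomial (Fin l) K) : Prop :=
  ∀ i : Fin (l + 1),
    (-1) ^ ((i : ℕ) + 1) * (Matrix.of fun r => θ (i.succAbove r)).det = g i * QQ A

lemma exists_cof {A : Fin n → Fin l → K} (hA : Good A)
    {θ : Fin (l + 1) → Fin l → MvPolynomial (Fin l) K} (hθ : ∀ i, θ i ∈ Dv A) :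
    ∃! g, IsCof A θ g := by
  have h := fun i : Fin (l + 1) => QQ_dvd_det hA (η := fun r => θ (i.succAbove r))
    fun r => hθ _
  choose g hg using h
  refine ⟨fun i => (-1) ^ ((i : ℕ) + 1) * g i, fun i => ?_, ?_⟩
  · rw [hg i]; ring
  · intro g' hg'
    funext i
    apply mul_right_cancel₀ (QQ_ne_zero hA)
    show g' i * QQ A = (-1) ^ ((i : ℕ) + 1) * g i * QQ A
    rw [← hg' i, hg i]; ring

section

variable {A : Fin n → Fin l → K} {θ : Fin (l + 1) → Fin l → MvPolynomial (Fin l) K}
  {g : Fin (l + 1) → MvPolynomial (Fin l) K}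

lemma cof_relation (hA : Good A) (hg : IsCof A θ g) : ∑ i, g i • θ i = 0 := by
  funext j
  apply mul_left_cancel₀ (QQ_ne_zero hA)
  rw [Pi.zero_apply, mul_zero, Finset.sum_apply, Finset.mul_sum]
  have h := laplace θ j
  have h2 : ∑ i : Fin (l + 1), QQ A * (g i • θ i) j =
      - ∑ i : Fin (l + 1), (-1) ^ (i : ℕ) * θ i j *
      (Matrix.of fun r => θ (i.succAbove r)).det := by
    rw [← Finset.sum_neg_distrib]
    refine Finset.sum_congr rfl fun i _ => ?_
    rw [Pi.smul_apply, smul_eq_mul]
    linear_combination -θ i j * hg i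
  rw [h2, h, neg_zero]

/-- if `det M_last ≠ 0`, relations are determined by the last coefficient -/
lemma rel_unique (h0 : (Matrix.of fun r => θ ((Fin.last l).succAbove r)).det ≠ 0)
    {f : Fin (l + 1) → MvPolynomial (Fin l) K} (hf : ∑ i, f i • θ i = 0)
    (hl : f (Fin.last l) = 0) : f = 0 := by
  have h1 : (fun r => f ((Fin.last l).succAbove r)) = 0 := by
    apply Matrix.eq_zero_of_vecMul_eq_zero h0
    rw [Fin.sum_univ_succAbove _ (Fin.last l), hl, zero_smul, zero_add] at hf
    funext j
    have := congrFun hf j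
    simpa [Matrix.vecMul, dotProduct, Finset.sum_apply] using this
  funext i
  rcases Fin.eq_self_or_eq_succAbove (Fin.last l) i with h | ⟨r, h⟩
  · rw [h, hl]; rfl
  · rw [h]; exact congrFun h1 r

lemma exists_comb (hA : Good A) (hθ : ∀ i, θ i ∈ Dv A) (hg : IsCof A θ g)
    {ψ : Fin l → MvPolynomial (Fin l) K} (hψ : ψ ∈ Dv A) (i : Fin (l + 1)) :
    ∃ c : Fin (l + 1) → MvPolynomial (Fin l) K, c i = 0 ∧ g i • ψ = ∑ k, c k • θ k := by
  let M : Matrix (Fin l) (Fin l) (MvPolynomial (Fin l) K) :=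
    Matrix.of fun r => θ (i.succAbove r)
  have hM : ∀ r, ∃ c, (M.updateRow r ψ).det = QQ A * c := by
    intro r
    have : QQ A ∣ (Matrix.of (Function.update (fun r => θ (i.succAbove r)) r ψ)).det := by
      apply QQ_dvd_det hA
      intro s
      by_cases hs : s = r
      · subst hs; rw [Function.update_self]; exact hψ
      · rw [Function.update_of_ne hs]; exact hθ _
    exact this
  choose c hc using hM
  have h1 := Matrix.mulVec_cramer M.transpose ψ
  rw [Matrix.det_transpose] at h1
  have h2 : ∀ r, Matrix.cramer M.transpose ψ r = QQ A * c r := by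
    intro r
    rw [Matrix.cramer_transpose_apply, hc]
  refine ⟨i.insertNth 0 (fun r => (-1) ^ ((i : ℕ) + 1) * c r), by simp, ?_⟩
  rw [Fin.sum_univ_succAbove _ i]
  simp only [Fin.insertNth_apply_same, zero_smul, zero_add, Fin.insertNth_apply_succAbove]
  funext j
  apply mul_left_cancel₀ (QQ_ne_zero hA)
  have h3 := congrFun h1 j
  rw [Matrix.mulVec, dotProduct] at h3
  simp only [h2, Matrix.transpose_apply, Pi.smul_apply, smul_eq_mul] at h3
  rw [Finset.sum_apply, Pi.smul_apply, smul_eq_mul, Finset.mul_sum]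
  have h4 : ∑ r, QQ A * (((-1) ^ ((i : ℕ) + 1) * c r) • θ (i.succAbove r)) j =
      (-1) ^ ((i : ℕ) + 1) * ∑ r, M r j * (QQ A * c r) := by
    rw [Finset.mul_sum]
    refine Finset.sum_congr rfl fun r _ => ?_
    rw [Pi.smul_apply, smul_eq_mul]
    simp only [M, Matrix.of_apply]
    ring
  rw [h4, h3]
  have h5 := hg i
  linear_combination -(ψ j) * h5

end

/-- cancelling against a coprime family in a unique factorization domain -/
lemma dvd_of_forall_dvd_mul {R : Type*} [CommRing R] [IsDomain R] [UniqueFactorizationMonoid R]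
    {ι : Type*} (G : ι → R) (hG : ∀ p, Prime p → ¬ ∀ k, p ∣ G k) (g : R) (hg : g ≠ 0) :
    ∀ s, (∀ k, g ∣ s * G k) → g ∣ s := by
  induction g using UniqueFactorizationMonoid.induction_on_prime with
  | h₁ => exact absurd rfl hg
  | h₂ x hx => intro s _; exact hx.dvd
  | h₃ a p ha hp ih =>
    intro s hs
    have h1 := hG p hp
    push Not at h1
    obtain ⟨k, hk⟩ := h1
    have h2 : p ∣ s := by
      have := dvd_trans (dvd_mul_right p a) (hs k)
      exact (hp.dvd_or_dvd this).resolve_right hk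
    obtain ⟨t, rfl⟩ := h2
    apply mul_dvd_mul_left
    apply ih ha
    intro k
    have := hs k
    rw [mul_assoc] at this
    exact (mul_dvd_mul_iff_left hp.ne_zero).1 this

/-- positive degree homogeneous polynomials (zero allowed) -/
def Pos (h : MvPolynomial (Fin l) K) : Prop := ∃ k, 0 < k ∧ h.IsHomogeneous k

/-- no non-trivial common divisor of the `g i`, `i < l`, modulo `g l` -/
def NoCommon (g : Fin (l + 1) → MvPolynomial (Fin l) K) : Prop :=
  ¬ ∃ h, Pos h ∧ ∀ i : Fin l, g i.castSucc ∈ Ideal.span {h, g (Fin.last l)}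

section

variable {A : Fin n → Fin l → K} {θ : Fin (l + 1) → Fin l → MvPolynomial (Fin l) K}
  {g : Fin (l + 1) → MvPolynomial (Fin l) K}

lemma det_last_ne (hA : Good A) (hg : IsCof A θ g) (h0 : g (Fin.last l) ≠ 0) :
    (Matrix.of fun r => θ ((Fin.last l).succAbove r)).det ≠ 0 := by
  intro h
  have := hg (Fin.last l)
  rw [h, mul_zero] at this
  exact mul_ne_zero h0 (QQ_ne_zero hA) this.symm

/-- all relations are multiples of the cofactor relation -/
theorem relations (hA : Good A) (hg : IsCof A θ g)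
    (hα : (g (Fin.last l)).IsHomogeneous 1) (h0 : g (Fin.last l) ≠ 0) (hN : NoCommon g)
    {f : Fin (l + 1) → MvPolynomial (Fin l) K} (hf : ∑ i, f i • θ i = 0) : ∃ c : MvPolynomial (Fin l) K, f = c • g := by
  have hd := det_last_ne hA hg h0
  have hr := cof_relation hA hg
  have h1 : (fun i => f (Fin.last l) * g i - g (Fin.last l) * f i) = 0 := by
    apply rel_unique hd
    · calc ∑ i, (f (Fin.last l) * g i - g (Fin.last l) * f i) • θ i
          = f (Fin.last l) • ∑ i, g i • θ i - g (Fin.last l) • ∑ i, f i • θ i := by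
            rw [Finset.smul_sum, Finset.smul_sum, ← Finset.sum_sub_distrib]
            exact Finset.sum_congr rfl fun i _ => by rw [sub_smul, mul_smul, mul_smul]
        _ = 0 := by rw [hr, hf, smul_zero, smul_zero, sub_zero]
    · ring
  have h2 : ∀ i, f (Fin.last l) * g i = g (Fin.last l) * f i := fun i => by
    have := congrFun h1 i
    exact sub_eq_zero.1 this
  have hp := prime_of_hom_one hα h0
  have h3 : g (Fin.last l) ∣ f (Fin.last l) := by
    by_contra hnd
    apply hN
    refine ⟨g (Fin.last l), ⟨1, one_pos, hα⟩, fun i => ?_⟩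
    have h4 : g (Fin.last l) ∣ f (Fin.last l) * g i.castSucc := ⟨_, h2 _⟩
    obtain ⟨q, hq⟩ := (hp.dvd_or_dvd h4).resolve_left hnd
    rw [hq]
    exact Ideal.mul_mem_right _ _ (Ideal.subset_span (by simp))
  obtain ⟨c, hc⟩ := h3
  refine ⟨c, funext fun i => ?_⟩
  apply mul_left_cancel₀ h0
  rw [← h2 i, hc, Pi.smul_apply, smul_eq_mul]
  ring

/-- the family generates -/
theorem generates (hA : Good A) (hθ : ∀ i, θ i ∈ Dv A) (hg : IsCof A θ g)
    (hα : (g (Fin.last l)).IsHomogeneous 1) (h0 : g (Fin.last l) ≠ 0)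
    (hpos : ∀ i : Fin l, Pos (g i.castSucc)) (hN : NoCommon g) :
    Submodule.span (MvPolynomial (Fin l) K) (Set.range θ) = Dv A := by
  apply le_antisymm
  · rw [Submodule.span_le]
    rintro _ ⟨i, rfl⟩
    exact hθ i
  intro ψ hψ
  obtain ⟨σ, hσα, hσd, hσh⟩ := exists_elim hα h0
  -- some restricted coefficient is non-zero
  have hex : ∃ i0 : Fin l, σ (g i0.castSucc) ≠ 0 := by
    by_contra hno
    push Not at hno
    apply hN
    refine ⟨g (Fin.last l), ⟨1, one_pos, hα⟩, fun i => ?_⟩
    obtain ⟨q, hq⟩ := hσd (g i.castSucc)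
    rw [hno i, sub_zero] at hq
    rw [hq]
    exact Ideal.mul_mem_right _ _ (Ideal.subset_span (by simp))
  obtain ⟨i0, hi0⟩ := hex
  obtain ⟨a, hal, ha⟩ := exists_comb hA hθ hg hψ (Fin.last l)
  obtain ⟨c, hci, hc⟩ := exists_comb hA hθ hg hψ i0.castSucc
  obtain ⟨s, hs⟩ := relations hA hg hα h0 hN (f := fun k => g i0.castSucc * a k -
    g (Fin.last l) * c k) (by
      calc ∑ k, (g i0.castSucc * a k - g (Fin.last l) * c k) • θ k
          = g i0.castSucc • ∑ k, a k • θ k - g (Fin.last l) • ∑ k, c k • θ k := by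
            rw [Finset.smul_sum, Finset.smul_sum, ← Finset.sum_sub_distrib]
            exact Finset.sum_congr rfl fun i _ => by rw [sub_smul, mul_smul, mul_smul]
        _ = 0 := by rw [← ha, ← hc, smul_comm, sub_self])
  have hs' : ∀ k, σ (g i0.castSucc) * σ (a k) = σ s * σ (g k) := by
    intro k
    have := congrFun hs k
    simp only [Pi.smul_apply, smul_eq_mul] at this
    have h2 := congrArg σ this
    rw [map_sub, map_mul, map_mul, hσα, zero_mul, sub_zero, map_mul] at h2
    exact h2
  have hcop : ∀ p : MvPolynomial (Fin l) K, Prime p → ¬ ∀ k : Fin l, p ∣ σ (g k.castSucc) := by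
    intro p hp hall
    have hdeg : 0 < p.totalDegree := by
      rw [Nat.pos_iff_ne_zero]
      intro h
      rw [totalDegree_eq_zero_iff_eq_C] at h
      apply hp.not_unit
      rw [h] at hp ⊢
      have : (coeff 0 p : K) ≠ 0 := by
        intro h0
        rw [h0, C_0] at hp
        exact hp.ne_zero rfl
      exact (isUnit_iff_ne_zero.2 this).map C
    apply hN
    refine ⟨homogeneousComponent p.totalDegree p,
      ⟨_, hdeg, homogeneousComponent_isHomogeneous _ _⟩, fun i => ?_⟩
    obtain ⟨k, _, hk⟩ := hpos i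
    have h1 : homogeneousComponent p.totalDegree p ∣ σ (g i.castSucc) :=
      top_dvd (hσh _ k hk) (hall i)
    obtain ⟨q, hq⟩ := hσd (g i.castSucc)
    obtain ⟨r, hr⟩ := h1
    rw [Ideal.mem_span_pair]
    exact ⟨r, q, by linear_combination -hq - hr⟩
  have hdvd : σ (g i0.castSucc) ∣ σ s := by
    apply dvd_of_forall_dvd_mul (fun k : Fin l => σ (g k.castSucc)) hcop _ hi0
    intro k
    exact ⟨σ (a k.castSucc), (hs' _).symm⟩
  obtain ⟨lam, hlam⟩ := hdvd
  have ha' : ∀ k, ∃ e, a k = lam * g k + g (Fin.last l) * e := by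
    intro k
    rcases Fin.eq_castSucc_or_eq_last k with ⟨j, rfl⟩ | rfl
    · have h1 : σ (a j.castSucc) = lam * σ (g j.castSucc) := by
        apply mul_left_cancel₀ hi0
        rw [hs', hlam]; ring
      obtain ⟨q1, hq1⟩ := hσd (a j.castSucc)
      obtain ⟨q2, hq2⟩ := hσd (g j.castSucc)
      exact ⟨q1 - lam * q2, by linear_combination hq1 + h1 - lam * hq2⟩
    · exact ⟨-lam, by rw [hal]; ring⟩
  choose e he using ha'
  have hψe : ψ = ∑ k, e k • θ k := by
    funext j
    apply mul_left_cancel₀ h0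
    have h1 := congrFun ha j
    have h2 := congrFun (cof_relation hA hg) j
    rw [Finset.sum_apply] at h1 h2 ⊢
    simp only [Pi.smul_apply, smul_eq_mul, Pi.zero_apply] at h1 h2 ⊢
    rw [h1, Finset.mul_sum]
    have h3 : ∑ k, a k * θ k j = lam * ∑ k, g k * θ k j +
        ∑ k, g (Fin.last l) * (e k * θ k j) := by
      rw [Finset.mul_sum, ← Finset.sum_add_distrib]
      refine Finset.sum_congr rfl fun k _ => ?_
      rw [he k]; ring
    rw [h3, h2, mul_zero, zero_add]
  rw [hψe]
  exact Submodule.sum_mem _ fun k _ => Submodule.smul_mem _ _ (Submodule.subset_span ⟨k, rfl⟩)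

end

end Pool.Agent.Q82
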