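import Mathlib
import Pool.Agent.Q82.Core

set_option autoImplicit false

/-! Recognition of strictly plus-one generated arrangements: the equivalence, for tuples. -/

namespace Pool.Agent.Q82

open MvPolynomial

variable {K : Type} [Field K] {l n : ℕ}

/-- a relation without non-unit common divisor of its coefficients -/
def MinRel {M : Type*} [AddCommGroup M] [Module (MvPolynomial (Fin l) K) M]
    (θ : Fin (l + 1) → M) (f : Fin (l + 1) → MvPolynomial (Fin l) K) : Prop :=
  ∑ i, f i • θ i = 0 ∧ ∀ p, (∀ i, p ∣ f i) → IsUnit p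

lemma pos_not_unit {g : MvPolynomial (Fin l) K} (hg : Pos g) : ¬ IsUnit g := by
  obtain ⟨k, hk, hk2⟩ := hg
  intro hu
  rw [isUnit_iff_totalDegree_of_isReduced] at hu
  have h1 := hk2.coeff_eq_zero (d := 0) (by simp; omega)
  rw [h1] at hu
  simpa using hu.1

lemma pos_constantCoeff {g : MvPolynomial (Fin l) K} (hg : Pos g) : constantCoeff g = 0 := by
  obtain ⟨k, hk, hk2⟩ := hg
  exact hk2.coeff_eq_zero (d := 0) (by simp; omega)

lemma det_hom {M : Matrix (Fin l) (Fin l) (MvPolynomial (Fin l) K)} {e : Fin l → ℕ}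
    (h : ∀ r j, (M r j).IsHomogeneous (e r)) : M.det.IsHomogeneous (∑ r, e r) := by
  rw [Matrix.det_apply]
  apply IsHomogeneous.sum
  intro τ _
  have h1 : (∏ i, M (τ i) i).IsHomogeneous (∑ r, e r) := by
    have := IsHomogeneous.prod Finset.univ (fun i => M (τ i) i) (fun i => e (τ i))
      fun i _ => h (τ i) i
    rwa [Equiv.sum_comp τ e] at this
  rcases Int.units_eq_one_or (Equiv.Perm.sign τ) with h2 | h2
  · rw [h2, one_smul]; exact h1
  · rw [h2]
    have : ((-1 : ℤˣ) • ∏ i, M (τ i) i) = - ∏ i, M (τ i) i := by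
      rw [Units.smul_def]; simp
    rw [this]
    exact h1.neg

section

variable {A : Fin n → Fin l → K} {θ : Fin (l + 1) → Fin l → MvPolynomial (Fin l) K}
  {g : Fin (l + 1) → MvPolynomial (Fin l) K} {e : Fin (l + 1) → ℕ}

lemma cof_hom (hg : IsCof A θ g) (he : ∀ i j, (θ i j).IsHomogeneous (e i)) (i : Fin (l + 1)) :
    (g i * QQ A).IsHomogeneous (∑ r, e (i.succAbove r)) := by
  rw [← hg i]
  have h1 := det_hom (M := Matrix.of fun r => θ (i.succAbove r)) (e := fun r => e (i.succAbove r))
    fun r j => he _ j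
  have h2 : ((-1 : MvPolynomial (Fin l) K)) ^ ((i : ℕ) + 1) = C ((-1) ^ ((i : ℕ) + 1)) := by simp
  rw [h2]
  exact h1.C_mul _

lemma cof_degree (hA : Good A) (hg : IsCof A θ g) (he : ∀ i j, (θ i j).IsHomogeneous (e i))
    {i : Fin (l + 1)} {k : ℕ} (hk : (g i).IsHomogeneous k) (h0 : g i ≠ 0) :
    k + n = ∑ r, e (i.succAbove r) := by
  have h1 := cof_hom hg he i
  have h2 := hk.mul (QQ_hom A)
  exact h2.inj_right h1 (mul_ne_zero h0 (QQ_ne_zero hA))

lemma sum_succAbove' (i : Fin (l + 1)) : ∑ r, e (i.succAbove r) + e i = ∑ j, e j := by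
  rw [Fin.sum_univ_succAbove e i, add_comm]

/-- the degree bookkeeping -/
lemma degrees (hA : Good A) (hg : IsCof A θ g) (he : ∀ i j, (θ i j).IsHomogeneous (e i))
    (hα : (g (Fin.last l)).IsHomogeneous 1) (h0 : g (Fin.last l) ≠ 0)
    {i : Fin (l + 1)} {k : ℕ} (hk : (g i).IsHomogeneous k) (hi : g i ≠ 0) :
    e i + k = e (Fin.last l) + 1 := by
  have h1 := cof_degree hA hg he hk hi
  have h2 := cof_degree hA hg he hα h0
  have h3 := sum_succAbove' (e := e) i
  have h4 := sum_succAbove' (e := e) (Fin.last l)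
  omega

/-- (ii) implies: `g` is a minimal relation -/
theorem minRel (hA : Good A) (hg : IsCof A θ g)
    (hα : (g (Fin.last l)).IsHomogeneous 1) (h0 : g (Fin.last l) ≠ 0) (hN : NoCommon g) :
    MinRel θ g := by
  refine ⟨cof_relation hA hg, fun p hp => ?_⟩
  obtain ⟨q, hq⟩ := hp (Fin.last l)
  rcases (irreducible_of_hom_one hα h0).isUnit_or_isUnit hq with h | h
  · exact h
  · exfalso
    apply hN
    refine ⟨g (Fin.last l), ⟨1, one_pos, hα⟩, fun i => ?_⟩
    obtain ⟨r, hr⟩ := hp i.castSucc
    obtain ⟨u, rfl⟩ := h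
    have : g i.castSucc = g (Fin.last l) * (((u⁻¹ : (MvPolynomial (Fin l) K)ˣ) :
        MvPolynomial (Fin l) K) * r) := by
      rw [hr, hq]
      have := u.mul_inv
      linear_combination (- p * r) * this
    rw [this]
    exact Ideal.mul_mem_right _ _ (Ideal.subset_span (by simp))

theorem minRel_unique (hA : Good A) (hg : IsCof A θ g)
    (hα : (g (Fin.last l)).IsHomogeneous 1) (h0 : g (Fin.last l) ≠ 0) (hN : NoCommon g)
    {f : Fin (l + 1) → MvPolynomial (Fin l) K} (hf : MinRel θ f) :
    ∃ c : K, c ≠ 0 ∧ f = c • g := by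
  obtain ⟨c, hc⟩ := relations hA hg hα h0 hN hf.1
  have hu : IsUnit c := hf.2 c fun i => ⟨g i, by rw [hc]; rfl⟩
  rw [isUnit_iff_totalDegree_of_isReduced] at hu
  obtain ⟨h1, h2⟩ := hu
  rw [totalDegree_eq_zero_iff_eq_C] at h2
  refine ⟨coeff 0 c, h1.ne_zero, ?_⟩
  rw [hc]
  funext i
  rw [Pi.smul_apply, Pi.smul_apply, smul_eq_mul, smul_eq_C_mul, ← h2]

/-- minimality of the generating set -/
theorem not_mem_span (hA : Good A) (hg : IsCof A θ g)
    (hα : (g (Fin.last l)).IsHomogeneous 1) (h0 : g (Fin.last l) ≠ 0)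
    (hpos : ∀ i : Fin l, Pos (g i.castSucc)) (hN : NoCommon g) (i : Fin (l + 1)) :
    θ i ∉ Submodule.span (MvPolynomial (Fin l) K) (θ '' {j | j ≠ i}) := by
  intro h
  have hr : θ '' {j | j ≠ i} = Set.range fun r => θ (i.succAbove r) := by
    ext x
    constructor
    · rintro ⟨j, hj, rfl⟩
      obtain ⟨r, rfl⟩ := Fin.exists_succAbove_eq hj
      exact ⟨r, rfl⟩
    · rintro ⟨r, rfl⟩
      exact ⟨_, Fin.succAbove_ne i r, rfl⟩
  rw [hr, Submodule.mem_span_range_iff_exists_fun] at h
  obtain ⟨c, hc⟩ := h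
  obtain ⟨s, hs⟩ := relations hA hg hα h0 hN (f := i.insertNth (-1) c) (by
    rw [Fin.sum_univ_succAbove _ i]
    simp only [Fin.insertNth_apply_same, Fin.insertNth_apply_succAbove]
    rw [hc]; simp)
  have h1 := congrFun hs i
  rw [Fin.insertNth_apply_same, Pi.smul_apply, smul_eq_mul] at h1
  have hu : IsUnit (g i) := by
    apply IsUnit.of_mul_eq_one (-s)
    linear_combination h1
  have hpi : Pos (g i) := by
    rcases Fin.eq_castSucc_or_eq_last i with ⟨j, rfl⟩ | rfl
    · exact hpos j
    · exact ⟨1, one_pos, hα⟩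
  exact pos_not_unit hpi hu

/-- dividing a relation by the greatest common divisor -/
lemma exists_minRel {f : Fin (l + 1) → MvPolynomial (Fin l) K} (hf : ∑ i, f i • θ i = 0)
    (h0 : f ≠ 0) : ∃ (d : MvPolynomial (Fin l) K) (f' : Fin (l + 1) → MvPolynomial (Fin l) K),
      MinRel θ f' ∧ ∀ i, f i = d * f' i := by
  classical
  let _ : StrongNormalizationMonoid (MvPolynomial (Fin l) K) :=
    UniqueFactorizationMonoid.strongNormalizationMonoid
  let _ : NormalizedGCDMonoid (MvPolynomial (Fin l) K) :=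
    UniqueFactorizationMonoid.toNormalizedGCDMonoid _
  obtain ⟨f', h1, h2⟩ := Finset.extract_gcd f (Finset.univ_nonempty (α := Fin (l + 1)))
  refine ⟨Finset.univ.gcd f, f', ⟨?_, fun p hp => ?_⟩, fun i => h1 i (Finset.mem_univ i)⟩
  · have hd : Finset.univ.gcd f ≠ 0 := by
      intro h
      apply h0
      funext i
      exact Finset.gcd_eq_zero_iff.1 h i (Finset.mem_univ i)
    funext j
    apply mul_left_cancel₀ hd
    have h3 := congrFun hf j
    rw [Finset.sum_apply] at h3 ⊢
    rw [Pi.zero_apply, mul_zero] at *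
    rw [Finset.mul_sum, ← h3]
    refine Finset.sum_congr rfl fun i hi => ?_
    rw [Pi.smul_apply, Pi.smul_apply, h1 i hi]
    simp only [smul_eq_mul]
    ring
  · have : p ∣ Finset.univ.gcd f' := Finset.dvd_gcd fun i _ => hp i
    rw [h2] at this
    exact isUnit_of_dvd_one this

/-- (i) implies that there is no common divisor -/
theorem noCommon (hA : Good A) (hθ : ∀ i, θ i ∈ Dv A) (hg : IsCof A θ g)
    (hα : (g (Fin.last l)).IsHomogeneous 1) (h0 : g (Fin.last l) ≠ 0)
    (hgen : Submodule.span (MvPolynomial (Fin l) K) (Set.range θ) = Dv A)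
    (hmin : θ (Fin.last l) ∉ Submodule.span (MvPolynomial (Fin l) K)
      (θ '' {j | j ≠ Fin.last l}))
    (huniq : ∀ f, MinRel θ f → ∃ c : K, c ≠ 0 ∧ f = c • g) : NoCommon g := by
  rintro ⟨h, hh, hmem⟩
  set α := g (Fin.last l) with hαdef
  have hp := prime_of_hom_one hα h0
  -- every relation has last coefficient divisible by `α`
  have hlast : ∀ f : Fin (l + 1) → MvPolynomial (Fin l) K, ∑ i, f i • θ i = 0 →
      α ∣ f (Fin.last l) := by
    intro f hf
    by_cases hf0 : f = 0
    · rw [hf0]; exact dvd_zero _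
    obtain ⟨d, f', hf', hd⟩ := exists_minRel hf hf0
    obtain ⟨c, _, hc⟩ := huniq f' hf'
    rw [hd, hc, Pi.smul_apply, ← hαdef, smul_eq_C_mul]
    exact ⟨d * C c, by ring⟩
  choose q hq using fun i : Fin l => Ideal.mem_span_pair.1 (hmem i)
  choose r hr using hq
  -- hr : q i * h + r i * α = g i
  have hrel := cof_relation hA hg
  rw [Fin.sum_univ_castSucc] at hrel
  have hrel2 : h • (∑ i : Fin l, q i • θ i.castSucc) +
      α • (∑ i : Fin l, r i • θ i.castSucc + θ (Fin.last l)) = 0 := by
    rw [← hrel, smul_add, ← add_assoc, Finset.smul_sum, Finset.smul_sum, ← Finset.sum_add_distrib]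
    congr 1
    refine Finset.sum_congr rfl fun i _ => ?_
    rw [← hr i, smul_smul, smul_smul, ← add_smul]
    congr 1
    ring
  by_cases hdh : α ∣ h
  · -- then `θ_last` is in the span of the others
    obtain ⟨b, rfl⟩ := hdh
    apply hmin
    have h1 : θ (Fin.last l) = ∑ i : Fin l, (-(b * q i) - r i) • θ i.castSucc := by
      funext j
      apply mul_left_cancel₀ h0
      have h2 := congrFun hrel2 j
      simp only [Pi.add_apply, Pi.smul_apply, Finset.sum_apply, smul_eq_mul, Pi.zero_apply] at h2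
      rw [Finset.sum_apply]
      simp only [Pi.smul_apply, smul_eq_mul]
      have h3 : ∑ i : Fin l, (-(b * q i) - r i) * θ i.castSucc j =
          -(b * ∑ i, q i * θ i.castSucc j) - ∑ i, r i * θ i.castSucc j := by
        rw [Finset.mul_sum, ← Finset.sum_neg_distrib, ← Finset.sum_sub_distrib]
        exact Finset.sum_congr rfl fun i _ => by ring
      rw [h3]
      linear_combination h2
    rw [h1]
    refine Submodule.sum_mem _ fun i _ => Submodule.smul_mem _ _ (Submodule.subset_span
      ⟨i.castSucc, ?_, rfl⟩)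
    exact (Fin.castSucc_lt_last i).ne
  · -- `α` divides `ψ' = ∑ q i θ i`
    have hdiv : ∀ j, ∃ w, ∑ i : Fin l, q i * θ i.castSucc j = α * w := by
      intro j
      have h2 := congrFun hrel2 j
      simp only [Pi.add_apply, Pi.smul_apply, Finset.sum_apply, smul_eq_mul, Pi.zero_apply] at h2
      have h3 : α ∣ h * ∑ i : Fin l, q i * θ i.castSucc j :=
        ⟨-(∑ i : Fin l, r i * θ i.castSucc j + θ (Fin.last l) j), by linear_combination h2⟩
      exact (hp.dvd_or_dvd h3).resolve_left hdh
    choose ψ hψ using hdiv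
    -- `h ψ = - (∑ r i θ i + θ last)`
    have hhψ : h • ψ = -(∑ i : Fin l, r i • θ i.castSucc + θ (Fin.last l)) := by
      funext j
      apply mul_left_cancel₀ h0
      have h2 := congrFun hrel2 j
      simp only [Pi.add_apply, Pi.smul_apply, Finset.sum_apply, smul_eq_mul, Pi.zero_apply,
        Pi.neg_apply] at h2 ⊢
      rw [hψ j] at h2
      linear_combination h2
    have hαψ : α • ψ = ∑ i : Fin l, q i • θ i.castSucc := by
      funext j
      rw [Finset.sum_apply]
      simp only [Pi.smul_apply, smul_eq_mul]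
      exact (hψ j).symm
    have hmem1 : h • ψ ∈ Dv A := by
      rw [hhψ]
      exact Submodule.neg_mem _ (Submodule.add_mem _ (Submodule.sum_mem _ fun i _ =>
        Submodule.smul_mem _ _ (hθ _)) (hθ _))
    have hmem2 : α • ψ ∈ Dv A := by
      rw [hαψ]
      exact Submodule.sum_mem _ fun i _ => Submodule.smul_mem _ _ (hθ _)
    have hψD : ψ ∈ Dv A := by
      intro i
      have e1 : ∀ s : MvPolynomial (Fin l) K, ∑ j, C (A i j) * (s • ψ) j =
          s * ∑ j, C (A i j) * ψ j := by
        intro s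
        rw [Finset.mul_sum]
        exact Finset.sum_congr rfl fun j _ => by rw [Pi.smul_apply, smul_eq_mul]; ring
      have h1 := hmem1 i
      have h2 := hmem2 i
      rw [e1] at h1 h2
      have hpi := prime_lf (hA.1 i)
      by_cases hda : lf (A i) ∣ α
      · -- then `lf (A i)` is associated to `α` and does not divide `h`
        have hndh : ¬ lf (A i) ∣ h := by
          intro hd
          apply hdh
          exact dvd_trans (hpi.dvd_prime_iff_associated hp |>.1 hda).symm.dvd hd
        exact (hpi.dvd_or_dvd h1).resolve_left hndh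
      · exact (hpi.dvd_or_dvd h2).resolve_left hda
    rw [← hgen, Submodule.mem_span_range_iff_exists_fun] at hψD
    obtain ⟨c, hc⟩ := hψD
    have h5 : α ∣ h * c (Fin.last l) + 1 := by
      have := hlast (fun k => h * c k + (Fin.snoc (α := fun _ => MvPolynomial (Fin l) K) r 1 :
        Fin (l + 1) → MvPolynomial (Fin l) K) k) (by
          have e2 : ∑ k, (h * c k + (Fin.snoc (α := fun _ => MvPolynomial (Fin l) K) r 1 :
              Fin (l + 1) → MvPolynomial (Fin l) K) k) • θ k =
              h • ∑ k, c k • θ k + (∑ i : Fin l, r i • θ i.castSucc + θ (Fin.last l)) := by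
            simp only [add_smul, Finset.sum_add_distrib, mul_smul, Finset.smul_sum]
            congr 1
            rw [Fin.sum_univ_castSucc]
            simp
          rw [e2, hc, hhψ]
          abel)
      simpa using this
    obtain ⟨w, hw⟩ := h5
    have h6 := congrArg constantCoeff hw
    rw [map_add, map_mul, map_mul, pos_constantCoeff hh, pos_constantCoeff ⟨1, one_pos, hα⟩] at h6
    simp at h6

end

end Pool.Agent.Q82
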