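import Mathlib
import Pool.Agent.Q82.Recog

set_option autoImplicit false

/-! Derivations of the polynomial ring as tuples. -/

namespace Pool.Agent.Q82

open MvPolynomial

variable {K : Type} [Field K] {l n : ℕ}

/-- a derivation as the tuple of its values on the variables -/
noncomputable def derVec : Derivation K (MvPolynomial (Fin l) K) (MvPolynomial (Fin l) K)
    ≃ₗ[MvPolynomial (Fin l) K] (Fin l → MvPolynomial (Fin l) K) where
  toFun θ := fun j => θ (X j)
  map_add' _ _ := rfl
  map_smul' _ _ := rfl
  invFun v := mkDerivation K v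
  left_inv θ := by
    apply derivation_ext
    intro j
    simp
  right_inv v := by
    funext j
    simp

lemma derVec_apply (θ : Derivation K (MvPolynomial (Fin l) K) (MvPolynomial (Fin l) K))
    (j : Fin l) : derVec θ j = θ (X j) := rfl

lemma der_lf (θ : Derivation K (MvPolynomial (Fin l) K) (MvPolynomial (Fin l) K))
    (a : Fin l → K) : θ (lf a) = ∑ j, C (a j) * derVec θ j := by
  rw [lf, map_sum]
  refine Finset.sum_congr rfl fun j _ => ?_
  rw [Derivation.leibniz]
  simp [derVec_apply]

/-- logarithmic derivations -/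
noncomputable def logD (A : Fin n → Fin l → K) :
    Submodule (MvPolynomial (Fin l) K)
      (Derivation K (MvPolynomial (Fin l) K) (MvPolynomial (Fin l) K)) where
  carrier := {θ | ∀ i, lf (A i) ∣ θ (lf (A i))}
  add_mem' := fun {θ η} hθ hη i => by
    rw [Derivation.add_apply]
    exact dvd_add (hθ i) (hη i)
  zero_mem' := fun i => by rw [Derivation.zero_apply]; exact dvd_zero _
  smul_mem' := fun r θ hθ i => by
    rw [Derivation.smul_apply, smul_eq_mul]
    exact dvd_mul_of_dvd_right (hθ i) r

lemma mem_logD_iff {A : Fin n → Fin l → K}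
    {θ : Derivation K (MvPolynomial (Fin l) K) (MvPolynomial (Fin l) K)} :
    θ ∈ logD A ↔ derVec θ ∈ Dv A := by
  show (∀ i, lf (A i) ∣ θ (lf (A i))) ↔ ∀ i, lf (A i) ∣ ∑ j, C (A i j) * derVec θ j
  simp only [der_lf]

lemma map_logD (A : Fin n → Fin l → K) :
    (logD A).map (derVec (K := K) (l := l)).toLinearMap = Dv A := by
  ext v
  constructor
  · rintro ⟨θ, hθ, rfl⟩
    exact mem_logD_iff.1 hθ
  · intro hv
    refine ⟨derVec.symm v, ?_, by simp⟩
    show derVec.symm v ∈ logD A
    rw [mem_logD_iff, LinearEquiv.apply_symm_apply]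
    exact hv

lemma span_eq_iff (A : Fin n → Fin l → K)
    (s : Set (Derivation K (MvPolynomial (Fin l) K) (MvPolynomial (Fin l) K))) :
    Submodule.span (MvPolynomial (Fin l) K) s = logD A ↔
      Submodule.span (MvPolynomial (Fin l) K) (derVec '' s) = Dv A := by
  rw [← map_logD, ← LinearEquiv.coe_toLinearMap, ← Submodule.map_span]
  constructor
  · intro h; rw [h]
  · intro h
    exact Submodule.map_injective_of_injective (derVec (K := K) (l := l)).injective h

lemma mem_span_iff (θ : Derivation K (MvPolynomial (Fin l) K) (MvPolynomial (Fin l) K))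
    (s : Set (Derivation K (MvPolynomial (Fin l) K) (MvPolynomial (Fin l) K))) :
    θ ∈ Submodule.span (MvPolynomial (Fin l) K) s ↔
      derVec θ ∈ Submodule.span (MvPolynomial (Fin l) K) (derVec '' s) := by
  rw [← LinearEquiv.coe_toLinearMap, ← Submodule.map_span]
  constructor
  · intro h; exact ⟨θ, h, rfl⟩
  · rintro ⟨η, hη, he⟩
    rwa [← (derVec (K := K) (l := l)).injective he]

lemma rel_iff {ι : Type*} [Fintype ι] (f : ι → MvPolynomial (Fin l) K)
    (θ : ι → Derivation K (MvPolynomial (Fin l) K) (MvPolynomial (Fin l) K)) :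
    ∑ i, f i • θ i = 0 ↔ ∑ i, f i • derVec (θ i) = 0 := by
  rw [← (derVec (K := K) (l := l)).map_eq_zero_iff, map_sum]
  simp only [map_smul]

end Pool.Agent.Q82
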