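import Mathlib

set_option autoImplicit false

/-!
# Rational functions of bounded height and the equation `γ² = α - β^j`
-/

namespace Pool.Agent.Q82.Height

open Polynomial

/-- The rational function `ρ` has height at most `D`. -/
def Ht (ρ : RatFunc ℂ) (D : ℕ) : Prop := ρ.num.natDegree ≤ D ∧ ρ.denom.natDegree ≤ D

lemma Ht.of_div {r q : ℂ[X]} {D : ℕ} (hq : q ≠ 0) (hr' : r.natDegree ≤ D)
    (hq' : q.natDegree ≤ D) :
    Ht (algebraMap _ _ r / algebraMap _ _ q) D := by
  constructor
  · by_cases hr : r = 0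
    · rw [hr]; simp
    · exact le_trans (natDegree_le_of_dvd (RatFunc.num_div_dvd r hq) hr) hr'
  · exact le_trans (natDegree_le_of_dvd (RatFunc.denom_div_dvd r q) hq) hq'

lemma Ht.lin {ρ ρ' : RatFunc ℂ} {D : ℕ} (h : Ht ρ D) (h' : Ht ρ' D) (c c' : ℂ) :
    Ht (algebraMap ℂ[X] _ (C c) * ρ + algebraMap ℂ[X] _ (C c') * ρ') (2 * D) := by
  have e : algebraMap ℂ[X] (RatFunc ℂ) (C c) * ρ + algebraMap ℂ[X] (RatFunc ℂ) (C c') * ρ' =
      algebraMap _ _ (C c * ρ.num * ρ'.denom + C c' * ρ'.num * ρ.denom) /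
        algebraMap _ _ (ρ.denom * ρ'.denom) := by
    have h1 : algebraMap ℂ[X] (RatFunc ℂ) ρ.denom ≠ 0 :=
      RatFunc.algebraMap_ne_zero ρ.denom_ne_zero
    have h2 : algebraMap ℂ[X] (RatFunc ℂ) ρ'.denom ≠ 0 :=
      RatFunc.algebraMap_ne_zero ρ'.denom_ne_zero
    conv_lhs => rw [← RatFunc.num_div_denom ρ, ← RatFunc.num_div_denom ρ']
    rw [map_mul, map_add, map_mul, map_mul, map_mul, map_mul]
    field_simp
  rw [e]
  obtain ⟨h1, h2⟩ := h
  obtain ⟨h3, h4⟩ := h'
  apply Ht.of_div
  · exact mul_ne_zero ρ.denom_ne_zero ρ'.denom_ne_zero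
  · refine le_trans (natDegree_add_le _ _) (max_le ?_ ?_)
    · refine le_trans natDegree_mul_le ?_
      have := natDegree_C_mul_le c ρ.num
      omega
    · refine le_trans natDegree_mul_le ?_
      have := natDegree_C_mul_le c' ρ'.num
      omega
  · refine le_trans natDegree_mul_le ?_
    omega

/-- A root of a polynomial with coefficients of degree at most `d` has height at most `d`. -/
lemma ht_of_root {d : ℕ} {p : ℂ[X][X]} (hp : p ≠ 0) (hd : ∀ k, (p.coeff k).natDegree ≤ d)
    {ρ : RatFunc ℂ} (h : aeval ρ p = 0) : Ht ρ d := by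
  by_cases hρ : ρ = 0
  · rw [hρ]; simp [Ht]
  obtain ⟨q, hq, hq0⟩ := exists_eq_pow_rootMultiplicity_mul_and_not_dvd p hp 0
  rw [C_0, sub_zero] at hq hq0
  rw [X_dvd_iff] at hq0
  generalize rootMultiplicity 0 p = m at hq
  subst hq
  have hqd : ∀ k, (q.coeff k).natDegree ≤ d := by
    intro k
    have := hd (k + m)
    rwa [coeff_X_pow_mul] at this
  have hroot : aeval ρ q = 0 := by
    rw [map_mul, map_pow, aeval_X] at h
    exact (mul_eq_zero.1 h).resolve_left (pow_ne_zero _ hρ)
  have h1 := num_dvd_of_is_root hroot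
  have h2 := den_dvd_of_is_root hroot
  have h3 : ρ = algebraMap _ _ (IsFractionRing.num ℂ[X] ρ) /
      algebraMap _ _ (IsFractionRing.den ℂ[X] ρ : ℂ[X]) := by
    have := IsFractionRing.mk'_num_den' ℂ[X] ρ
    exact this.symm
  rw [h3]
  have hq1 : q ≠ 0 := by rintro rfl; simp at hq0
  apply Ht.of_div
  · exact nonZeroDivisors.ne_zero (IsFractionRing.den ℂ[X] ρ).2
  · exact le_trans (natDegree_le_of_dvd h1 hq0) (hqd 0)
  · exact le_trans (natDegree_le_of_dvd h2 (leadingCoeff_ne_zero.2 hq1)) (hqd _)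

/-- polynomials with vanishing Wronskian are proportional -/
lemma prop_of_wronskian {x y : ℂ[X]} (hy : y ≠ 0) (h : wronskian x y = 0) : y ∣ x := by
  set g := EuclideanDomain.gcd x y with hg
  have hg0 : g ≠ 0 := by
    intro h0
    exact hy (EuclideanDomain.gcd_eq_zero_iff.1 h0).2
  have hc : IsCoprime (x / g) (y / g) := by
    rw [← EuclideanDomain.gcd_isUnit_iff]
    have h1 : g * EuclideanDomain.gcd (x / g) (y / g) ∣ g := by
      apply EuclideanDomain.dvd_gcd
      · conv_rhs => rw [← EuclideanDomain.mul_div_cancel' hg0 (EuclideanDomain.gcd_dvd_left x y)]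
        exact mul_dvd_mul_left _ (EuclideanDomain.gcd_dvd_left _ _)
      · conv_rhs => rw [← EuclideanDomain.mul_div_cancel' hg0 (EuclideanDomain.gcd_dvd_right x y)]
        exact mul_dvd_mul_left _ (EuclideanDomain.gcd_dvd_right _ _)
    have h2 : g * EuclideanDomain.gcd (x / g) (y / g) ∣ g * 1 := by rwa [mul_one]
    exact isUnit_of_dvd_one ((mul_dvd_mul_iff_left hg0).1 h2)
  have ex : x = g * (x / g) :=
    (EuclideanDomain.mul_div_cancel' hg0 (EuclideanDomain.gcd_dvd_left x y)).symm
  have ey : y = g * (y / g) :=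
    (EuclideanDomain.mul_div_cancel' hg0 (EuclideanDomain.gcd_dvd_right x y)).symm
  generalize x / g = x0 at *
  generalize y / g = y0 at *
  have hw : wronskian x0 y0 = 0 := by
    have : wronskian x y = g ^ 2 * wronskian x0 y0 := by
      rw [ex, ey]
      simp only [wronskian, derivative_mul]
      ring
    rw [h] at this
    exact (mul_eq_zero.1 this.symm).resolve_left (pow_ne_zero _ hg0)
  obtain ⟨h1, h2⟩ := hc.wronskian_eq_zero_iff.1 hw
  have h3 : y0 = C (y0.coeff 0) := eq_C_of_natDegree_eq_zero (derivative_eq_zero.1 h2)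
  have hc0 : y0.coeff 0 ≠ 0 := by
    intro h0
    rw [h0, C_0] at h3
    rw [h3, mul_zero] at ey
    exact hy ey
  refine ⟨C (y0.coeff 0)⁻¹ * x0, ?_⟩
  rw [ex, ey, h3]
  have : C (y0.coeff 0) * C (y0.coeff 0)⁻¹ = 1 := by rw [← C_mul, mul_inv_cancel₀ hc0, C_1]
  simp only [coeff_C_zero]
  linear_combination -(g * x0) * this

lemma natDegree_wronskian_le (a b : ℂ[X]) : (wronskian a b).natDegree ≤ a.natDegree + b.natDegree := by
  by_cases h : wronskian a b = 0
  · rw [h]; simp
  · exact (natDegree_wronskian_lt_add h).le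

/-- The key polynomial statement: `(M/N)² = A/E₁ - (B/E)^(l+1)`. -/
lemma key {A E₁ B E M N : ℂ[X]} {D l : ℕ} (hj : 13 * D < l + 1) (hA : A ≠ 0) (hE₁ : E₁ ≠ 0)
    (hE : E ≠ 0) (hN : N ≠ 0) (hBE : IsCoprime B E) (hMN : IsCoprime M N)
    (dA : A.natDegree ≤ D) (dE₁ : E₁.natDegree ≤ D) (dB : B.natDegree ≤ D) (dE : E.natDegree ≤ D)
    (h : M ^ 2 * E₁ * E ^ (l + 1) = N ^ 2 * (A * E ^ (l + 1) - E₁ * B ^ (l + 1))) :
    B.natDegree = 0 ∧ E.natDegree = 0 := by
  -- the identity obtained by differentiation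
  set w := B * E * wronskian A E₁ - ((l : ℂ[X]) + 1) * (wronskian B E * A * E₁) with hw
  have hdiff := congrArg derivative h
  simp only [derivative_mul, derivative_pow, derivative_sub] at hdiff
  have key1 : M * (2 * (B * E * wronskian M N) - ((l : ℂ[X]) + 1) * (wronskian B E * M * N)) *
      E₁ ^ 2 = w * N ^ 3 := by
    apply mul_left_cancel₀ (pow_ne_zero (l + 1) hE)
    rw [hw]
    simp only [wronskian]
    simp only [Nat.cast_add, Nat.cast_one, add_tsub_cancel_right, Nat.cast_ofNat, C_add, C_1] at hdiff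
    have hC : (C (l : ℂ) : ℂ[X]) = (l : ℂ[X]) := by simp
    have hC2 : (C (2 : ℂ) : ℂ[X]) = 2 := map_ofNat C 2
    rw [hC, hC2] at hdiff
    linear_combination -(B * N * E₁ * E) * hdiff +
      ((2 * derivative N * E₁ + N * derivative E₁) * B * E +
        ((l : ℂ[X]) + 1) * derivative B * N * E₁ * E) * h
  have hlast : (N ^ 2 * E₁) * B ^ (l + 1) = E ^ (l + 1) * (N ^ 2 * A - M ^ 2 * E₁) := by
    linear_combination h
  have hBE' : IsCoprime (B ^ (l + 1)) (E ^ (l + 1)) := hBE.pow
  -- it suffices to bound the degrees of `M` and `N`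
  suffices hs : w ≠ 0 → N.natDegree ≤ 6 * D ∧ M.natDegree ≤ 4 * D by
    by_cases hw0 : w = 0
    · -- the Wronskian case
      by_cases hB : B = 0
      · subst hB
        refine ⟨natDegree_zero, ?_⟩
        have : IsUnit E := isCoprime_zero_left.1 hBE
        exact natDegree_eq_zero_of_isUnit this
      have hwr : wronskian (A * E ^ (l + 1)) (E₁ * B ^ (l + 1)) = 0 := by
        have : wronskian (A * E ^ (l + 1)) (E₁ * B ^ (l + 1)) = E ^ l * B ^ l * w := by
          rw [hw]
          simp only [wronskian, derivative_mul, derivative_pow]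
          simp only [Nat.cast_add, Nat.cast_one, add_tsub_cancel_right, C_add, C_1]
          simp only [map_natCast]
          ring
        rw [this, hw0, mul_zero]
      have h1 := prop_of_wronskian (mul_ne_zero hE₁ (pow_ne_zero _ hB)) hwr
      have hwr' : wronskian (E₁ * B ^ (l + 1)) (A * E ^ (l + 1)) = 0 := by
        rw [← wronskian_neg_eq, hwr, neg_zero]
      have h2 := prop_of_wronskian (mul_ne_zero hA (pow_ne_zero _ hE)) hwr'
      have h3 : B ^ (l + 1) ∣ A :=
        hBE'.dvd_of_dvd_mul_right ((Dvd.intro_left _ rfl).trans h1)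
      have h4 : E ^ (l + 1) ∣ E₁ :=
        hBE'.symm.dvd_of_dvd_mul_right ((Dvd.intro_left _ rfl).trans h2)
      have h5 := natDegree_le_of_dvd h3 hA
      have h6 := natDegree_le_of_dvd h4 hE₁
      rw [natDegree_pow] at h5 h6
      constructor
      · by_contra h0
        have : l + 1 ≤ (l + 1) * B.natDegree := Nat.le_mul_of_pos_right _ (Nat.pos_of_ne_zero h0)
        omega
      · by_contra h0
        have : l + 1 ≤ (l + 1) * E.natDegree := Nat.le_mul_of_pos_right _ (Nat.pos_of_ne_zero h0)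
        omega
    · obtain ⟨h1, h2⟩ := hs hw0
      constructor
      · by_contra h0
        have hB : B ≠ 0 := by rintro rfl; exact h0 natDegree_zero
        have h3 : B ^ (l + 1) ∣ N ^ 2 * A - M ^ 2 * E₁ :=
          hBE'.dvd_of_dvd_mul_left ((Dvd.intro_left _ rfl).trans hlast.dvd)
        have h4 : N ^ 2 * A - M ^ 2 * E₁ ≠ 0 := by
          intro h0'
          rw [h0', mul_zero] at hlast
          exact mul_ne_zero (mul_ne_zero (pow_ne_zero _ hN) hE₁) (pow_ne_zero _ hB) hlast
        have h5 := natDegree_le_of_dvd h3 h4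
        rw [natDegree_pow] at h5
        have h6 : (N ^ 2 * A - M ^ 2 * E₁).natDegree ≤ 13 * D := by
          refine le_trans (natDegree_sub_le _ _) (max_le ?_ ?_)
          · refine le_trans natDegree_mul_le ?_
            rw [natDegree_pow]; omega
          · refine le_trans natDegree_mul_le ?_
            rw [natDegree_pow]; omega
        have : l + 1 ≤ (l + 1) * B.natDegree := Nat.le_mul_of_pos_right _ (Nat.pos_of_ne_zero h0)
        omega
      · by_contra h0
        have h3 : E ^ (l + 1) ∣ N ^ 2 * E₁ :=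
          hBE'.symm.dvd_of_dvd_mul_right ((Dvd.intro _ rfl).trans hlast.symm.dvd)
        have h5 := natDegree_le_of_dvd h3 (mul_ne_zero (pow_ne_zero _ hN) hE₁)
        rw [natDegree_pow] at h5
        have h6 : (N ^ 2 * E₁).natDegree ≤ 13 * D := by
          refine le_trans natDegree_mul_le ?_
          rw [natDegree_pow]; omega
        have : l + 1 ≤ (l + 1) * E.natDegree := Nat.le_mul_of_pos_right _ (Nat.pos_of_ne_zero h0)
        omega
  intro hw0
  have hMw : M ∣ w := by
    have h1 : M ∣ w * N ^ 3 := by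
      rw [← key1, mul_assoc]
      exact Dvd.intro _ rfl
    exact (hMN.pow_right (n := 3)).dvd_of_dvd_mul_right h1
  have hl : ∀ p : ℂ[X], (((l : ℂ[X]) + 1) * p).natDegree ≤ p.natDegree := by
    intro p
    have : ((l : ℂ[X]) + 1) * p = C ((l : ℂ) + 1) * p := by simp
    rw [this]
    exact natDegree_C_mul_le _ _
  have hwd : w.natDegree ≤ 4 * D := by
    rw [hw]
    have i1 := natDegree_wronskian_le A E₁
    have i2 := natDegree_wronskian_le B E
    refine le_trans (natDegree_sub_le _ _) (max_le ?_ ?_)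
    · refine le_trans natDegree_mul_le ?_
      have := natDegree_mul_le (p := B) (q := E)
      omega
    · refine le_trans (hl _) ?_
      refine le_trans natDegree_mul_le ?_
      have := natDegree_mul_le (p := wronskian B E) (q := A)
      omega
  have hM : M.natDegree ≤ 4 * D := le_trans (natDegree_le_of_dvd hMw hw0) hwd
  refine ⟨?_, hM⟩
  have e1 : (w * N ^ 3).natDegree = w.natDegree + 3 * N.natDegree := by
    rw [natDegree_mul hw0 (pow_ne_zero _ hN), natDegree_pow]
  have e2 : (M * (2 * (B * E * wronskian M N) - ((l : ℂ[X]) + 1) * (wronskian B E * M * N)) *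
      E₁ ^ 2).natDegree ≤ M.natDegree + (2 * D + (M.natDegree + N.natDegree)) + 2 * D := by
    have i1 := natDegree_wronskian_le M N
    have i2 := natDegree_wronskian_le B E
    refine le_trans natDegree_mul_le ?_
    rw [natDegree_pow]
    have i3 : (2 * (B * E * wronskian M N) -
        ((l : ℂ[X]) + 1) * (wronskian B E * M * N)).natDegree ≤
        2 * D + (M.natDegree + N.natDegree) := by
      refine le_trans (natDegree_sub_le _ _) (max_le ?_ ?_)
      · have : (2 : ℂ[X]) * (B * E * wronskian M N) = C 2 * (B * E * wronskian M N) := by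
          rw [map_ofNat C 2]
        rw [this]
        refine le_trans (natDegree_C_mul_le _ _) ?_
        refine le_trans natDegree_mul_le ?_
        have := natDegree_mul_le (p := B) (q := E)
        omega
      · refine le_trans (hl _) ?_
        refine le_trans natDegree_mul_le ?_
        have := natDegree_mul_le (p := wronskian B E) (q := M)
        omega
    have i4 := natDegree_mul_le (p := M) (q := 2 * (B * E * wronskian M N) -
        ((l : ℂ[X]) + 1) * (wronskian B E * M * N))
    omega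
  rw [key1, e1] at e2
  omega

/-- If `γ² = α - β^j` with `α ≠ 0` and `α`, `β` of height at most `D`, `13 D < j`, then `β` is
constant. -/
lemma const_of_sq {D j : ℕ} (hj : 13 * D < j) {α β γ : RatFunc ℂ} (hα : Ht α D) (hα0 : α ≠ 0)
    (hβ : Ht β D) (h : γ ^ 2 = α - β ^ j) : β.num.natDegree = 0 ∧ β.denom.natDegree = 0 := by
  obtain ⟨l, rfl⟩ : ∃ l, j = l + 1 := ⟨j - 1, by omega⟩
  have n1 : algebraMap ℂ[X] (RatFunc ℂ) α.denom ≠ 0 := RatFunc.algebraMap_ne_zero α.denom_ne_zero
  have n2 : algebraMap ℂ[X] (RatFunc ℂ) β.denom ≠ 0 := RatFunc.algebraMap_ne_zero β.denom_ne_zero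
  have n3 : algebraMap ℂ[X] (RatFunc ℂ) γ.denom ≠ 0 := RatFunc.algebraMap_ne_zero γ.denom_ne_zero
  apply key (A := α.num) (E₁ := α.denom) (M := γ.num) (N := γ.denom) hj
    (RatFunc.num_ne_zero hα0) α.denom_ne_zero β.denom_ne_zero γ.denom_ne_zero
    β.isCoprime_num_denom γ.isCoprime_num_denom hα.1 hα.2 hβ.1 hβ.2
  apply RatFunc.algebraMap_injective ℂ
  rw [← RatFunc.num_div_denom γ, ← RatFunc.num_div_denom α, ← RatFunc.num_div_denom β] at h
  simp only [map_mul, map_sub, map_pow]
  generalize algebraMap ℂ[X] (RatFunc ℂ) α.denom = ad at *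
  generalize algebraMap ℂ[X] (RatFunc ℂ) β.denom = bd at *
  generalize algebraMap ℂ[X] (RatFunc ℂ) γ.denom = cd at *
  generalize algebraMap ℂ[X] (RatFunc ℂ) α.num = an at *
  generalize algebraMap ℂ[X] (RatFunc ℂ) β.num = bn at *
  generalize algebraMap ℂ[X] (RatFunc ℂ) γ.num = cn at *
  rw [div_pow, div_pow, div_sub_div _ _ n1 (pow_ne_zero _ n2),
    div_eq_div_iff (pow_ne_zero _ n3) (mul_ne_zero n1 (pow_ne_zero _ n2))] at h
  linear_combination h

end Pool.Agent.Q82.Height
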