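import Mathlib
import Pool.Agent.Q82.Core
import Pool.Agent.H158R3.Lat

set_option autoImplicit false

/-! Logarithmic fields of two combinatorially equivalent line arrangements: the general member. -/

namespace Pool.Agent.Q82.Pog

open MvPolynomial

variable {K : Type} [Field K]

/-- the general member of the family (`t = -1`) -/
def MB : Fin 9 → Fin 3 → ℤ :=
  ![![1, 0, 0], ![0, 1, 0], ![0, 0, 1], ![1, 1, 1], ![0, 1, -1], ![-1, 1, -1], ![1, 0, 2],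
    ![-1, 1, -2], ![1, -2, 4]]

/-- the special member of the family (`t = 2`) -/
def MA : Fin 9 → Fin 3 → ℤ :=
  ![![1, 0, 0], ![0, 1, 0], ![0, 0, 1], ![1, 1, 1], ![0, 1, 2], ![2, 1, 2], ![1, 0, -1],
    ![2, 1, -2], ![4, 1, -2]]

/-- cast to the field -/
def toK (K : Type) [Field K] (M : Fin 9 → Fin 3 → ℤ) : Fin 9 → Fin 3 → K :=
  fun i j => (M i j : K)

lemma lf_toK (M : Fin 9 → Fin 3 → ℤ) (i : Fin 9) : lf (toK K M i) =
    ((M i 0 : ℤ) : MvPolynomial (Fin 3) K) * X 0 + ((M i 1 : ℤ) : MvPolynomial (Fin 3) K) * X 1 +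
      ((M i 2 : ℤ) : MvPolynomial (Fin 3) K) * X 2 := by
  rw [lf, Fin.sum_univ_three]
  simp [toK]

lemma mem_Dv_toK {M : Fin 9 → Fin 3 → ℤ} {θ : Fin 3 → MvPolynomial (Fin 3) K} :
    θ ∈ Dv (toK K M) ↔ ∀ i, (((M i 0 : ℤ) : MvPolynomial (Fin 3) K) * X 0 +
      ((M i 1 : ℤ) : MvPolynomial (Fin 3) K) * X 1 +
      ((M i 2 : ℤ) : MvPolynomial (Fin 3) K) * X 2) ∣
      (((M i 0 : ℤ) : MvPolynomial (Fin 3) K) * θ 0 +
      ((M i 1 : ℤ) : MvPolynomial (Fin 3) K) * θ 1 +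
      ((M i 2 : ℤ) : MvPolynomial (Fin 3) K) * θ 2) := by
  rw [mem_Dv]
  refine forall_congr' fun i => ?_
  rw [lf_toK, Fin.sum_univ_three]
  simp [toK]

/-! ### explicit polynomials -/

def u0 {R : Type} [CommRing R] (x y z : R) : R :=
  2 * x ^ 2 * y - x * y ^ 2 + 7 * x * y * z - 3 * y ^ 3 + 2 * y ^ 2 * z + 5 * y * z ^ 2

def v0 {R : Type} [CommRing R] (x y z : R) : R :=
  3 * x ^ 3 - 3 * x ^ 2 * y + 15 * x ^ 2 * z - 4 * x * y ^ 2 - 4 * x * y * z + 24 * x * z ^ 2 + 2 * y ^ 3 - 8 * y ^ 2 * z + 2 * y * z ^ 2 + 12 * z ^ 3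

def u1 {R : Type} [CommRing R] (x y z : R) : R :=
  x ^ 3 - 3 * x ^ 2 * y + 6 * x ^ 2 * z - x * y ^ 2 - 6 * x * y * z + 9 * x * z ^ 2 + 3 * y ^ 3 - 4 * y ^ 2 * z - 3 * y * z ^ 2 + 4 * z ^ 3

def v1 {R : Type} [CommRing R] (x y z : R) : R :=
  -2 * x ^ 2 * y + 4 * x ^ 2 * z - 4 * x * y * z + 8 * x * z ^ 2 + 2 * y ^ 3 - 4 * y ^ 2 * z - 2 * y * z ^ 2 + 4 * z ^ 3

def u2 {R : Type} [CommRing R] (x y z : R) : R :=
  x ^ 2 * y - 2 * x * y ^ 2 + 3 * x * y * z + y ^ 3 - 3 * y ^ 2 * z + 2 * y * z ^ 2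

def v2 {R : Type} [CommRing R] (x y z : R) : R :=
  x ^ 3 - 2 * x ^ 2 * y + 3 * x ^ 2 * z + x * y ^ 2 - 3 * x * y * z + 2 * x * z ^ 2

def u3 {R : Type} [CommRing R] (x y z : R) : R :=
  2 * x ^ 3 + 16 * x ^ 2 * z - 5 * x * y ^ 2 - 15 * x * y * z + 38 * x * z ^ 2 + 5 * y ^ 3 - 10 * y ^ 2 * z - 15 * y * z ^ 2 + 24 * z ^ 3

def v3 {R : Type} [CommRing R] (x y z : R) : R :=
  5 * x ^ 3 - 5 * x ^ 2 * y + 5 * x ^ 2 * z + 2 * y ^ 3 - 8 * y ^ 2 * z + 2 * y * z ^ 2 + 12 * z ^ 3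

lemma d0_3 {R : Type} [CommRing R] (x y z : R) :
    (x + y + z) ∣ x * (x + 2 * z) * u0 x y z + y * (y - z) * v0 x y z :=
  ⟨2 * x ^ 3 * y + 6 * x ^ 2 * y * z - 6 * x * y ^ 3 + 12 * x * y ^ 2 * z - 2 * x * y * z ^ 2 + 2 * y ^ 4 - 12 * y ^ 3 * z + 22 * y ^ 2 * z ^ 2 - 12 * y * z ^ 3, by unfold u0 v0; ring⟩

lemma d0_5 {R : Type} [CommRing R] (x y z : R) :
    (-x + y - z) ∣ -(x * (x + 2 * z) * u0 x y z) + y * (y - z) * v0 x y z :=
  ⟨2 * x ^ 3 * y - 2 * x ^ 2 * y ^ 2 + 12 * x ^ 2 * y * z - 2 * x * y ^ 3 - 4 * x * y ^ 2 * z + 22 * x * y * z ^ 2 + 2 * y ^ 4 - 8 * y ^ 3 * z + 2 * y ^ 2 * z ^ 2 + 12 * y * z ^ 3, by unfold u0 v0; ring⟩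

lemma d0_7 {R : Type} [CommRing R] (x y z : R) :
    (-x + y - 2 * z) ∣ -(x * (x + 2 * z) * u0 x y z) + y * (y - z) * v0 x y z :=
  ⟨2 * x ^ 3 * y - 2 * x ^ 2 * y ^ 2 + 10 * x ^ 2 * y * z - 2 * x * y ^ 3 - 4 * x * y ^ 2 * z + 14 * x * y * z ^ 2 + 2 * y ^ 4 - 6 * y ^ 3 * z - 2 * y ^ 2 * z ^ 2 + 6 * y * z ^ 3, by unfold u0 v0; ring⟩

lemma d0_8 {R : Type} [CommRing R] (x y z : R) :
    (x - 2 * y + 4 * z) ∣ x * (x + 2 * z) * u0 x y z - 2 * (y * (y - z) * v0 x y z) :=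
  ⟨2 * x ^ 3 * y - 3 * x ^ 2 * y ^ 2 + 9 * x ^ 2 * y * z - 3 * x * y ^ 3 - 6 * x * y ^ 2 * z + 13 * x * y * z ^ 2 + 2 * y ^ 4 - 6 * y ^ 3 * z - 2 * y ^ 2 * z ^ 2 + 6 * y * z ^ 3, by unfold u0 v0; ring⟩

lemma d1_3 {R : Type} [CommRing R] (x y z : R) :
    (x + y + z) ∣ x * (x + 2 * z) * u1 x y z + y * (y - z) * v1 x y z :=
  ⟨x ^ 4 - 4 * x ^ 3 * y + 7 * x ^ 3 * z + 3 * x ^ 2 * y ^ 2 - 15 * x ^ 2 * y * z + 14 * x ^ 2 * z ^ 2 - 2 * x * y ^ 3 + 12 * x * y ^ 2 * z - 18 * x * y * z ^ 2 + 8 * x * z ^ 3 + 2 * y ^ 4 - 8 * y ^ 3 * z + 10 * y ^ 2 * z ^ 2 - 4 * y * z ^ 3, by unfold u1 v1; ring⟩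

lemma d1_5 {R : Type} [CommRing R] (x y z : R) :
    (-x + y - z) ∣ -(x * (x + 2 * z) * u1 x y z) + y * (y - z) * v1 x y z :=
  ⟨x ^ 4 - 2 * x ^ 3 * y + 7 * x ^ 3 * z - 3 * x ^ 2 * y ^ 2 - 3 * x ^ 2 * y * z + 14 * x ^ 2 * z ^ 2 + 2 * x * y ^ 3 - 12 * x * y ^ 2 * z + 6 * x * y * z ^ 2 + 8 * x * z ^ 3 + 2 * y ^ 4 - 4 * y ^ 3 * z - 2 * y ^ 2 * z ^ 2 + 4 * y * z ^ 3, by unfold u1 v1; ring⟩

lemma d1_7 {R : Type} [CommRing R] (x y z : R) :
    (-x + y - 2 * z) ∣ -(x * (x + 2 * z) * u1 x y z) + y * (y - z) * v1 x y z :=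
  ⟨x ^ 4 - 2 * x ^ 3 * y + 6 * x ^ 3 * z - 3 * x ^ 2 * y ^ 2 - 2 * x ^ 2 * y * z + 9 * x ^ 2 * z ^ 2 + 2 * x * y ^ 3 - 8 * x * y ^ 2 * z + 2 * x * y * z ^ 2 + 4 * x * z ^ 3 + 2 * y ^ 4 - 2 * y ^ 3 * z - 2 * y ^ 2 * z ^ 2 + 2 * y * z ^ 3, by unfold u1 v1; ring⟩

lemma d1_8 {R : Type} [CommRing R] (x y z : R) :
    (x - 2 * y + 4 * z) ∣ x * (x + 2 * z) * u1 x y z - 2 * (y * (y - z) * v1 x y z) :=
  ⟨x ^ 4 - x ^ 3 * y + 4 * x ^ 3 * z - 3 * x ^ 2 * y ^ 2 + 5 * x ^ 2 * z ^ 2 + x * y ^ 3 - 6 * x * y ^ 2 * z + 3 * x * y * z ^ 2 + 2 * x * z ^ 3 + 2 * y ^ 4 - 2 * y ^ 3 * z - 2 * y ^ 2 * z ^ 2 + 2 * y * z ^ 3, by unfold u1 v1; ring⟩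

lemma d2_3 {R : Type} [CommRing R] (x y z : R) :
    (x + y + z) ∣ x * (x + 2 * z) * u2 x y z + y * (y - z) * v2 x y z :=
  ⟨x ^ 3 * y - 2 * x ^ 2 * y ^ 2 + 3 * x ^ 2 * y * z + x * y ^ 3 - 3 * x * y ^ 2 * z + 2 * x * y * z ^ 2, by unfold u2 v2; ring⟩

lemma d2_5 {R : Type} [CommRing R] (x y z : R) :
    (-x + y - z) ∣ -(x * (x + 2 * z) * u2 x y z) + y * (y - z) * v2 x y z :=
  ⟨x ^ 3 * y - 2 * x ^ 2 * y ^ 2 + 5 * x ^ 2 * y * z + x * y ^ 3 - 5 * x * y ^ 2 * z + 6 * x * y * z ^ 2, by unfold u2 v2; ring⟩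

lemma d2_7 {R : Type} [CommRing R] (x y z : R) :
    (-x + y - 2 * z) ∣ -(x * (x + 2 * z) * u2 x y z) + y * (y - z) * v2 x y z :=
  ⟨x ^ 3 * y - 2 * x ^ 2 * y ^ 2 + 4 * x ^ 2 * y * z + x * y ^ 3 - 4 * x * y ^ 2 * z + 3 * x * y * z ^ 2, by unfold u2 v2; ring⟩

lemma d2_8 {R : Type} [CommRing R] (x y z : R) :
    (x - 2 * y + 4 * z) ∣ x * (x + 2 * z) * u2 x y z - 2 * (y * (y - z) * v2 x y z) :=
  ⟨x ^ 3 * y - 2 * x ^ 2 * y ^ 2 + 3 * x ^ 2 * y * z + x * y ^ 3 - 3 * x * y ^ 2 * z + 2 * x * y * z ^ 2, by unfold u2 v2; ring⟩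

lemma d3_3 {R : Type} [CommRing R] (x y z : R) :
    (x + y + z) ∣ x * (x + 2 * z) * u3 x y z + y * (y - z) * v3 x y z :=
  ⟨2 * x ^ 4 - 2 * x ^ 3 * y + 18 * x ^ 3 * z + 2 * x ^ 2 * y ^ 2 - 36 * x ^ 2 * y * z + 52 * x ^ 2 * z ^ 2 - 2 * x * y ^ 3 + 24 * x * y ^ 2 * z - 66 * x * y * z ^ 2 + 48 * x * z ^ 3 + 2 * y ^ 4 - 12 * y ^ 3 * z + 22 * y ^ 2 * z ^ 2 - 12 * y * z ^ 3, by unfold u3 v3; ring⟩

lemma d3_5 {R : Type} [CommRing R] (x y z : R) :
    (-x + y - z) ∣ -(x * (x + 2 * z) * u3 x y z) + y * (y - z) * v3 x y z :=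
  ⟨2 * x ^ 4 + 2 * x ^ 3 * y + 18 * x ^ 3 * z - 8 * x ^ 2 * y ^ 2 + 6 * x ^ 2 * y * z + 52 * x ^ 2 * z ^ 2 + 2 * x * y ^ 3 - 16 * x * y ^ 2 * z + 6 * x * y * z ^ 2 + 48 * x * z ^ 3 + 2 * y ^ 4 - 8 * y ^ 3 * z + 2 * y ^ 2 * z ^ 2 + 12 * y * z ^ 3, by unfold u3 v3; ring⟩

lemma d3_7 {R : Type} [CommRing R] (x y z : R) :
    (-x + y - 2 * z) ∣ -(x * (x + 2 * z) * u3 x y z) + y * (y - z) * v3 x y z :=
  ⟨2 * x ^ 4 + 2 * x ^ 3 * y + 16 * x ^ 3 * z - 8 * x ^ 2 * y ^ 2 + 2 * x ^ 2 * y * z + 38 * x ^ 2 * z ^ 2 + 2 * x * y ^ 3 - 12 * x * y ^ 2 * z - 6 * x * y * z ^ 2 + 24 * x * z ^ 3 + 2 * y ^ 4 - 6 * y ^ 3 * z - 2 * y ^ 2 * z ^ 2 + 6 * y * z ^ 3, by unfold u3 v3; ring⟩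

lemma d3_8 {R : Type} [CommRing R] (x y z : R) :
    (x - 2 * y + 4 * z) ∣ x * (x + 2 * z) * u3 x y z - 2 * (y * (y - z) * v3 x y z) :=
  ⟨2 * x ^ 4 + 4 * x ^ 3 * y + 12 * x ^ 3 * z - 7 * x ^ 2 * y ^ 2 + 3 * x ^ 2 * y * z + 22 * x ^ 2 * z ^ 2 + x * y ^ 3 - 6 * x * y ^ 2 * z - 3 * x * y * z ^ 2 + 12 * x * z ^ 3 + 2 * y ^ 4 - 6 * y ^ 3 * z - 2 * y ^ 2 * z ^ 2 + 6 * y * z ^ 3, by unfold u3 v3; ring⟩


/-! ### restriction to rays -/

/-- restriction to the line through the origin and `P` -/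
noncomputable def ray (P : Fin 3 → K) : MvPolynomial (Fin 3) K →ₐ[K] Polynomial K :=
  aeval (fun i => Polynomial.C (P i) * Polynomial.X)

lemma ray_X (P : Fin 3 → K) (i : Fin 3) : ray P (X i) = Polynomial.C (P i) * Polynomial.X := by
  simp [ray]

lemma ray_coeff_zero (P : Fin 3 → K) (s : MvPolynomial (Fin 3) K) :
    (ray P s).coeff 0 = constantCoeff s := by
  induction s using MvPolynomial.induction_on with
  | C a => simp [ray]
  | add p q hp hq => rw [map_add, Polynomial.coeff_add, hp, hq, map_add]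
  | mul_X p j hp => rw [map_mul, ray_X, Polynomial.mul_coeff_zero, hp]; simp

/-- the quadratic part is a quadratic form in the direction -/
lemma ray_coeff_two (u : MvPolynomial (Fin 3) K) : ∃ a : Fin 6 → K, ∀ P : Fin 3 → K,
    (ray P u).coeff 2 = a 0 * P 0 ^ 2 + a 1 * P 1 ^ 2 + a 2 * P 2 ^ 2 + a 3 * (P 0 * P 1) +
      a 4 * (P 0 * P 2) + a 5 * (P 1 * P 2) := by
  induction u using MvPolynomial.induction_on' with
  | add p q hp hq =>
    obtain ⟨a, ha⟩ := hp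
    obtain ⟨b, hb⟩ := hq
    refine ⟨a + b, fun P => ?_⟩
    rw [map_add, Polynomial.coeff_add, ha, hb]
    simp only [Pi.add_apply]
    ring
  | monomial d c =>
    have h1 : ∀ P : Fin 3 → K, ray P (monomial d c) =
        Polynomial.C (c * (P 0 ^ d 0 * P 1 ^ d 1 * P 2 ^ d 2)) *
          Polynomial.X ^ (d 0 + d 1 + d 2) := by
      intro P
      rw [ray, aeval_monomial, Finsupp.prod_fintype _ _ (fun i => by simp), Fin.prod_univ_three]
      simp only [mul_pow, Polynomial.algebraMap_eq, map_mul, map_pow, pow_add]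
      ring
    by_cases hs : d 0 + d 1 + d 2 = 2
    · have hcases : (d 0 = 2 ∧ d 1 = 0 ∧ d 2 = 0) ∨ (d 0 = 0 ∧ d 1 = 2 ∧ d 2 = 0) ∨
        (d 0 = 0 ∧ d 1 = 0 ∧ d 2 = 2) ∨ (d 0 = 1 ∧ d 1 = 1 ∧ d 2 = 0) ∨
        (d 0 = 1 ∧ d 1 = 0 ∧ d 2 = 1) ∨ (d 0 = 0 ∧ d 1 = 1 ∧ d 2 = 1) := by omega
      rcases hcases with ⟨e0, e1, e2⟩ | ⟨e0, e1, e2⟩ | ⟨e0, e1, e2⟩ | ⟨e0, e1, e2⟩ |
        ⟨e0, e1, e2⟩ | ⟨e0, e1, e2⟩
      · exact ⟨![c, 0, 0, 0, 0, 0], fun P => by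
          rw [h1, e0, e1, e2, Polynomial.coeff_C_mul_X_pow]; simp⟩
      · exact ⟨![0, c, 0, 0, 0, 0], fun P => by
          rw [h1, e0, e1, e2, Polynomial.coeff_C_mul_X_pow]; simp⟩
      · exact ⟨![0, 0, c, 0, 0, 0], fun P => by
          rw [h1, e0, e1, e2, Polynomial.coeff_C_mul_X_pow]; simp⟩
      · exact ⟨![0, 0, 0, c, 0, 0], fun P => by
          rw [h1, e0, e1, e2, Polynomial.coeff_C_mul_X_pow]; simp⟩
      · exact ⟨![0, 0, 0, 0, c, 0], fun P => by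
          rw [h1, e0, e1, e2, Polynomial.coeff_C_mul_X_pow]; simp⟩
      · exact ⟨![0, 0, 0, 0, 0, c], fun P => by
          rw [h1, e0, e1, e2, Polynomial.coeff_C_mul_X_pow]; simp⟩
    · refine ⟨0, fun P => ?_⟩
      rw [h1, Polynomial.coeff_C_mul_X_pow, if_neg (Ne.symm hs)]
      simp

/-- comparing the degree four parts at a point of a line -/
lemma eq_at {P : Fin 3 → K} {L f g u v : MvPolynomial (Fin 3) K} {a b : K}
    (h : L ∣ f * u + g * v) (hL : ray P L = 0)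
    (hf : ray P f = Polynomial.C a * Polynomial.X ^ 2)
    (hg : ray P g = Polynomial.C b * Polynomial.X ^ 2) :
    a * (ray P u).coeff 2 + b * (ray P v).coeff 2 = 0 := by
  obtain ⟨q, hq⟩ := h
  have h1 := congrArg (fun p => (ray P p).coeff 4) hq
  simp only [map_add, map_mul, hL, zero_mul, hf, hg, Polynomial.coeff_zero] at h1
  have h2 : ∀ (c : K) (w : Polynomial K),
      (Polynomial.C c * Polynomial.X ^ 2 * w).coeff 4 = c * w.coeff 2 := by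
    intro c w
    rw [mul_assoc, Polynomial.coeff_C_mul, mul_comm (Polynomial.X ^ 2) w,
      Polynomial.coeff_mul_X_pow w 2 2]
  rw [Polynomial.coeff_add, h2, h2] at h1
  exact h1

/-- the four line conditions for `(u, v)` -/
def Cond (u v : MvPolynomial (Fin 3) K) : Prop :=
  (X 0 + X 1 + X 2 : MvPolynomial (Fin 3) K) ∣
    X 0 * (X 0 + 2 * X 2) * u + X 1 * (X 1 - X 2) * v ∧
  (-X 0 + X 1 - X 2 : MvPolynomial (Fin 3) K) ∣
    -(X 0 * (X 0 + 2 * X 2)) * u + X 1 * (X 1 - X 2) * v ∧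
  (-X 0 + X 1 - 2 * X 2 : MvPolynomial (Fin 3) K) ∣
    -(X 0 * (X 0 + 2 * X 2)) * u + X 1 * (X 1 - X 2) * v ∧
  (X 0 - 2 * X 1 + 4 * X 2 : MvPolynomial (Fin 3) K) ∣
    X 0 * (X 0 + 2 * X 2) * u + (-2 * (X 1 * (X 1 - X 2))) * v

lemma Cond.smul {u v : MvPolynomial (Fin 3) K} (h : Cond u v) (s : MvPolynomial (Fin 3) K) :
    Cond (s * u) (s * v) := by
  obtain ⟨h1, h2, h3, h4⟩ := h
  refine ⟨?_, ?_, ?_, ?_⟩
  · convert dvd_mul_of_dvd_right h1 s using 1; ring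
  · convert dvd_mul_of_dvd_right h2 s using 1; ring
  · convert dvd_mul_of_dvd_right h3 s using 1; ring
  · convert dvd_mul_of_dvd_right h4 s using 1; ring

lemma ray_f (P : Fin 3 → K) : ray P (X 0 * (X 0 + 2 * X 2)) =
    Polynomial.C (P 0 * (P 0 + 2 * P 2)) * Polynomial.X ^ 2 := by
  simp only [map_mul, map_add, ray_X, map_ofNat]
  ring

lemma ray_g (P : Fin 3 → K) : ray P (X 1 * (X 1 - X 2)) =
    Polynomial.C (P 1 * (P 1 - P 2)) * Polynomial.X ^ 2 := by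
  simp only [map_mul, map_sub, ray_X]
  ring

lemma ray_f' (P : Fin 3 → K) : ray P (-(X 0 * (X 0 + 2 * X 2))) =
    Polynomial.C (-(P 0 * (P 0 + 2 * P 2))) * Polynomial.X ^ 2 := by
  rw [map_neg, ray_f, map_neg]; ring

lemma ray_g' (P : Fin 3 → K) : ray P (-2 * (X 1 * (X 1 - X 2))) =
    Polynomial.C (-2 * (P 1 * (P 1 - P 2))) * Polynomial.X ^ 2 := by
  rw [map_mul, ray_g, map_mul Polynomial.C (-2)]
  simp only [map_neg, map_ofNat]
  ring

section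
variable [CharZero K]

lemma quad_vanish {u v : MvPolynomial (Fin 3) K} (h : Cond u v) :
    (∀ P : Fin 3 → K, (ray P u).coeff 2 = 0) ∧ (∀ P : Fin 3 → K, (ray P v).coeff 2 = 0) := by
  obtain ⟨a, ha⟩ := ray_coeff_two u
  obtain ⟨b, hb⟩ := ray_coeff_two v
  obtain ⟨h3, h5, h7, h8⟩ := h
  have E3 : ∀ x y z : K, x + y + z = 0 → x * (x + 2 * z) * (ray ![x, y, z] u).coeff 2 +
      y * (y - z) * (ray ![x, y, z] v).coeff 2 = 0 := by
    intro x y z hP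
    have := eq_at (P := ![x, y, z]) h3 (by
      simp only [map_add, ray_X]
      simp only [Matrix.cons_val_zero, Matrix.cons_val_one, Matrix.cons_val]
      rw [← add_mul, ← add_mul, ← map_add, ← map_add, hP]; simp) (ray_f _) (ray_g _)
    simpa using this
  have E5 : ∀ x y z : K, -x + y - z = 0 → -(x * (x + 2 * z)) * (ray ![x, y, z] u).coeff 2 +
      y * (y - z) * (ray ![x, y, z] v).coeff 2 = 0 := by
    intro x y z hP
    have := eq_at (P := ![x, y, z]) h5 (by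
      simp only [map_add, map_sub, map_neg, ray_X]
      simp only [Matrix.cons_val_zero, Matrix.cons_val_one, Matrix.cons_val]
      rw [← neg_mul, ← add_mul, ← sub_mul, ← map_neg, ← map_add, ← map_sub, hP]; simp)
      (ray_f' _) (ray_g _)
    simpa using this
  have E7 : ∀ x y z : K, -x + y - 2 * z = 0 → -(x * (x + 2 * z)) * (ray ![x, y, z] u).coeff 2 +
      y * (y - z) * (ray ![x, y, z] v).coeff 2 = 0 := by
    intro x y z hP
    have := eq_at (P := ![x, y, z]) h7 (by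
      simp only [map_add, map_sub, map_neg, map_mul, map_ofNat, ray_X]
      simp only [Matrix.cons_val_zero, Matrix.cons_val_one, Matrix.cons_val]
      have : -(Polynomial.C x * Polynomial.X) + Polynomial.C y * Polynomial.X -
          2 * (Polynomial.C z * Polynomial.X) = Polynomial.C (-x + y - 2 * z) * Polynomial.X := by
        simp only [map_add, map_sub, map_neg, map_mul, map_ofNat]; ring
      rw [this, hP]; simp)
      (ray_f' _) (ray_g _)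
    simpa using this
  have E8 : ∀ x y z : K, x - 2 * y + 4 * z = 0 → x * (x + 2 * z) * (ray ![x, y, z] u).coeff 2 +
      (-2 * (y * (y - z))) * (ray ![x, y, z] v).coeff 2 = 0 := by
    intro x y z hP
    have := eq_at (P := ![x, y, z]) h8 (by
      simp only [map_add, map_sub, map_mul, map_ofNat, ray_X]
      simp only [Matrix.cons_val_zero, Matrix.cons_val_one, Matrix.cons_val]
      have : (Polynomial.C x * Polynomial.X) - 2 * (Polynomial.C y * Polynomial.X) +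
          4 * (Polynomial.C z * Polynomial.X) =
            Polynomial.C (x - 2 * y + 4 * z) * Polynomial.X := by
        simp only [map_add, map_sub, map_mul, map_ofNat]; ring
      rw [this, hP]; simp)
      (ray_f _) (ray_g' _)
    simpa using this
  simp only [ha, hb, Matrix.cons_val_zero, Matrix.cons_val_one, Matrix.cons_val] at E3 E5 E7 E8
  have k31 := E3 (-1) 0 1 (by norm_num)
  have k32 := E3 (-3) 1 2 (by norm_num)
  have k33 := E3 0 (-1) 1 (by norm_num)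
  have k34 := E3 1 (-1) 0 (by norm_num)
  have k51 := E5 2 3 1 (by norm_num)
  have k52 := E5 (-2) (-1) 1 (by norm_num)
  have k53 := E5 1 1 0 (by norm_num)
  have k71 := E7 (-3) 1 2 (by norm_num)
  have k72 := E7 (-1) 1 1 (by norm_num)
  have k73 := E7 0 2 1 (by norm_num)
  have k81 := E8 2 3 1 (by norm_num)
  have k82 := E8 (-4) 0 1 (by norm_num)
  have e1 : a 0 + a 2 - a 4 = 0 := by linear_combination -k31
  have e2 : 9 * a 0 + a 1 + 4 * a 2 - 3 * a 3 - 6 * a 4 + 2 * a 5 = 0 := by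
    linear_combination (-1/6) * k32 + (1/6) * k71
  have e3 : 4 * a 0 + 9 * a 1 + a 2 + 6 * a 3 + 2 * a 4 + 3 * a 5 = 0 := by
    linear_combination (-1/4) * k51 - (1/8) * k81
  have e4 : a 0 + a 1 + a 2 - a 3 - a 4 + a 5 = 0 := by linear_combination k72
  have e5 : 16 * a 0 + a 2 - 4 * a 4 = 0 := by linear_combination (1/8) * k82
  have e6 : 4 * b 1 + b 2 + 2 * b 5 = 0 := by linear_combination (1/2) * k73
  have e7 : 9 * b 0 + b 1 + 4 * b 2 - 3 * b 3 - 6 * b 4 + 2 * b 5 = 0 := by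
    linear_combination (-1/2) * k32 - (1/2) * k71
  have e8 : 4 * b 0 + 9 * b 1 + b 2 + 6 * b 3 + 2 * b 4 + 3 * b 5 = 0 := by
    linear_combination (-1/6) * k51 - (1/6) * k81
  have e9 : b 1 + b 2 - b 5 = 0 := by linear_combination (1/2) * k33
  have e10 : 4 * b 0 + b 1 + b 2 + 2 * b 3 - 2 * b 4 - b 5 = 0 := by
    linear_combination (1/2) * k52
  have e11 : a 0 + a 1 - a 3 + b 0 + b 1 - b 3 = 0 := by linear_combination k34
  have e12 : -a 0 - a 1 - a 3 + b 0 + b 1 + b 3 = 0 := by linear_combination k53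
  have a0 : a 0 = 0 := by
    linear_combination (7/18) * e1 + (-11/36) * e2 + (-1/54) * e3 + (2/3) * e4 + (5/27) * e5 + (1/108) * e7 + (-1/72) * e8 + (1/54) * e9 + (-1/24) * e10 + (-1/36) * e11 + (1/6) * e12
  have a1 : a 1 = 0 := by
    linear_combination (1/6) * e1 + (-1/4) * e2 + (-1/6) * e3 + (1) * e4 + (-1/12) * e7 + (1/8) * e8 + (-1/6) * e9 + (3/8) * e10 + (1/4) * e11 + (-3/2) * e12
  have a2 : a 2 = 0 := by
    linear_combination (26/9) * e1 + (-11/9) * e2 + (-2/27) * e3 + (8/3) * e4 + (11/27) * e5 + (1/27) * e7 + (-1/18) * e8 + (2/27) * e9 + (-1/6) * e10 + (-1/9) * e11 + (2/3) * e12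
  have a3 : a 3 = 0 := by
    linear_combination (-7/9) * e1 + (7/9) * e2 + (7/27) * e3 + (-7/3) * e4 + (-7/27) * e5 + (1/27) * e7 + (-1/18) * e8 + (2/27) * e9 + (-1/6) * e10 + (-1/9) * e11 + (2/3) * e12
  have a4 : a 4 = 0 := by
    linear_combination (41/18) * e1 + (-55/36) * e2 + (-5/54) * e3 + (10/3) * e4 + (16/27) * e5 + (5/108) * e7 + (-5/72) * e8 + (5/54) * e9 + (-5/24) * e10 + (-5/36) * e11 + (5/6) * e12
  have a5 : a 5 = 0 := by
    linear_combination (-35/18) * e1 + (37/36) * e2 + (23/54) * e3 + (-7/3) * e4 + (-7/27) * e5 + (13/108) * e7 + (-13/72) * e8 + (13/54) * e9 + (-13/24) * e10 + (-13/36) * e11 + (13/6) * e12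
  have b0 : b 0 = 0 := by
    linear_combination (-1/3) * e1 + (1/3) * e2 + (1/9) * e3 + (-1) * e4 + (-1/9) * e5 + (-1/3) * e6 + (1/9) * e7 + (1/12) * e8 + (1/18) * e9 + (-1/4) * e10 + (1/6) * e11 + (1/2) * e12
  have b1 : b 1 = 0 := by
    linear_combination (-4/9) * e1 + (4/9) * e2 + (4/27) * e3 + (-4/3) * e4 + (-4/27) * e5 + (1/3) * e6 + (-2/27) * e7 + (-5/36) * e8 + (1/54) * e9 + (1/12) * e10 + (2/9) * e11 + (2/3) * e12
  have b2 : b 2 = 0 := by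
    linear_combination (8/9) * e1 + (-8/9) * e2 + (-8/27) * e3 + (8/3) * e4 + (8/27) * e5 + (-1/3) * e6 + (4/27) * e7 + (5/18) * e8 + (17/27) * e9 + (-1/6) * e10 + (-4/9) * e11 + (-4/3) * e12
  have b3 : b 3 = 0 := by
    linear_combination (5/9) * e1 + (-5/9) * e2 + (-5/27) * e3 + (5/3) * e4 + (5/27) * e5 + (-2/27) * e7 + (1/9) * e8 + (-4/27) * e9 + (1/3) * e10 + (-5/18) * e11 + (-5/6) * e12
  have b4 : b 4 = 0 := by
    linear_combination (-1/9) * e1 + (1/9) * e2 + (1/27) * e3 + (-1/3) * e4 + (-1/27) * e5 + (-2/3) * e6 + (4/27) * e7 + (5/18) * e8 + (25/54) * e9 + (-2/3) * e10 + (1/18) * e11 + (1/6) * e12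
  have b5 : b 5 = 0 := by
    linear_combination (4/9) * e1 + (-4/9) * e2 + (-4/27) * e3 + (4/3) * e4 + (4/27) * e5 + (2/27) * e7 + (5/36) * e8 + (-19/54) * e9 + (-1/12) * e10 + (-2/9) * e11 + (-2/3) * e12
  constructor
  · intro P
    rw [ha, a0, a1, a2, a3, a4, a5]; ring
  · intro P
    rw [hb, b0, b1, b2, b3, b4, b5]; ring

lemma low_vanish {u v : MvPolynomial (Fin 3) K} (h : Cond u v) {P : Fin 3 → K}
    (hP : P 2 = 1) : ∀ k < 3, (ray P u).coeff k = 0 ∧ (ray P v).coeff k = 0 := by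
  have h0 := quad_vanish h
  have h1 := quad_vanish (h.smul (X 2))
  have h2 := quad_vanish (h.smul (X 2 ^ 2))
  have e1 : ∀ w : MvPolynomial (Fin 3) K, (ray P (X 2 * w)).coeff 2 = (ray P w).coeff 1 := by
    intro w
    rw [map_mul, ray_X, hP, map_one, one_mul, mul_comm]
    exact Polynomial.coeff_mul_X _ 1
  have e2 : ∀ w : MvPolynomial (Fin 3) K, (ray P (X 2 ^ 2 * w)).coeff 2 = (ray P w).coeff 0 := by
    intro w
    rw [map_mul, map_pow, ray_X, hP, map_one, one_mul, mul_comm]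
    exact Polynomial.coeff_mul_X_pow _ 2 0
  intro k hk
  interval_cases k
  · exact ⟨by rw [← e2]; exact h2.1 P, by rw [← e2]; exact h2.2 P⟩
  · exact ⟨by rw [← e1]; exact h1.1 P, by rw [← e1]; exact h1.2 P⟩
  · exact ⟨h0.1 P, h0.2 P⟩

omit [CharZero K] in
lemma coeff_three_mul {P : Fin 3 → K} {w : MvPolynomial (Fin 3) K}
    (h : ∀ k < 3, (ray P w).coeff k = 0) (s : MvPolynomial (Fin 3) K) :
    (ray P (s * w)).coeff 3 = constantCoeff s * (ray P w).coeff 3 := by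
  rw [map_mul, Polynomial.coeff_mul, Finset.Nat.sum_antidiagonal_eq_sum_range_succ_mk,
    Finset.sum_range_succ', Finset.sum_eq_zero, zero_add, ray_coeff_zero]
  intro k hk
  rw [Finset.mem_range] at hk
  rw [h (3 - (k + 1)) (by omega), mul_zero]

/-- the parametrisation of the logarithmic fields -/
noncomputable def Phi : (Fin 3 → MvPolynomial (Fin 3) K) →ₗ[MvPolynomial (Fin 3) K]
    (Fin 3 → MvPolynomial (Fin 3) K) where
  toFun w := ![w 0 * X 0 + X 0 * (X 0 + 2 * X 2) * w 1, w 0 * X 1 + X 1 * (X 1 - X 2) * w 2,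
    w 0 * X 2]
  map_add' w w' := by
    funext i
    fin_cases i <;> simp <;> ring
  map_smul' s w := by
    funext i
    fin_cases i <;> simp <;> ring

omit [CharZero K] in
lemma not_dvd_of_eval {a b : MvPolynomial (Fin 3) K} (P : Fin 3 → K) (ha : eval P a = 0)
    (hb : eval P b ≠ 0) : ¬ a ∣ b := by
  rintro ⟨c, rfl⟩
  rw [map_mul, ha, zero_mul] at hb
  exact hb rfl

omit [CharZero K] in
lemma ne_zero_of_eval {a : MvPolynomial (Fin 3) K} (P : Fin 3 → K) (ha : eval P a ≠ 0) :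
    a ≠ 0 := by
  rintro rfl
  simp at ha

lemma Phi_injective : Function.Injective (Phi (K := K)) := by
  rw [← LinearMap.ker_eq_bot, LinearMap.ker_eq_bot']
  intro w hw
  have h2 : w 0 * X 2 = 0 := congrFun hw 2
  have w0 : w 0 = 0 := (mul_eq_zero.1 h2).resolve_right (X_ne_zero _)
  have h0 : w 0 * X 0 + X 0 * (X 0 + 2 * X 2) * w 1 = 0 := congrFun hw 0
  have h1 : w 0 * X 1 + X 1 * (X 1 - X 2) * w 2 = 0 := congrFun hw 1
  rw [w0, zero_mul, zero_add] at h0 h1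
  have n1 : (X 0 * (X 0 + 2 * X 2) : MvPolynomial (Fin 3) K) ≠ 0 :=
    ne_zero_of_eval ![1, 0, 0] (by simp)
  have n2 : (X 1 * (X 1 - X 2) : MvPolynomial (Fin 3) K) ≠ 0 :=
    ne_zero_of_eval ![0, 1, 0] (by simp)
  have w1 : w 1 = 0 := (mul_eq_zero.1 h0).resolve_left n1
  have w2 : w 2 = 0 := (mul_eq_zero.1 h1).resolve_left n2
  funext i
  fin_cases i
  · exact w0
  · exact w1
  · exact w2

lemma exists_rep {θ : Fin 3 → MvPolynomial (Fin 3) K} (hθ : θ ∈ Dv (toK K MB)) :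
    ∃ w, Phi w = θ ∧ Cond (w 1) (w 2) := by
  rw [mem_Dv_toK] at hθ
  have g0 : (X 0 : MvPolynomial (Fin 3) K) ∣ θ 0 := by simpa [MB] using hθ 0
  have g1 : (X 1 : MvPolynomial (Fin 3) K) ∣ θ 1 := by simpa [MB] using hθ 1
  have g2 : (X 2 : MvPolynomial (Fin 3) K) ∣ θ 2 := by simpa [MB] using hθ 2
  have g3 : (X 0 + X 1 + X 2 : MvPolynomial (Fin 3) K) ∣ θ 0 + θ 1 + θ 2 := by
    simpa [MB] using hθ 3
  have g4 : (X 1 + -X 2 : MvPolynomial (Fin 3) K) ∣ θ 1 + -θ 2 := by simpa [MB] using hθ 4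
  have g5 : (-X 0 + X 1 + -X 2 : MvPolynomial (Fin 3) K) ∣ -θ 0 + θ 1 + -θ 2 := by
    simpa [MB] using hθ 5
  have g6 : (X 0 + 2 * X 2 : MvPolynomial (Fin 3) K) ∣ θ 0 + 2 * θ 2 := by
    simpa [MB] using hθ 6
  have g7 : (-X 0 + X 1 + -(2 * X 2) : MvPolynomial (Fin 3) K) ∣ -θ 0 + θ 1 + -(2 * θ 2) := by
    simpa [MB] using hθ 7
  have g8 : (X 0 + -(2 * X 1) + 4 * X 2 : MvPolynomial (Fin 3) K) ∣
      θ 0 + -(2 * θ 1) + 4 * θ 2 := by simpa [MB] using hθ 8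
  obtain ⟨p, hp⟩ := g2
  have hX0 : Prime (X 0 : MvPolynomial (Fin 3) K) := X_prime
  have hX1 : Prime (X 1 : MvPolynomial (Fin 3) K) := X_prime
  have r1 : (X 0 * (X 0 + 2 * X 2) : MvPolynomial (Fin 3) K) ∣ θ 0 - p * X 0 := by
    apply IsRelPrime.mul_dvd
    · rw [hX0.irreducible.isRelPrime_iff_not_dvd]
      exact not_dvd_of_eval ![0, 0, 1] (by simp) (by simp)
    · exact dvd_sub g0 (dvd_mul_left _ _)
    · have : θ 0 - p * X 0 = (θ 0 + 2 * θ 2) - (X 0 + 2 * X 2) * p := by rw [hp]; ring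
      rw [this]
      exact dvd_sub g6 (dvd_mul_right _ _)
  have r2 : (X 1 * (X 1 - X 2) : MvPolynomial (Fin 3) K) ∣ θ 1 - p * X 1 := by
    apply IsRelPrime.mul_dvd
    · rw [hX1.irreducible.isRelPrime_iff_not_dvd]
      exact not_dvd_of_eval ![0, 0, 1] (by simp) (by simp)
    · exact dvd_sub g1 (dvd_mul_left _ _)
    · have : θ 1 - p * X 1 = (θ 1 + -θ 2) - (X 1 - X 2) * p := by rw [hp]; ring
      rw [this, sub_eq_add_neg (X 1)]
      exact dvd_sub g4 (dvd_mul_right _ _)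
  obtain ⟨u, hu⟩ := r1
  obtain ⟨v, hv⟩ := r2
  refine ⟨![p, u, v], ?_, ?_, ?_, ?_, ?_⟩
  · funext i
    fin_cases i
    · simp [Phi]; linear_combination -hu
    · simp [Phi]; linear_combination -hv
    · simp [Phi]; linear_combination -hp
  · show _ ∣ X 0 * (X 0 + 2 * X 2) * u + X 1 * (X 1 - X 2) * v
    have : X 0 * (X 0 + 2 * X 2) * u + X 1 * (X 1 - X 2) * v =
        (θ 0 + θ 1 + θ 2) - (X 0 + X 1 + X 2) * p := by rw [← hu, ← hv, hp]; ring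
    rw [this]
    exact dvd_sub g3 (dvd_mul_right _ _)
  · show _ ∣ -(X 0 * (X 0 + 2 * X 2)) * u + X 1 * (X 1 - X 2) * v
    have : -(X 0 * (X 0 + 2 * X 2)) * u + X 1 * (X 1 - X 2) * v =
        (-θ 0 + θ 1 + -θ 2) - (-X 0 + X 1 + -X 2) * p := by
      rw [neg_mul, ← hu, ← hv, hp]; ring
    rw [this, sub_eq_add_neg]
    exact dvd_sub g5 (dvd_mul_right _ _)
  · show _ ∣ -(X 0 * (X 0 + 2 * X 2)) * u + X 1 * (X 1 - X 2) * v
    have : -(X 0 * (X 0 + 2 * X 2)) * u + X 1 * (X 1 - X 2) * v =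
        (-θ 0 + θ 1 + -(2 * θ 2)) - (-X 0 + X 1 + -(2 * X 2)) * p := by
      rw [neg_mul, ← hu, ← hv, hp]; ring
    rw [this, sub_eq_add_neg]
    exact dvd_sub g7 (dvd_mul_right _ _)
  · show _ ∣ X 0 * (X 0 + 2 * X 2) * u + (-2 * (X 1 * (X 1 - X 2))) * v
    have : X 0 * (X 0 + 2 * X 2) * u + (-2 * (X 1 * (X 1 - X 2))) * v =
        (θ 0 + -(2 * θ 1) + 4 * θ 2) - (X 0 + -(2 * X 1) + 4 * X 2) * p := by
      rw [mul_assoc (-2), ← hu, ← hv, hp]; ring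
    rw [this, sub_eq_add_neg (X 0)]
    exact dvd_sub g8 (dvd_mul_right _ _)

omit [CharZero K] in
lemma Phi_mem {w : Fin 3 → MvPolynomial (Fin 3) K} (h : Cond (w 1) (w 2)) :
    Phi w ∈ Dv (toK K MB) := by
  obtain ⟨h3, h5, h7, h8⟩ := h
  rw [mem_Dv_toK]
  have f0 : Phi w 0 = w 0 * X 0 + X 0 * (X 0 + 2 * X 2) * w 1 := rfl
  have f1 : Phi w 1 = w 0 * X 1 + X 1 * (X 1 - X 2) * w 2 := rfl
  have f2 : Phi w 2 = w 0 * X 2 := rfl
  intro i
  rw [f0, f1, f2]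
  fin_cases i
  · simp [MB]
    exact ⟨w 0 + (X 0 + 2 * X 2) * w 1, by ring⟩
  · simp [MB]
    exact ⟨w 0 + (X 1 - X 2) * w 2, by ring⟩
  · simp [MB]
  · obtain ⟨q, hq⟩ := h3
    simp [MB]
    exact ⟨w 0 + q, by linear_combination hq⟩
  · simp [MB]
    exact ⟨w 0 + X 1 * w 2, by ring⟩
  · obtain ⟨q, hq⟩ := h5
    simp [MB]
    exact ⟨w 0 + q, by linear_combination hq⟩
  · simp [MB]
    exact ⟨w 0 + X 0 * w 1, by ring⟩
  · obtain ⟨q, hq⟩ := h7
    simp [MB]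
    exact ⟨w 0 + q, by linear_combination hq⟩
  · obtain ⟨q, hq⟩ := h8
    simp [MB]
    exact ⟨w 0 + q, by linear_combination hq⟩

/-- five functionals -/
noncomputable def lam : Fin 5 → (Fin 3 → MvPolynomial (Fin 3) K) → K :=
  ![fun w => constantCoeff (w 0), fun w => (ray ![1, 2, 1] (w 1)).coeff 3,
    fun w => (ray ![-3, 0, 1] (w 1)).coeff 3, fun w => (ray ![2, -3, 1] (w 2)).coeff 3,
    fun w => (ray ![-1, 0, 1] (w 2)).coeff 3]

/-- five elements -/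
noncomputable def bas : Fin 5 → Fin 3 → MvPolynomial (Fin 3) K :=
  ![![1, 0, 0], ![0, u0 (X 0) (X 1) (X 2), v0 (X 0) (X 1) (X 2)],
    ![0, u1 (X 0) (X 1) (X 2), v1 (X 0) (X 1) (X 2)],
    ![0, u2 (X 0) (X 1) (X 2), v2 (X 0) (X 1) (X 2)],
    ![0, u3 (X 0) (X 1) (X 2), v3 (X 0) (X 1) (X 2)]]

/-- the values of the functionals -/
def diagv : Fin 5 → K := ![1, 8, 4, 84, 12]

omit [CharZero K] in
lemma cub_key (a b c : K) (w : ∀ {R : Type} [CommRing R], R → R → R → R)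
    (hw : w (Polynomial.C a * Polynomial.X) (Polynomial.C b * Polynomial.X)
      (Polynomial.C c * Polynomial.X) = Polynomial.C (w a b c) * Polynomial.X ^ 3)
    (hr : ray ![a, b, c] (w (X 0) (X 1) (X 2)) = w (Polynomial.C a * Polynomial.X)
      (Polynomial.C b * Polynomial.X) (Polynomial.C c * Polynomial.X)) :
    (ray ![a, b, c] (w (X 0) (X 1) (X 2))).coeff 3 = w a b c := by
  rw [hr, hw, Polynomial.coeff_C_mul_X_pow, if_pos rfl]

omit [CharZero K] in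
lemma U0 (a b c : K) :
    (ray ![a, b, c] (u0 (X 0) (X 1) (X 2))).coeff 3 = u0 a b c :=
  cub_key a b c (fun {_} _ => u0) (by
    simp only [u0, map_add, map_sub, map_mul, map_pow, map_ofNat, map_neg]; ring) (by
    simp only [u0, map_add, map_sub, map_mul, map_pow, map_ofNat, map_neg, ray_X]; rfl)

omit [CharZero K] in
lemma V0 (a b c : K) :
    (ray ![a, b, c] (v0 (X 0) (X 1) (X 2))).coeff 3 = v0 a b c :=
  cub_key a b c (fun {_} _ => v0) (by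
    simp only [v0, map_add, map_sub, map_mul, map_pow, map_ofNat, map_neg]; ring) (by
    simp only [v0, map_add, map_sub, map_mul, map_pow, map_ofNat, map_neg, ray_X]; rfl)

omit [CharZero K] in
lemma U1 (a b c : K) :
    (ray ![a, b, c] (u1 (X 0) (X 1) (X 2))).coeff 3 = u1 a b c :=
  cub_key a b c (fun {_} _ => u1) (by
    simp only [u1, map_add, map_sub, map_mul, map_pow, map_ofNat, map_neg]; ring) (by
    simp only [u1, map_add, map_sub, map_mul, map_pow, map_ofNat, map_neg, ray_X]; rfl)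

omit [CharZero K] in
lemma V1 (a b c : K) :
    (ray ![a, b, c] (v1 (X 0) (X 1) (X 2))).coeff 3 = v1 a b c :=
  cub_key a b c (fun {_} _ => v1) (by
    simp only [v1, map_add, map_sub, map_mul, map_pow, map_ofNat, map_neg]; ring) (by
    simp only [v1, map_add, map_sub, map_mul, map_pow, map_ofNat, map_neg, ray_X]; rfl)

omit [CharZero K] in
lemma U2 (a b c : K) :
    (ray ![a, b, c] (u2 (X 0) (X 1) (X 2))).coeff 3 = u2 a b c :=
  cub_key a b c (fun {_} _ => u2) (by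
    simp only [u2, map_add, map_sub, map_mul, map_pow, map_ofNat, map_neg]; ring) (by
    simp only [u2, map_add, map_sub, map_mul, map_pow, map_ofNat, map_neg, ray_X]; rfl)

omit [CharZero K] in
lemma V2 (a b c : K) :
    (ray ![a, b, c] (v2 (X 0) (X 1) (X 2))).coeff 3 = v2 a b c :=
  cub_key a b c (fun {_} _ => v2) (by
    simp only [v2, map_add, map_sub, map_mul, map_pow, map_ofNat, map_neg]; ring) (by
    simp only [v2, map_add, map_sub, map_mul, map_pow, map_ofNat, map_neg, ray_X]; rfl)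

omit [CharZero K] in
lemma U3 (a b c : K) :
    (ray ![a, b, c] (u3 (X 0) (X 1) (X 2))).coeff 3 = u3 a b c :=
  cub_key a b c (fun {_} _ => u3) (by
    simp only [u3, map_add, map_sub, map_mul, map_pow, map_ofNat, map_neg]; ring) (by
    simp only [u3, map_add, map_sub, map_mul, map_pow, map_ofNat, map_neg, ray_X]; rfl)

omit [CharZero K] in
lemma V3 (a b c : K) :
    (ray ![a, b, c] (v3 (X 0) (X 1) (X 2))).coeff 3 = v3 a b c :=
  cub_key a b c (fun {_} _ => v3) (by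
    simp only [v3, map_add, map_sub, map_mul, map_pow, map_ofNat, map_neg]; ring) (by
    simp only [v3, map_add, map_sub, map_mul, map_pow, map_ofNat, map_neg, ray_X]; rfl)

omit [CharZero K] in
lemma lam_bas (i k : Fin 5) : lam k (bas (K := K) i) = if i = k then diagv i else 0 := by
  fin_cases i <;> fin_cases k <;>
    simp [lam, bas, diagv, U0, U1, U2, U3, V0, V1, V2, V3] <;>
    simp [u0, u1, u2, u3, v0, v1, v2, v3] <;> norm_num

omit [CharZero K] in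
lemma cond_of {u v : MvPolynomial (Fin 3) K}
    (h3 : (X 0 + X 1 + X 2 : MvPolynomial (Fin 3) K) ∣
      X 0 * (X 0 + 2 * X 2) * u + X 1 * (X 1 - X 2) * v)
    (h5 : (-X 0 + X 1 - X 2 : MvPolynomial (Fin 3) K) ∣
      -(X 0 * (X 0 + 2 * X 2) * u) + X 1 * (X 1 - X 2) * v)
    (h7 : (-X 0 + X 1 - 2 * X 2 : MvPolynomial (Fin 3) K) ∣
      -(X 0 * (X 0 + 2 * X 2) * u) + X 1 * (X 1 - X 2) * v)
    (h8 : (X 0 - 2 * X 1 + 4 * X 2 : MvPolynomial (Fin 3) K) ∣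
      X 0 * (X 0 + 2 * X 2) * u - 2 * (X 1 * (X 1 - X 2) * v)) : Cond u v := by
  obtain ⟨q5, h5⟩ := h5
  obtain ⟨q7, h7⟩ := h7
  obtain ⟨q8, h8⟩ := h8
  exact ⟨h3, ⟨q5, by linear_combination h5⟩, ⟨q7, by linear_combination h7⟩,
    ⟨q8, by linear_combination h8⟩⟩

omit [CharZero K] in
lemma bas_cond (i : Fin 5) : Cond (bas (K := K) i 1) (bas (K := K) i 2) := by
  fin_cases i
  · simp [bas, Cond]
  · exact cond_of (d0_3 _ _ _) (d0_5 _ _ _) (d0_7 _ _ _) (d0_8 _ _ _)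
  · exact cond_of (d1_3 _ _ _) (d1_5 _ _ _) (d1_7 _ _ _) (d1_8 _ _ _)
  · exact cond_of (d2_3 _ _ _) (d2_5 _ _ _) (d2_7 _ _ _) (d2_8 _ _ _)
  · exact cond_of (d3_3 _ _ _) (d3_5 _ _ _) (d3_7 _ _ _) (d3_8 _ _ _)

lemma lam_sum (k : Fin 5) {m : ℕ} (w : Fin m → Fin 3 → MvPolynomial (Fin 3) K)
    (hw : ∀ j, Cond (w j 1) (w j 2)) (s : Fin m → MvPolynomial (Fin 3) K) :
    lam k (∑ j, s j • w j) = ∑ j, constantCoeff (s j) * lam k (w j) := by
  have hz : ∀ (P : Fin 3 → K), P 2 = 1 → ∀ i : Fin 3, (i = 1 ∨ i = 2) →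
      (ray P ((∑ j, s j • w j) i)).coeff 3 =
        ∑ j, constantCoeff (s j) * (ray P (w j i)).coeff 3 := by
    intro P hP i hi
    rw [Finset.sum_apply, map_sum, Polynomial.finsetSum_coeff]
    refine Finset.sum_congr rfl fun j _ => ?_
    rw [Pi.smul_apply, smul_eq_mul]
    apply coeff_three_mul
    intro k hk
    have := low_vanish (hw j) hP k hk
    rcases hi with rfl | rfl
    · exact this.1
    · exact this.2
  fin_cases k
  · show constantCoeff ((∑ j, s j • w j) 0) = ∑ j, constantCoeff (s j) * constantCoeff (w j 0)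
    rw [Finset.sum_apply, map_sum]
    exact Finset.sum_congr rfl fun j _ => by rw [Pi.smul_apply, smul_eq_mul, map_mul]
  · exact hz _ rfl 1 (Or.inl rfl)
  · exact hz _ rfl 1 (Or.inl rfl)
  · exact hz _ rfl 2 (Or.inr rfl)
  · exact hz _ rfl 2 (Or.inr rfl)

/-- the general member is not generated by four elements -/
theorem not_four (η : Fin 4 → Fin 3 → MvPolynomial (Fin 3) K) :
    Submodule.span (MvPolynomial (Fin 3) K) (Set.range η) ≠ Dv (toK K MB) := by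
  intro hspan
  have hη : ∀ j, η j ∈ Dv (toK K MB) := fun j => by
    rw [← hspan]; exact Submodule.subset_span ⟨j, rfl⟩
  choose w hw hc using fun j => exists_rep (hη j)
  have hb : ∀ i : Fin 5, ∃ s : Fin 4 → MvPolynomial (Fin 3) K, bas i = ∑ j, s j • w j := by
    intro i
    have h1 : Phi (bas i) ∈ Dv (toK K MB) := Phi_mem (bas_cond i)
    rw [← hspan, Submodule.mem_span_range_iff_exists_fun] at h1
    obtain ⟨s, hs⟩ := h1
    refine ⟨s, Phi_injective ?_⟩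
    rw [← hs, map_sum]
    exact Finset.sum_congr rfl fun j _ => by rw [map_smul, hw]
  choose s hs using hb
  let A : Matrix (Fin 5) (Fin 4) K := Matrix.of fun i j => constantCoeff (s i j)
  let B : Matrix (Fin 4) (Fin 5) K := Matrix.of fun j k => lam k (w j)
  have hAB : A * B = Matrix.diagonal diagv := by
    ext i k
    rw [Matrix.mul_apply, Matrix.diagonal_apply]
    have h1 := lam_sum k w hc (s i)
    rw [← hs i, lam_bas] at h1
    exact h1.symm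
  have hdet : (Matrix.diagonal (diagv (K := K))).det ≠ 0 := by
    rw [Matrix.det_diagonal, Fin.prod_univ_five]
    simp [diagv]
  have hr1 : (A * B).rank = 5 := by
    rw [hAB, Matrix.rank_of_isUnit _ ((Matrix.isUnit_iff_isUnit_det _).2 (isUnit_iff_ne_zero.2 hdet))]
    simp
  have hr2 : (A * B).rank ≤ 4 := by
    refine le_trans (Matrix.rank_mul_le_left A B) ?_
    exact le_trans (Matrix.rank_le_width A) (by simp)
  omega

end

end Pool.Agent.Q82.Pog
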