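import Mathlib
import Pool.Agent.Q82.Recog
import Pool.Agent.Q82.PogB

set_option autoImplicit false

/-! Logarithmic fields of two combinatorially equivalent line arrangements: the special member. -/

namespace Pool.Agent.Q82.Pog

open MvPolynomial

variable (K : Type) [Field K]

/-- first quadratic factor -/
noncomputable def u4 : MvPolynomial (Fin 3) K :=
  8 * X 0 ^ 2 + 8 * (X 0 * X 1) + 4 * (X 0 * X 2) + 3 * X 1 ^ 2 + 8 * (X 1 * X 2) - 4 * X 2 ^ 2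

/-- second quadratic factor -/
noncomputable def v4 : MvPolynomial (Fin 3) K :=
  -6 * X 0 ^ 2 - 4 * (X 0 * X 1) + 8 * (X 0 * X 2) - X 1 ^ 2 + X 1 * X 2 + 2 * X 2 ^ 2

/-- product of two of the lines -/
noncomputable def pp : MvPolynomial (Fin 3) K := (2 * X 0 + X 1 + 2 * X 2) * (2 * X 0 + X 1 - 2 * X 2)

/-- product of four of the lines -/
noncomputable def p4 : MvPolynomial (Fin 3) K :=
  (X 0 + X 1 + X 2) * (4 * X 0 + X 1 - 2 * X 2) * pp K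

/-- the generators -/
noncomputable def thA : Fin 4 → Fin 3 → MvPolynomial (Fin 3) K :=
  ![![X 0, X 1, X 2],
    ![X 0 * (X 0 - X 2) * u4 K, X 1 * (X 1 + 2 * X 2) * v4 K, 0],
    ![X 0 * (X 0 - X 2) * (X 1 * pp K), X 1 * (X 1 + 2 * X 2) * (X 0 * pp K), 0],
    ![X 0 * (X 0 - X 2) * p4 K, 0, 0]]

/-- the coefficients of the relation -/
noncomputable def gA : Fin 4 → MvPolynomial (Fin 3) K :=
  ![0, -(X 0 * pp K), v4 K, 2 * X 0 + X 1]

variable {K}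

lemma key_rel : X 0 * u4 K - X 1 * v4 K =
    (X 0 + X 1 + X 2) * (4 * X 0 + X 1 - 2 * X 2) * (2 * X 0 + X 1) := by
  unfold u4 v4; ring

lemma QQ_A : QQ (toK K MA) = X 0 * X 1 * X 2 * (X 0 - X 2) * (X 1 + 2 * X 2) *
    ((X 0 + X 1 + X 2) * (4 * X 0 + X 1 - 2 * X 2) * pp K) := by
  rw [QQ, pp]
  simp only [lf_toK, Fin.prod_univ_succ]
  simp [MA]
  ring

lemma rows0 {α : Type*} (θ : Fin 4 → α) :
    (fun r => θ ((0 : Fin 4).succAbove r)) = ![θ 1, θ 2, θ 3] := by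
  funext r; fin_cases r <;> rfl

lemma rows1 {α : Type*} (θ : Fin 4 → α) :
    (fun r => θ ((1 : Fin 4).succAbove r)) = ![θ 0, θ 2, θ 3] := by
  funext r; fin_cases r <;> rfl

lemma rows2 {α : Type*} (θ : Fin 4 → α) :
    (fun r => θ ((2 : Fin 4).succAbove r)) = ![θ 0, θ 1, θ 3] := by
  funext r; fin_cases r <;> rfl

lemma rows3 {α : Type*} (θ : Fin 4 → α) :
    (fun r => θ ((3 : Fin 4).succAbove r)) = ![θ 0, θ 1, θ 2] := by
  funext r; fin_cases r <;> rfl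

lemma cofA : IsCof (toK K MA) (thA K) (gA K) := by
  intro i
  rw [QQ_A]
  fin_cases i
  · have h := rows0 (thA K)
    show (-1) ^ (0 + 1) * (Matrix.of fun r => thA K ((0 : Fin 4).succAbove r)).det = _
    rw [h, Matrix.det_fin_three]
    simp [thA, gA]
  · have h := rows1 (thA K)
    show (-1) ^ (1 + 1) * (Matrix.of fun r => thA K ((1 : Fin 4).succAbove r)).det = _
    rw [h, Matrix.det_fin_three]
    simp [thA, gA, p4]
    ring
  · have h := rows2 (thA K)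
    show (-1) ^ (2 + 1) * (Matrix.of fun r => thA K ((2 : Fin 4).succAbove r)).det = _
    rw [h, Matrix.det_fin_three]
    simp [thA, gA, p4]
    ring
  · have h := rows3 (thA K)
    show (-1) ^ (3 + 1) * (Matrix.of fun r => thA K ((3 : Fin 4).succAbove r)).det = _
    rw [h, Matrix.det_fin_three]
    have h2 := key_rel (K := K)
    simp [thA, gA]
    linear_combination (X 2 * X 0 * (X 0 - X 2) * X 1 * (X 1 + 2 * X 2) * pp K) * h2

/-! ### homogeneity -/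

/-- a linear form -/
noncomputable def L3 (a b c : K) : MvPolynomial (Fin 3) K := C a * X 0 + C b * X 1 + C c * X 2

lemma hL3 (a b c : K) : (L3 a b c).IsHomogeneous 1 :=
  ((isHomogeneous_C_mul_X _ _).add (isHomogeneous_C_mul_X _ _)).add (isHomogeneous_C_mul_X _ _)

lemma hX (i : Fin 3) : (X i : MvPolynomial (Fin 3) K).IsHomogeneous 1 := isHomogeneous_X _ _

lemma h1 : (X 0 - X 2 : MvPolynomial (Fin 3) K).IsHomogeneous 1 := (hX 0).sub (hX 2)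

lemma h2 : (X 1 + 2 * X 2 : MvPolynomial (Fin 3) K).IsHomogeneous 1 := by
  have := hL3 (0 : K) 1 2
  simpa [L3, map_ofNat] using this

lemma h3 : (2 * X 0 + X 1 + 2 * X 2 : MvPolynomial (Fin 3) K).IsHomogeneous 1 := by
  have := hL3 (2 : K) 1 2
  simpa [L3, map_ofNat] using this

lemma h4 : (2 * X 0 + X 1 - 2 * X 2 : MvPolynomial (Fin 3) K).IsHomogeneous 1 := by
  have := hL3 (2 : K) 1 (-2)
  simpa [L3, sub_eq_add_neg, map_ofNat] using this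

lemma h5 : (X 0 + X 1 + X 2 : MvPolynomial (Fin 3) K).IsHomogeneous 1 := by
  have := hL3 (1 : K) 1 1
  simpa [L3, map_ofNat] using this

lemma h6 : (4 * X 0 + X 1 - 2 * X 2 : MvPolynomial (Fin 3) K).IsHomogeneous 1 := by
  have := hL3 (4 : K) 1 (-2)
  simpa [L3, sub_eq_add_neg, map_ofNat] using this

lemma h7 : (2 * X 0 + X 1 : MvPolynomial (Fin 3) K).IsHomogeneous 1 := by
  have := hL3 (2 : K) 1 0
  simpa [L3, map_ofNat] using this

lemma hpp : (pp K).IsHomogeneous 2 := h3.mul h4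

lemma hp4 : (p4 K).IsHomogeneous 4 := (h5.mul h6).mul hpp

lemma hu4 : (u4 K).IsHomogeneous 2 := by
  have e : u4 K = X 0 * (L3 8 8 4) + X 1 * (L3 0 3 8) + X 2 * (L3 0 0 (-4)) := by
    simp [u4, L3, map_ofNat]; ring
  rw [e]
  exact (((hX 0).mul (hL3 _ _ _)).add ((hX 1).mul (hL3 _ _ _))).add ((hX 2).mul (hL3 _ _ _))

lemma hv4 : (v4 K).IsHomogeneous 2 := by
  have e : v4 K = X 0 * (L3 (-6) (-4) 8) + X 1 * (L3 0 (-1) 1) + X 2 * (L3 0 0 2) := by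
    simp [v4, L3, map_ofNat]; ring
  rw [e]
  exact (((hX 0).mul (hL3 _ _ _)).add ((hX 1).mul (hL3 _ _ _))).add ((hX 2).mul (hL3 _ _ _))

lemma hom_thA (i : Fin 4) (j : Fin 3) : (thA K i j).IsHomogeneous (![1, 4, 5, 6] i) := by
  fin_cases i <;> fin_cases j
  · exact hX 0
  · exact hX 1
  · exact hX 2
  · exact ((hX 0).mul h1).mul hu4
  · exact ((hX 1).mul h2).mul hv4
  · exact isHomogeneous_zero _ _ _
  · exact ((hX 0).mul h1).mul ((hX 1).mul hpp)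
  · exact ((hX 1).mul h2).mul ((hX 0).mul hpp)
  · exact isHomogeneous_zero _ _ _
  · exact ((hX 0).mul h1).mul hp4
  · exact isHomogeneous_zero _ _ _
  · exact isHomogeneous_zero _ _ _

lemma hom_gA0 : (gA K 0).IsHomogeneous 6 := isHomogeneous_zero _ _ _
lemma hom_gA1 : (gA K 1).IsHomogeneous 3 := ((hX 0).mul hpp).neg
lemma hom_gA2 : (gA K 2).IsHomogeneous 2 := hv4
lemma hom_gA3 : (gA K 3).IsHomogeneous 1 := h7

lemma gA3_ne : gA K 3 ≠ 0 := ne_zero_of_eval ![0, 1, 0] (by simp [gA])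

lemma memA {f g h : MvPolynomial (Fin 3) K} (g0 : X 0 ∣ f) (g1 : X 1 ∣ g) (g2 : X 2 ∣ h)
    (g3 : X 0 + X 1 + X 2 ∣ f + g + h) (g4 : X 1 + 2 * X 2 ∣ g + 2 * h)
    (g5 : 2 * X 0 + X 1 + 2 * X 2 ∣ 2 * f + g + 2 * h) (g6 : X 0 - X 2 ∣ f - h)
    (g7 : 2 * X 0 + X 1 - 2 * X 2 ∣ 2 * f + g - 2 * h)
    (g8 : 4 * X 0 + X 1 - 2 * X 2 ∣ 4 * f + g - 2 * h) : ![f, g, h] ∈ Dv (toK K MA) := by
  rw [mem_Dv_toK]
  intro i
  fin_cases i
  · simpa [MA] using g0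
  · simpa [MA] using g1
  · simpa [MA] using g2
  · simpa [MA] using g3
  · simpa [MA] using g4
  · simpa [MA] using g5
  · simpa [MA, ← sub_eq_add_neg] using g6
  · simpa [MA, ← sub_eq_add_neg] using g7
  · simpa [MA, ← sub_eq_add_neg] using g8

lemma thA_mem (i : Fin 4) : thA K i ∈ Dv (toK K MA) := by
  fin_cases i
  · exact memA dvd_rfl dvd_rfl dvd_rfl dvd_rfl dvd_rfl dvd_rfl dvd_rfl dvd_rfl dvd_rfl
  · refine memA ⟨(X 0 - X 2) * u4 K, by ring⟩ ⟨(X 1 + 2 * X 2) * v4 K, by ring⟩ (dvd_zero _)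
      ⟨8 * X 0 ^ 3 - 12 * X 0 ^ 2 * X 2 - 3 * X 0 * X 1 ^ 2 + 4 * X 0 * X 2 ^ 2 - X 1 ^ 3 +
        4 * X 1 * X 2 ^ 2, by unfold u4 v4; ring⟩
      ⟨X 1 * v4 K, by ring⟩
      ⟨8 * X 0 ^ 3 + 4 * X 0 ^ 2 * X 1 - 12 * X 0 ^ 2 * X 2 - 2 * X 0 * X 1 ^ 2 -
        4 * X 0 * X 1 * X 2 + 4 * X 0 * X 2 ^ 2 - X 1 ^ 3 + X 1 ^ 2 * X 2 +
        2 * X 1 * X 2 ^ 2, by unfold u4 v4; ring⟩
      ⟨X 0 * u4 K, by ring⟩
      ⟨8 * X 0 ^ 3 + 4 * X 0 ^ 2 * X 1 + 4 * X 0 ^ 2 * X 2 - 2 * X 0 * X 1 ^ 2 -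
        4 * X 0 * X 1 * X 2 - 4 * X 0 * X 2 ^ 2 - X 1 ^ 3 - 3 * X 1 ^ 2 * X 2 -
        2 * X 1 * X 2 ^ 2, by unfold u4 v4; ring⟩
      ⟨8 * X 0 ^ 3 + 6 * X 0 ^ 2 * X 1 - 8 * X 0 * X 2 ^ 2 - X 1 ^ 3 - 3 * X 1 ^ 2 * X 2 -
        2 * X 1 * X 2 ^ 2, by unfold u4 v4; ring⟩
  · refine memA ⟨(X 0 - X 2) * (X 1 * pp K), by ring⟩ ⟨(X 1 + 2 * X 2) * (X 0 * pp K), by ring⟩
      (dvd_zero _) ⟨X 0 * X 1 * pp K, by ring⟩ ⟨X 1 * X 0 * pp K, by ring⟩
      ⟨X 0 * X 1 * (2 * X 0 + X 1 - 2 * X 2) * (2 * (X 0 - X 2) + (X 1 + 2 * X 2)), by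
        unfold pp; ring⟩
      ⟨X 0 * (X 1 * pp K), by ring⟩
      ⟨X 0 * X 1 * (2 * X 0 + X 1 + 2 * X 2) * (2 * (X 0 - X 2) + (X 1 + 2 * X 2)), by
        unfold pp; ring⟩
      ⟨X 0 * X 1 * pp K, by ring⟩
  · refine memA ⟨(X 0 - X 2) * p4 K, by ring⟩ (dvd_zero _) (dvd_zero _)
      ⟨X 0 * (X 0 - X 2) * ((4 * X 0 + X 1 - 2 * X 2) * pp K), by unfold p4; ring⟩
      (by simp)
      ⟨2 * (X 0 * (X 0 - X 2)) * ((X 0 + X 1 + X 2) * (4 * X 0 + X 1 - 2 * X 2) *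
        (2 * X 0 + X 1 - 2 * X 2)), by unfold p4 pp; ring⟩
      ⟨X 0 * p4 K, by ring⟩
      ⟨2 * (X 0 * (X 0 - X 2)) * ((X 0 + X 1 + X 2) * (4 * X 0 + X 1 - 2 * X 2) *
        (2 * X 0 + X 1 + 2 * X 2)), by unfold p4 pp; ring⟩
      ⟨4 * (X 0 * (X 0 - X 2)) * ((X 0 + X 1 + X 2) * pp K), by unfold p4; ring⟩

section
variable [CharZero K]

/-- substitution `y = -2x` -/
noncomputable def sub2 : MvPolynomial (Fin 3) K →ₐ[K] MvPolynomial (Fin 3) K :=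
  aeval ![X 0, -2 * X 0, X 2]

lemma sub2_const (h : MvPolynomial (Fin 3) K) : constantCoeff (sub2 h) = constantCoeff h := by
  induction h using MvPolynomial.induction_on with
  | C a => simp [sub2, map_ofNat]
  | add p q hp hq => rw [map_add, map_add, map_add, hp, hq]
  | mul_X p j hp =>
    rw [map_mul, map_mul, map_mul, hp]
    congr 1
    fin_cases j <;> simp [sub2, map_ofNat]

lemma dvd_of_dvd_C_mul {c : K} (hc : c ≠ 0) {a b : MvPolynomial (Fin 3) K} (h : a ∣ C c * b) :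
    a ∣ b := by
  obtain ⟨q, hq⟩ := h
  refine ⟨C c⁻¹ * q, ?_⟩
  calc b = C c⁻¹ * (C c * b) := by rw [← mul_assoc, ← C_mul, inv_mul_cancel₀ hc, C_1, one_mul]
    _ = _ := by rw [hq]; ring

lemma noCommonA : NoCommon (gA K) := by
  rintro ⟨h, hh, hmem⟩
  have m1 := hmem 1
  have m2 := hmem 2
  rw [Ideal.mem_span_pair] at m1 m2
  obtain ⟨a, b, hab⟩ := m1
  obtain ⟨c, d, hcd⟩ := m2
  have hα : sub2 (gA K (Fin.last 3)) = 0 := by
    show sub2 (2 * X 0 + X 1 : MvPolynomial (Fin 3) K) = 0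
    simp [sub2, map_ofNat]
  have e1 : sub2 a * sub2 h = 4 * (X 0 * X 2 ^ 2) := by
    have := congrArg sub2 hab
    rw [map_add, map_mul, map_mul, hα, mul_zero, add_zero] at this
    rw [this]
    show sub2 (-(X 0 * pp K)) = _
    simp [sub2, pp, map_ofNat]
    ring
  have e2 : sub2 c * sub2 h = -2 * (X 0 ^ 2 - 3 * (X 0 * X 2) - X 2 ^ 2) := by
    have := congrArg sub2 hcd
    rw [map_add, map_mul, map_mul, hα, mul_zero, add_zero] at this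
    rw [this]
    show sub2 (v4 K) = _
    simp [sub2, v4, map_ofNat]
    ring
  have e3 : sub2 h ∣ X 0 ^ 4 := by
    apply dvd_of_dvd_C_mul (c := (4 : K)) (by norm_num)
    refine ⟨-2 * (X 0 ^ 2 + 3 * (X 0 * X 2)) * sub2 c + (10 * X 0 + 3 * X 2) * sub2 a, ?_⟩
    rw [map_ofNat]
    linear_combination (2 * (X 0 ^ 2 + 3 * (X 0 * X 2))) * e2 - (10 * X 0 + 3 * X 2) * e1
  have e4 : sub2 h ∣ X 2 ^ 4 := by
    apply dvd_of_dvd_C_mul (c := (4 : K)) (by norm_num)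
    refine ⟨2 * X 2 ^ 2 * sub2 c + (X 0 - 3 * X 2) * sub2 a, ?_⟩
    rw [map_ofNat]
    linear_combination (-(2 * X 2 ^ 2)) * e2 - (X 0 - 3 * X 2) * e1
  have hX0 : Prime (X 0 : MvPolynomial (Fin 3) K) := X_prime
  have hrel : IsRelPrime (X 0 ^ 4 : MvPolynomial (Fin 3) K) (X 2 ^ 4) := by
    apply IsRelPrime.pow
    rw [hX0.irreducible.isRelPrime_iff_not_dvd]
    exact not_dvd_of_eval ![0, 0, 1] (by simp) (by simp)
  have hu : IsUnit (sub2 h) := hrel e3 e4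
  have h0 : constantCoeff (sub2 h) = 0 := by rw [sub2_const, pos_constantCoeff hh]
  rw [isUnit_iff_totalDegree_of_isReduced] at hu
  have := hu.1.ne_zero
  exact this h0

lemma posA (i : Fin 3) : Pos (gA K i.castSucc) := by
  fin_cases i
  · exact ⟨6, by norm_num, hom_gA0⟩
  · exact ⟨3, by norm_num, hom_gA1⟩
  · exact ⟨2, by norm_num, hom_gA2⟩

end

end Pool.Agent.Q82.Pog
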