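import Mathlib
import Pool.Agent.Q82.Der

set_option autoImplicit false

/-! Logarithmic fields of the arrangement `z (x² - z²) (y² - z²) ((x + y)² - z²) = 0`. -/

namespace Pool.Agent.Q82.Res7

open MvPolynomial

variable (K : Type) [Field K]

/-- the coefficient vectors of the seven lines -/
def MM : Fin 7 → Fin 3 → ℤ :=
  ![![0, 0, 1], ![1, 0, -1], ![1, 0, 1], ![0, 1, -1], ![0, 1, 1], ![1, 1, -1], ![1, 1, 1]]

/-- the arrangement -/
def AA : Fin 7 → Fin 3 → K := fun i j => (MM i j : K)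

/-- first quadric -/
noncomputable def qa : MvPolynomial (Fin 3) K := X 0 ^ 2 - X 2 ^ 2
/-- second quadric -/
noncomputable def qb : MvPolynomial (Fin 3) K := X 1 ^ 2 - X 2 ^ 2
/-- third quadric -/
noncomputable def qc : MvPolynomial (Fin 3) K := (X 0 + X 1) ^ 2 - X 2 ^ 2

/-- the standard generators -/
noncomputable def th : Fin 4 → Fin 3 → MvPolynomial (Fin 3) K :=
  ![![X 0, X 1, X 2],
    ![qa K * qb K, -(qa K * qb K), 0],
    ![qa K * qc K, 0, 0],
    ![0, qb K * qc K, 0]]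

/-- the standard relation -/
noncomputable def rho : Fin 4 → MvPolynomial (Fin 3) K := ![0, qc K, -qb K, qa K]

variable {K}

lemma lf_AA (i : Fin 7) : lf (AA K i) =
    ((MM i 0 : ℤ) : MvPolynomial (Fin 3) K) * X 0 + ((MM i 1 : ℤ) : MvPolynomial (Fin 3) K) * X 1 +
      ((MM i 2 : ℤ) : MvPolynomial (Fin 3) K) * X 2 := by
  rw [lf, Fin.sum_univ_three]
  simp [AA]

lemma mem_Dv_AA {θ : Fin 3 → MvPolynomial (Fin 3) K} :
    θ ∈ Dv (AA K) ↔ ∀ i, (((MM i 0 : ℤ) : MvPolynomial (Fin 3) K) * X 0 +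
      ((MM i 1 : ℤ) : MvPolynomial (Fin 3) K) * X 1 +
      ((MM i 2 : ℤ) : MvPolynomial (Fin 3) K) * X 2) ∣
      (((MM i 0 : ℤ) : MvPolynomial (Fin 3) K) * θ 0 +
      ((MM i 1 : ℤ) : MvPolynomial (Fin 3) K) * θ 1 +
      ((MM i 2 : ℤ) : MvPolynomial (Fin 3) K) * θ 2) := by
  rw [mem_Dv]
  refine forall_congr' fun i => ?_
  rw [lf_AA, Fin.sum_univ_three]
  simp [AA]

lemma not_dvd_of_eval {a b : MvPolynomial (Fin 3) K} (P : Fin 3 → K) (ha : eval P a = 0)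
    (hb : eval P b ≠ 0) : ¬ a ∣ b := by
  rintro ⟨c, rfl⟩
  rw [map_mul, ha, zero_mul] at hb
  exact hb rfl

lemma ne_zero_of_eval {a : MvPolynomial (Fin 3) K} (P : Fin 3 → K) (ha : eval P a ≠ 0) :
    a ≠ 0 := by
  rintro rfl
  exact ha (map_zero _)

lemma hX (i : Fin 3) : (X i : MvPolynomial (Fin 3) K).IsHomogeneous 1 := isHomogeneous_X _ _

lemma qa_eq : qa K = (X 0 - X 2) * (X 0 + X 2) := by unfold qa; ring
lemma qb_eq : qb K = (X 1 - X 2) * (X 1 + X 2) := by unfold qb; ring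
lemma qc_eq : qc K = (X 0 + X 1 - X 2) * (X 0 + X 1 + X 2) := by unfold qc; ring

lemma qa_hom : (qa K).IsHomogeneous 2 := (isHomogeneous_X_pow _ _).sub (isHomogeneous_X_pow _ _)
lemma qb_hom : (qb K).IsHomogeneous 2 := (isHomogeneous_X_pow _ _).sub (isHomogeneous_X_pow _ _)
lemma qc_hom : (qc K).IsHomogeneous 2 :=
  (((hX 0).add (hX 1)).pow 2).sub (isHomogeneous_X_pow _ _)

lemma qa_ne : qa K ≠ 0 := ne_zero_of_eval ![1, 0, 0] (by simp [qa])
lemma qb_ne : qb K ≠ 0 := ne_zero_of_eval ![0, 1, 0] (by simp [qb])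
lemma qc_ne : qc K ≠ 0 := ne_zero_of_eval ![1, 0, 0] (by simp [qc])

/-- a product of two linear forms divides a polynomial as soon as both do -/
lemma two_dvd {p q w : MvPolynomial (Fin 3) K} (hp : p.IsHomogeneous 1) (hp0 : p ≠ 0)
    (P : Fin 3 → K) (hP : eval P p = 0) (hQ : eval P q ≠ 0) (h1 : p ∣ w) (h2 : q ∣ w) :
    p * q ∣ w := by
  obtain ⟨u, rfl⟩ := h2
  have hpr := prime_of_hom_one hp hp0
  rcases hpr.dvd_or_dvd h1 with h | h
  · exact absurd h (not_dvd_of_eval P hP hQ)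
  · obtain ⟨t, rfl⟩ := h
    exact ⟨t, by ring⟩

section
variable [CharZero K]

/-- cancellation of `z` modulo `(qa, qb)` -/
lemma zcancel {p U W : MvPolynomial (Fin 3) K} (h : X 2 * p = qa K * U + qb K * W) :
    ∃ U' W', p = qa K * U' + qb K * W' := by
  set φ : MvPolynomial (Fin 3) K →ₐ[K] MvPolynomial (Fin 3) K :=
    aeval (Function.update (X : Fin 3 → _) 2 0) with hφ
  have hd : ∀ q, ∃ r, q = φ q + X 2 * r := by
    intro q
    obtain ⟨r, hr⟩ := X_sub_dvd (K := K) (l := 3) 2 0 q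
    refine ⟨r, ?_⟩
    rw [sub_zero] at hr
    linear_combination hr
  have hx0 : φ (X 0) = X 0 := by simp [hφ]
  have hx1 : φ (X 1) = X 1 := by simp [hφ]
  have hx2 : φ (X 2) = 0 := by simp [hφ]
  have h0 : X 0 ^ 2 * φ U + X 1 ^ 2 * φ W = 0 := by
    have := congrArg φ h
    rw [map_mul, hx2, zero_mul, map_add, map_mul, map_mul] at this
    unfold qa qb at this
    rw [map_sub, map_sub, map_pow, map_pow, map_pow, hx0, hx1, hx2] at this
    linear_combination -this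
  have hX1 : Prime (X 1 : MvPolynomial (Fin 3) K) := X_prime
  have hdiv : (X 1 : MvPolynomial (Fin 3) K) ^ 2 ∣ φ U := by
    have h1 : (X 1 : MvPolynomial (Fin 3) K) ^ 2 ∣ X 0 ^ 2 * φ U :=
      ⟨-φ W, by linear_combination h0⟩
    have hrel : IsRelPrime ((X 1 : MvPolynomial (Fin 3) K) ^ 2) (X 0 ^ 2) := by
      apply IsRelPrime.pow
      rw [hX1.irreducible.isRelPrime_iff_not_dvd]
      exact not_dvd_of_eval ![1, 0, 0] (by simp) (by simp)
    exact hrel.dvd_of_dvd_mul_left h1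
  obtain ⟨g, hg⟩ := hdiv
  have hW : φ W = -(X 0 ^ 2 * g) := by
    have h1 : (X 1 : MvPolynomial (Fin 3) K) ^ 2 ≠ 0 := pow_ne_zero _ hX1.ne_zero
    apply mul_left_cancel₀ h1
    linear_combination h0 - X 0 ^ 2 * hg
  obtain ⟨r, hr⟩ := hd U
  obtain ⟨s, hs⟩ := hd W
  refine ⟨X 2 * g + r, -(X 2 * g) + s, ?_⟩
  apply mul_left_cancel₀ (X_ne_zero (R := K) (2 : Fin 3))
  rw [h]
  conv_lhs => rw [hr, hs, hg, hW]
  unfold qa qb
  ring

lemma z4cancel {p U W : MvPolynomial (Fin 3) K} (h : X 2 ^ 4 * p = qa K * U + qb K * W) :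
    ∃ U' W', p = qa K * U' + qb K * W' := by
  obtain ⟨U1, W1, h1⟩ := zcancel (p := X 2 ^ 3 * p) (U := U) (W := W) (by rw [← h]; ring)
  obtain ⟨U2, W2, h2⟩ := zcancel (p := X 2 ^ 2 * p) (U := U1) (W := W1) (by rw [← h1]; ring)
  obtain ⟨U3, W3, h3⟩ := zcancel (p := X 2 * p) (U := U2) (W := W2) (by rw [← h2]; ring)
  exact zcancel h3

/-- `qc` is a nonzerodivisor modulo `(qa, qb)` -/
lemma ccancel {p U W : MvPolynomial (Fin 3) K} (h : qc K * p = qa K * U + qb K * W) :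
    ∃ U' W', p = qa K * U' + qb K * W' := by
  have h3 : (C (3 : K) : MvPolynomial (Fin 3) K) = 3 := map_ofNat C 3
  have hinv : (C (3 : K)⁻¹ : MvPolynomial (Fin 3) K) * 3 = 1 := by
    rw [← h3, ← C_mul, inv_mul_cancel₀ (by norm_num), C_1]
  apply z4cancel (U := C (3 : K)⁻¹ * ((2 * (X 0 * X 1) - X 2 ^ 2) * (U - p) -
      4 * (qb K + X 2 ^ 2) * p))
    (W := C (3 : K)⁻¹ * ((2 * (X 0 * X 1) - X 2 ^ 2) * (W - p) - 4 * X 2 ^ 2 * p))
  have key : 3 * (X 2 ^ 4 * p) = qa K * ((2 * (X 0 * X 1) - X 2 ^ 2) * (U - p) -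
      4 * (qb K + X 2 ^ 2) * p) + qb K * ((2 * (X 0 * X 1) - X 2 ^ 2) * (W - p) -
        4 * X 2 ^ 2 * p) := by
    have : (2 * (X 0 * X 1) - X 2 ^ 2) * (qc K * p) =
        (2 * (X 0 * X 1) - X 2 ^ 2) * (qa K * U + qb K * W) := by rw [h]
    unfold qa qb qc at *
    linear_combination this
  calc X 2 ^ 4 * p = C (3 : K)⁻¹ * 3 * (X 2 ^ 4 * p) := by rw [hinv, one_mul]
    _ = C (3 : K)⁻¹ * (3 * (X 2 ^ 4 * p)) := by ring
    _ = _ := by rw [key]; ring

lemma dvd_qb {u : MvPolynomial (Fin 3) K} (h : qb K ∣ qa K * u) : qb K ∣ u := by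
  have h1 : (X 1 - X 2 : MvPolynomial (Fin 3) K).IsHomogeneous 1 := (hX 1).sub (hX 2)
  have h2 : (X 1 + X 2 : MvPolynomial (Fin 3) K).IsHomogeneous 1 := (hX 1).add (hX 2)
  have n1 : (X 1 - X 2 : MvPolynomial (Fin 3) K) ≠ 0 := ne_zero_of_eval ![0, 1, 0] (by simp)
  have n2 : (X 1 + X 2 : MvPolynomial (Fin 3) K) ≠ 0 := ne_zero_of_eval ![0, 1, 0] (by simp)
  have e1 : (X 1 - X 2 : MvPolynomial (Fin 3) K) ∣ u := by
    have h3 : (X 1 - X 2 : MvPolynomial (Fin 3) K) ∣ qa K * u :=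
      dvd_trans ⟨X 1 + X 2, qb_eq⟩ h
    rcases (prime_of_hom_one h1 n1).dvd_or_dvd h3 with h4 | h4
    · exact absurd h4 (not_dvd_of_eval ![1, 0, 0] (by simp) (by simp [qa]))
    · exact h4
  have e2 : (X 1 + X 2 : MvPolynomial (Fin 3) K) ∣ u := by
    have h3 : (X 1 + X 2 : MvPolynomial (Fin 3) K) ∣ qa K * u :=
      dvd_trans ⟨X 1 - X 2, by rw [qb_eq]; ring⟩ h
    rcases (prime_of_hom_one h2 n2).dvd_or_dvd h3 with h4 | h4
    · exact absurd h4 (not_dvd_of_eval ![1, 0, 0] (by simp) (by simp [qa]))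
    · exact h4
  rw [qb_eq]
  exact two_dvd h1 n1 ![0, 1, 1] (by simp) (by simp) e1 e2

/-- the structure of the module of logarithmic fields -/
lemma exists_rep {v : Fin 3 → MvPolynomial (Fin 3) K} (hv : v ∈ Dv (AA K)) :
    ∃ f : Fin 4 → MvPolynomial (Fin 3) K, v = ∑ i, f i • th K i := by
  rw [mem_Dv_AA] at hv
  obtain ⟨f, hf⟩ : X 2 ∣ v 2 := by simpa [MM] using hv 0
  have m1 : (X 0 - X 2 : MvPolynomial (Fin 3) K) ∣ v 0 - v 2 := by
    simpa [MM, ← sub_eq_add_neg] using hv 1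
  have m2 : (X 0 + X 2 : MvPolynomial (Fin 3) K) ∣ v 0 + v 2 := by simpa [MM] using hv 2
  have m3 : (X 1 - X 2 : MvPolynomial (Fin 3) K) ∣ v 1 - v 2 := by
    simpa [MM, ← sub_eq_add_neg] using hv 3
  have m4 : (X 1 + X 2 : MvPolynomial (Fin 3) K) ∣ v 1 + v 2 := by simpa [MM] using hv 4
  have m5 : (X 0 + X 1 - X 2 : MvPolynomial (Fin 3) K) ∣ v 0 + v 1 - v 2 := by
    simpa [MM, ← sub_eq_add_neg] using hv 5
  have m6 : (X 0 + X 1 + X 2 : MvPolynomial (Fin 3) K) ∣ v 0 + v 1 + v 2 := by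
    simpa [MM] using hv 6
  have e1 : (X 0 - X 2 : MvPolynomial (Fin 3) K) ∣ v 0 - f * X 0 := by
    have := dvd_sub m1 (Dvd.intro_left f rfl : (X 0 - X 2 : MvPolynomial (Fin 3) K) ∣ _)
    convert this using 1
    rw [hf]; ring
  have e2 : (X 0 + X 2 : MvPolynomial (Fin 3) K) ∣ v 0 - f * X 0 := by
    have := dvd_sub m2 (Dvd.intro_left f rfl : (X 0 + X 2 : MvPolynomial (Fin 3) K) ∣ _)
    convert this using 1
    rw [hf]; ring
  have e3 : (X 1 - X 2 : MvPolynomial (Fin 3) K) ∣ v 1 - f * X 1 := by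
    have := dvd_sub m3 (Dvd.intro_left f rfl : (X 1 - X 2 : MvPolynomial (Fin 3) K) ∣ _)
    convert this using 1
    rw [hf]; ring
  have e4 : (X 1 + X 2 : MvPolynomial (Fin 3) K) ∣ v 1 - f * X 1 := by
    have := dvd_sub m4 (Dvd.intro_left f rfl : (X 1 + X 2 : MvPolynomial (Fin 3) K) ∣ _)
    convert this using 1
    rw [hf]; ring
  have e5 : (X 0 + X 1 - X 2 : MvPolynomial (Fin 3) K) ∣ (v 0 - f * X 0) + (v 1 - f * X 1) := by
    have := dvd_sub m5 (Dvd.intro_left f rfl : (X 0 + X 1 - X 2 : MvPolynomial (Fin 3) K) ∣ _)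
    convert this using 1
    rw [hf]; ring
  have e6 : (X 0 + X 1 + X 2 : MvPolynomial (Fin 3) K) ∣ (v 0 - f * X 0) + (v 1 - f * X 1) := by
    have := dvd_sub m6 (Dvd.intro_left f rfl : (X 0 + X 1 + X 2 : MvPolynomial (Fin 3) K) ∣ _)
    convert this using 1
    rw [hf]; ring
  obtain ⟨a', ha⟩ : qa K ∣ v 0 - f * X 0 := by
    rw [qa_eq]
    exact two_dvd ((hX 0).sub (hX 2)) (ne_zero_of_eval ![1, 0, 0] (by simp)) ![1, 0, 1] (by simp)
      (by simp) e1 e2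
  obtain ⟨b', hb⟩ : qb K ∣ v 1 - f * X 1 := by
    rw [qb_eq]
    exact two_dvd ((hX 1).sub (hX 2)) (ne_zero_of_eval ![0, 1, 0] (by simp)) ![0, 1, 1] (by simp)
      (by simp) e3 e4
  obtain ⟨c', hc⟩ : qc K ∣ (v 0 - f * X 0) + (v 1 - f * X 1) := by
    rw [qc_eq]
    exact two_dvd (((hX 0).add (hX 1)).sub (hX 2)) (ne_zero_of_eval ![1, 0, 0] (by simp))
      ![1, 0, 1] (by simp) (by simp) e5 e6
  have hrel : qc K * c' = qa K * a' + qb K * b' := by rw [← hc, ha, hb]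
  obtain ⟨s, t, hst⟩ := ccancel hrel
  have hdiv : qb K ∣ qa K * (a' - qc K * s) :=
    ⟨qc K * t - b', by rw [hst] at hrel; linear_combination -hrel⟩
  obtain ⟨r, hr⟩ := dvd_qb hdiv
  have hb' : b' = qc K * t - qa K * r := by
    apply mul_left_cancel₀ qb_ne
    rw [hst] at hrel
    linear_combination (-1 : MvPolynomial (Fin 3) K) * hrel - qa K * hr
  refine ⟨![f, r, s, t], ?_⟩
  funext j
  fin_cases j
  · simp [Fin.sum_univ_four, th]
    linear_combination ha + qa K * hr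
  · simp [Fin.sum_univ_four, th]
    rw [hb'] at hb
    linear_combination hb
  · simp [Fin.sum_univ_four, th]
    linear_combination hf

/-- the relations between the standard generators -/
lemma rel_std {u : Fin 4 → MvPolynomial (Fin 3) K} (h : ∑ i, u i • th K i = 0) :
    ∃ c, ∀ i, u i = c * rho K i := by
  have h0 := congrFun h 0
  have h1 := congrFun h 1
  have h2 := congrFun h 2
  simp [Fin.sum_univ_four, th] at h0 h1 h2
  rw [h2] at h0 h1
  have k1 : u 1 * qb K + u 2 * qc K = 0 := by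
    apply mul_left_cancel₀ qa_ne
    linear_combination h0
  have k2 : -(u 1 * qa K) + u 3 * qc K = 0 := by
    apply mul_left_cancel₀ qb_ne
    linear_combination h1
  -- `qc` divides `u 1`
  obtain ⟨c, hc⟩ : qc K ∣ u 1 := by
    have l1 : (X 0 + X 1 - X 2 : MvPolynomial (Fin 3) K).IsHomogeneous 1 :=
      ((hX 0).add (hX 1)).sub (hX 2)
    have l2 : (X 0 + X 1 + X 2 : MvPolynomial (Fin 3) K).IsHomogeneous 1 :=
      ((hX 0).add (hX 1)).add (hX 2)
    have n1 : (X 0 + X 1 - X 2 : MvPolynomial (Fin 3) K) ≠ 0 :=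
      ne_zero_of_eval ![1, 0, 0] (by simp)
    have n2 : (X 0 + X 1 + X 2 : MvPolynomial (Fin 3) K) ≠ 0 :=
      ne_zero_of_eval ![1, 0, 0] (by simp)
    have hd : qc K ∣ u 1 * qb K := ⟨-u 2, by linear_combination k1⟩
    rw [qc_eq] at hd ⊢
    apply two_dvd l1 n1 ![1, 0, 1] (by simp) (by simp)
    · rcases (prime_of_hom_one l1 n1).dvd_or_dvd (dvd_trans (Dvd.intro _ rfl) hd) with h4 | h4
      · exact h4
      · exact absurd h4 (not_dvd_of_eval ![1, 0, 1] (by simp) (by simp [qb]))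
    · rcases (prime_of_hom_one l2 n2).dvd_or_dvd (dvd_trans (Dvd.intro_left _ rfl) hd) with h4 | h4
      · exact h4
      · exact absurd h4 (not_dvd_of_eval ![1, 0, -1] (by simp) (by simp [qb]))
  refine ⟨c, fun i => ?_⟩
  fin_cases i
  · simpa [rho] using h2
  · simp [rho]; rw [hc]; ring
  · simp [rho]
    apply mul_left_cancel₀ qc_ne
    rw [hc] at k1
    linear_combination k1
  · simp [rho]
    apply mul_left_cancel₀ qc_ne
    rw [hc] at k2
    linear_combination k2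

end

end Pool.Agent.Q82.Res7
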