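import Mathlib
import Pool.Agent.Q82.Res7

set_option autoImplicit false

/-! The resolution of the arrangement `z (x² - z²) (y² - z²) ((x + y)² - z²) = 0`. -/

namespace Pool.Agent.Q82.Res7

open MvPolynomial

variable {K : Type} [Field K]

lemma mem_of {f g h : MvPolynomial (Fin 3) K} (g0 : X 2 ∣ h) (g1 : X 0 - X 2 ∣ f - h)
    (g2 : X 0 + X 2 ∣ f + h) (g3 : X 1 - X 2 ∣ g - h) (g4 : X 1 + X 2 ∣ g + h)
    (g5 : X 0 + X 1 - X 2 ∣ f + g - h) (g6 : X 0 + X 1 + X 2 ∣ f + g + h) :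
    ![f, g, h] ∈ Dv (AA K) := by
  rw [mem_Dv_AA]
  intro i
  fin_cases i
  · simpa [MM] using g0
  · simpa [MM, ← sub_eq_add_neg] using g1
  · simpa [MM] using g2
  · simpa [MM, ← sub_eq_add_neg] using g3
  · simpa [MM] using g4
  · simpa [MM, ← sub_eq_add_neg] using g5
  · simpa [MM] using g6

lemma th_mem (i : Fin 4) : th K i ∈ Dv (AA K) := by
  fin_cases i
  · exact mem_of dvd_rfl dvd_rfl dvd_rfl dvd_rfl dvd_rfl dvd_rfl dvd_rfl
  · refine mem_of (dvd_zero _) ⟨(X 0 + X 2) * qb K, by rw [qa_eq]; ring⟩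
      ⟨(X 0 - X 2) * qb K, by rw [qa_eq]; ring⟩ ⟨-(X 1 + X 2) * qa K, by rw [qb_eq]; ring⟩
      ⟨-(X 1 - X 2) * qa K, by rw [qb_eq]; ring⟩ ⟨0, by ring⟩ ⟨0, by ring⟩
  · refine mem_of (dvd_zero _) ⟨(X 0 + X 2) * qc K, by rw [qa_eq]; ring⟩
      ⟨(X 0 - X 2) * qc K, by rw [qa_eq]; ring⟩ ⟨0, by ring⟩ ⟨0, by ring⟩
      ⟨(X 0 + X 1 + X 2) * qa K, by rw [qc_eq]; ring⟩
      ⟨(X 0 + X 1 - X 2) * qa K, by rw [qc_eq]; ring⟩
  · refine mem_of (dvd_zero _) ⟨0, by ring⟩ ⟨0, by ring⟩ ⟨(X 1 + X 2) * qc K, by rw [qb_eq]; ring⟩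
      ⟨(X 1 - X 2) * qc K, by rw [qb_eq]; ring⟩
      ⟨(X 0 + X 1 + X 2) * qb K, by rw [qc_eq]; ring⟩
      ⟨(X 0 + X 1 - X 2) * qb K, by rw [qc_eq]; ring⟩

lemma rel_rho : ∑ i, rho K i • th K i = 0 := by
  funext j
  fin_cases j
  · simp [Fin.sum_univ_four, th, rho]; ring
  · simp [Fin.sum_univ_four, th, rho]; ring
  · simp [Fin.sum_univ_four, th, rho]

/-- the degrees of the generators -/
def ee : Fin 4 → ℕ := ![1, 4, 4, 4]

lemma th_hom (i : Fin 4) (j : Fin 3) : (th K i j).IsHomogeneous (ee i) := by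
  have h0 : ∀ n, (0 : MvPolynomial (Fin 3) K).IsHomogeneous n := fun n => isHomogeneous_zero _ _ _
  fin_cases i
  · fin_cases j
    · exact hX 0
    · exact hX 1
    · exact hX 2
  · fin_cases j
    · exact qa_hom.mul qb_hom
    · exact (qa_hom.mul qb_hom).neg
    · exact h0 _
  · fin_cases j
    · exact qa_hom.mul qc_hom
    · exact h0 _
    · exact h0 _
  · fin_cases j
    · exact h0 _
    · exact qb_hom.mul qc_hom
    · exact h0 _

lemma rho_const (i : Fin 4) : constantCoeff (rho K i) = 0 := by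
  fin_cases i <;> simp [rho, qa, qb, qc]

/-! ### the fields of the example -/

/-- the four fields of the example -/
noncomputable def th' (K : Type) [Field K] : Fin 4 → Fin 3 → MvPolynomial (Fin 3) K :=
  ![![X 0, X 1, X 2],
    ![qa K * qb K, -(qa K * qb K), 0],
    ![qa K * qc K, 0, 0],
    ![X 2 ^ 3 * X 0, qb K * qc K + X 2 ^ 3 * X 1, X 2 ^ 3 * X 2]]

/-- the four coefficients of the example -/
noncomputable def gg (K : Type) [Field K] : Fin 4 → MvPolynomial (Fin 3) K :=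
  ![-(X 2 ^ 3 * qa K), qc K, -qb K, qa K]

lemma th'_0 : th' K 0 = th K 0 := by
  funext j
  fin_cases j <;> simp [th', th]

lemma th'_1 : th' K 1 = th K 1 := by
  funext j
  fin_cases j <;> simp [th', th]

lemma th'_2 : th' K 2 = th K 2 := by
  funext j
  fin_cases j <;> simp [th', th]

lemma th'_3 : th' K 3 = th K 3 + (X 2 ^ 3 : MvPolynomial (Fin 3) K) • th K 0 := by
  funext j
  fin_cases j <;> simp [th', th]

lemma th'_mem (i : Fin 4) : th' K i ∈ Dv (AA K) := by
  fin_cases i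
  · show th' K 0 ∈ _
    rw [th'_0]; exact th_mem 0
  · show th' K 1 ∈ _
    rw [th'_1]; exact th_mem 1
  · show th' K 2 ∈ _
    rw [th'_2]; exact th_mem 2
  · show th' K 3 ∈ _
    rw [th'_3]
    exact add_mem (th_mem 3) (Submodule.smul_mem _ _ (th_mem 0))

lemma th'_hom (i : Fin 4) (j : Fin 3) : (th' K i j).IsHomogeneous (ee i) := by
  fin_cases i
  · show (th' K 0 j).IsHomogeneous (ee 0)
    rw [th'_0]; exact th_hom 0 j
  · show (th' K 1 j).IsHomogeneous (ee 1)
    rw [th'_1]; exact th_hom 1 j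
  · show (th' K 2 j).IsHomogeneous (ee 2)
    rw [th'_2]; exact th_hom 2 j
  · show (th' K 3 j).IsHomogeneous (ee 3)
    rw [th'_3, Pi.add_apply, Pi.smul_apply, smul_eq_mul]
    have h3 : (X 2 ^ 3 : MvPolynomial (Fin 3) K).IsHomogeneous 3 := isHomogeneous_X_pow _ _
    exact (th_hom 3 j).add (h3.mul (th_hom 0 j))

lemma QQ_AA : QQ (AA K) = X 2 * (qa K * qb K * qc K) := by
  rw [QQ, qa_eq, qb_eq, qc_eq]
  simp only [lf_AA, Fin.prod_univ_succ]
  simp [MM]
  ring

lemma rows0 {α : Type*} (θ : Fin 4 → α) :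
    (fun r => θ ((0 : Fin 4).succAbove r)) = ![θ 1, θ 2, θ 3] := by
  funext r; fin_cases r <;> rfl

lemma rows1 {α : Type*} (θ : Fin 4 → α) :
    (fun r => θ ((1 : Fin 4).succAbove r)) = ![θ 0, θ 2, θ 3] := by
  funext r; fin_cases r <;> rfl

lemma rows2 {α : Type*} (θ : Fin 4 → α) :
    (fun r => θ ((2 : Fin 4).succAbove r)) = ![θ 0, θ 1, θ 3] := by
  funext r; fin_cases r <;> rfl

lemma rows3 {α : Type*} (θ : Fin 4 → α) :
    (fun r => θ ((3 : Fin 4).succAbove r)) = ![θ 0, θ 1, θ 2] := by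
  funext r; fin_cases r <;> rfl

lemma cof : IsCof (AA K) (th' K) (gg K) := by
  intro i
  rw [QQ_AA]
  fin_cases i
  · have h := rows0 (th' K)
    show (-1) ^ (0 + 1) * (Matrix.of fun r => th' K ((0 : Fin 4).succAbove r)).det = _
    rw [h, Matrix.det_fin_three]
    simp [th', gg]
    ring
  · have h := rows1 (th' K)
    show (-1) ^ (1 + 1) * (Matrix.of fun r => th' K ((1 : Fin 4).succAbove r)).det = _
    rw [h, Matrix.det_fin_three]
    simp [th', gg]
    ring
  · have h := rows2 (th' K)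
    show (-1) ^ (2 + 1) * (Matrix.of fun r => th' K ((2 : Fin 4).succAbove r)).det = _
    rw [h, Matrix.det_fin_three]
    simp [th', gg]
    ring
  · have h := rows3 (th' K)
    show (-1) ^ (3 + 1) * (Matrix.of fun r => th' K ((3 : Fin 4).succAbove r)).det = _
    rw [h, Matrix.det_fin_three]
    simp [th', gg]
    ring

section
variable [CharZero K]

/-- substitution `x = z` -/
noncomputable def sb : MvPolynomial (Fin 3) K →ₐ[K] MvPolynomial (Fin 3) K :=
  aeval ![X 2, X 1, X 2]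

omit [CharZero K] in
lemma sb_const (h : MvPolynomial (Fin 3) K) : constantCoeff (sb h) = constantCoeff h := by
  induction h using MvPolynomial.induction_on with
  | C a => simp [sb]
  | add p q hp hq => rw [map_add, map_add, map_add, hp, hq]
  | mul_X p j hp =>
    rw [map_mul, map_mul, map_mul, hp]
    congr 1
    fin_cases j <;> simp [sb]

lemma noCommon_gg : ¬ ∃ h, Pos h ∧ ∀ i : Fin 3, gg K i.castSucc ∈
    Ideal.span {h, gg K (Fin.last 3)} := by
  rintro ⟨h, hh, hmem⟩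
  have m1 := hmem 1
  have m2 := hmem 2
  rw [Ideal.mem_span_pair] at m1 m2
  obtain ⟨a, b, hab⟩ := m1
  obtain ⟨c, d, hcd⟩ := m2
  have hα : sb (gg K (Fin.last 3)) = 0 := by
    show sb (qa K) = 0
    simp [sb, qa]
  have e1 : sb a * sb h = X 1 ^ 2 + 2 * (X 1 * X 2) := by
    have := congrArg sb hab
    rw [map_add, map_mul, map_mul, hα, mul_zero, add_zero] at this
    rw [this]
    show sb (qc K) = _
    simp [sb, qc]
    ring
  have e2 : sb c * sb h = -(X 1 ^ 2 - X 2 ^ 2) := by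
    have := congrArg sb hcd
    rw [map_add, map_mul, map_mul, hα, mul_zero, add_zero] at this
    rw [this]
    show sb (-qb K) = _
    simp [sb, qb]
  have e3 : sb h ∣ X 2 ^ 4 := by
    have h3 : (C (3 : K) : MvPolynomial (Fin 3) K) = 3 := map_ofNat C 3
    have h4 : (3 : MvPolynomial (Fin 3) K) * X 2 ^ 4 = sb h * ((sb a + sb c) *
        (2 * (X 1 * X 2) + X 2 ^ 2 - 2 * X 2 ^ 2) + 4 * X 2 ^ 2 * sb c) := by
      linear_combination (-(2 * (X 1 * X 2) - X 2 ^ 2)) * e1 -
        ((2 * (X 1 * X 2) - X 2 ^ 2) + 4 * X 2 ^ 2) * e2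
    refine ⟨C (3 : K)⁻¹ * ((sb a + sb c) *
        (2 * (X 1 * X 2) + X 2 ^ 2 - 2 * X 2 ^ 2) + 4 * X 2 ^ 2 * sb c), ?_⟩
    have hinv : (C (3 : K)⁻¹ : MvPolynomial (Fin 3) K) * 3 = 1 := by
      rw [← h3, ← C_mul, inv_mul_cancel₀ (by norm_num), C_1]
    calc (X 2 : MvPolynomial (Fin 3) K) ^ 4 = C (3 : K)⁻¹ * 3 * X 2 ^ 4 := by
          rw [hinv, one_mul]
      _ = C (3 : K)⁻¹ * (3 * X 2 ^ 4) := by ring
      _ = _ := by rw [h4]; ring
  have e4 : sb h ∣ X 1 ^ 2 - X 2 ^ 2 := ⟨-sb c, by linear_combination e2⟩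
  have hX2 : Prime (X 2 : MvPolynomial (Fin 3) K) := X_prime
  have hrel : IsRelPrime (X 2 ^ 4 : MvPolynomial (Fin 3) K) (X 1 ^ 2 - X 2 ^ 2) := by
    apply IsRelPrime.pow_left
    rw [hX2.irreducible.isRelPrime_iff_not_dvd]
    exact not_dvd_of_eval ![0, 1, 0] (by simp) (by simp)
  have hu : IsUnit (sb h) := hrel e3 e4
  have h0 : constantCoeff (sb h) = 0 := by rw [sb_const, pos_constantCoeff hh]
  rw [isUnit_iff_totalDegree_of_isReduced] at hu
  exact hu.1.ne_zero h0

/-! ### constant terms -/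

/-- constant terms of coefficients are determined -/
lemma const_eq {u v : Fin 4 → MvPolynomial (Fin 3) K}
    (h : ∑ i, u i • th K i = ∑ i, v i • th K i) (i : Fin 4) :
    constantCoeff (u i) = constantCoeff (v i) := by
  have h1 : ∑ i, (u i - v i) • th K i = 0 := by
    simp only [sub_smul, Finset.sum_sub_distrib, h, sub_self]
  obtain ⟨c, hc⟩ := rel_std h1
  have h2 := congrArg constantCoeff (hc i)
  rw [map_sub, map_mul, rho_const, mul_zero] at h2
  exact sub_eq_zero.1 h2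

/-- scaling by two -/
noncomputable def dbl : MvPolynomial (Fin 3) K →ₐ[K] MvPolynomial (Fin 3) K :=
  aeval fun i => C 2 * X i

omit [CharZero K] in
lemma dbl_const (h : MvPolynomial (Fin 3) K) : constantCoeff (dbl h) = constantCoeff h := by
  induction h using MvPolynomial.induction_on with
  | C a => simp [dbl]
  | add p q hp hq => rw [map_add, map_add, map_add, hp, hq]
  | mul_X p j hp =>
    rw [map_mul, map_mul, map_mul, hp]
    congr 1
    simp [dbl]

omit [CharZero K] in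
lemma dbl_hom {p : MvPolynomial (Fin 3) K} {n : ℕ} (hp : p.IsHomogeneous n) :
    dbl p = C (2 ^ n) * p := by
  rw [dbl, aeval_def, eval₂_eq']
  conv_rhs => rw [p.as_sum, Finset.mul_sum]
  apply Finset.sum_congr rfl
  intro d hd
  have h1 : ∑ i, d i = n := by
    have := hp (mem_support_iff.1 hd)
    rw [← this, Finsupp.weight_apply, Finsupp.sum_fintype _ _ (by simp)]
    simp
  simp only [mul_pow, Finset.prod_mul_distrib, Finset.prod_pow_eq_pow_sum, h1]
  rw [monomial_eq, Finsupp.prod_fintype _ _ (by simp), algebraMap_eq, ← C_pow]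
  ring

/-- the constant term of a coefficient of a homogeneous field vanishes, except for the generators
of the same degree -/
lemma const_zero {v : Fin 3 → MvPolynomial (Fin 3) K} {n : ℕ} (hv : ∀ j, (v j).IsHomogeneous n)
    {f : Fin 4 → MvPolynomial (Fin 3) K} (hf : v = ∑ i, f i • th K i) {i : Fin 4}
    (hi : n ≠ ee i) : constantCoeff (f i) = 0 := by
  have h1 : ∑ i, (C (2 ^ n) * f i) • th K i = ∑ i, (C (2 ^ ee i) * dbl (f i)) • th K i := by
    funext j
    have e1 : (∑ i, (C (2 ^ n) * f i) • th K i) j = C (2 ^ n) * v j := by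
      rw [hf, Finset.sum_apply, Finset.sum_apply, Finset.mul_sum]
      exact Finset.sum_congr rfl fun i _ => by simp [mul_assoc]
    have e2 : (∑ i, (C (2 ^ ee i) * dbl (f i)) • th K i) j = dbl (v j) := by
      rw [hf, Finset.sum_apply, Finset.sum_apply, map_sum]
      apply Finset.sum_congr rfl
      intro i _
      rw [Pi.smul_apply, Pi.smul_apply, smul_eq_mul, smul_eq_mul, map_mul, dbl_hom (th_hom i j)]
      ring
    rw [e1, e2, dbl_hom (hv j)]
  have h2 := const_eq h1 i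
  rw [map_mul, map_mul, dbl_const, constantCoeff_C, constantCoeff_C] at h2
  have h3 : ((2 : K) ^ n - 2 ^ ee i) * constantCoeff (f i) = 0 := by linear_combination h2
  rcases mul_eq_zero.1 h3 with h4 | h4
  · exfalso
    apply hi
    have h5 : (2 : K) ^ n = 2 ^ ee i := sub_eq_zero.1 h4
    have h6 : (2 : ℕ) ^ n = 2 ^ ee i := by exact_mod_cast h5
    exact Nat.pow_right_injective (le_refl 2) h6
  · exact h4

end

end Pool.Agent.Q82.Res7
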