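import Mathlib
import Pool.Agent.Q82.Res7b

set_option autoImplicit false

/-! No resolution of the given shape. -/

namespace Pool.Agent.Q82.Res7

open MvPolynomial

variable {K : Type} [Field K] [CharZero K]

/-- linear coefficients of a product -/
lemma lin_mul {p q : MvPolynomial (Fin 3) K} (hp : constantCoeff p = 0) (j : Fin 3) :
    constantCoeff (pderiv j (p * q)) = constantCoeff (pderiv j p) * constantCoeff q := by
  rw [Derivation.leibniz, smul_eq_mul, smul_eq_mul, map_add, map_mul, map_mul, hp]
  ring

lemma lin_rho (i : Fin 4) (j : Fin 3) : constantCoeff (pderiv j (rho K i)) = 0 := by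
  have h : ∀ a : Fin 3, constantCoeff (pderiv j (X a ^ 2 : MvPolynomial (Fin 3) K)) = 0 := by
    intro a
    rw [pow_two, lin_mul (by simp)]
    simp
  have ha : constantCoeff (pderiv j (qa K)) = 0 := by rw [qa, map_sub, map_sub, h, h, sub_zero]
  have hb : constantCoeff (pderiv j (qb K)) = 0 := by rw [qb, map_sub, map_sub, h, h, sub_zero]
  have hc : constantCoeff (pderiv j (qc K)) = 0 := by
    rw [qc, map_sub, map_sub, h, sub_zero, pow_two, lin_mul (by simp)]
    simp
  fin_cases i
  · simp [rho]
  · exact hc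
  · show constantCoeff (pderiv j (-qb K)) = 0
    rw [map_neg, map_neg, hb, neg_zero]
  · exact ha

lemma hom_one_zero {p : MvPolynomial (Fin 3) K} (hp : p.IsHomogeneous 1)
    (h : ∀ j, constantCoeff (pderiv j p) = 0) : p = 0 := by
  obtain ⟨a, rfl⟩ := exists_lf hp
  have ha : a = 0 := by
    funext j
    have := h j
    rw [lf, map_sum, map_sum] at this
    rw [Finset.sum_eq_single j] at this
    · simpa using this
    · intro b _ hb
      rw [pderiv_C_mul, pderiv_X_of_ne hb]
      simp
    · simp
  rw [ha]
  simp [lf]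

/-- the constant terms of a relation between the entries of `rho` vanish -/
lemma rho_reg {u : Fin 4 → MvPolynomial (Fin 3) K} (h : ∑ a, rho K a * u a = 0) {a : Fin 4}
    (ha : a ≠ 0) : constantCoeff (u a) = 0 := by
  simp [Fin.sum_univ_four, rho] at h
  obtain ⟨U, W, hUW⟩ := ccancel (K := K) (p := u 1) (U := -u 3) (W := u 2)
    (by linear_combination h)
  have qa0 : constantCoeff (qa K) = 0 := by simp [qa]
  have qb0 : constantCoeff (qb K) = 0 := by simp [qb]
  have qc0 : constantCoeff (qc K) = 0 := by simp [qc]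
  have h1 : constantCoeff (u 1) = 0 := by
    rw [hUW, map_add, map_mul, map_mul, qa0, qb0]; ring
  rw [hUW] at h
  obtain ⟨g, hg⟩ := dvd_qb (K := K) (u := qc K * U + u 3)
    ⟨u 2 - qc K * W, by linear_combination h⟩
  have h3 : constantCoeff (u 3) = 0 := by
    have : u 3 = qb K * g - qc K * U := by linear_combination hg
    rw [this, map_sub, map_mul, map_mul, qb0, qc0]; ring
  have h2 : constantCoeff (u 2) = 0 := by
    have : u 2 = qc K * W + qa K * g := by
      apply mul_left_cancel₀ (qb_ne (K := K))
      linear_combination (-1 : MvPolynomial (Fin 3) K) * h + qa K * hg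
    rw [this, map_add, map_mul, map_mul, qa0, qc0]; ring
  fin_cases a
  · exact absurd rfl ha
  · exact h1
  · exact h2
  · exact h3

theorem no_shape {k : ℕ} (d : Fin (3 + k) → ℕ) (v : Fin (3 + k) → Fin 3 → MvPolynomial (Fin 3) K)
    (R : Fin k → Fin (3 + k) → MvPolynomial (Fin 3) K)
    (hhom : ∀ i j, (v i j).IsHomogeneous (d i))
    (hmem : ∀ i, v i ∈ Dv (AA K))
    (hspan : ∀ w ∈ Dv (AA K), ∃ u : Fin (3 + k) → MvPolynomial (Fin 3) K, w = ∑ i, u i • v i)
    (hrel : ∀ u : Fin (3 + k) → MvPolynomial (Fin 3) K, ∑ i, u i • v i = 0 ↔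
      ∃ c : Fin k → MvPolynomial (Fin 3) K, ∀ i, u i = ∑ j, c j * R j i)
    (hinj : ∀ c : Fin k → MvPolynomial (Fin 3) K, (∀ i, ∑ j, c j * R j i = 0) → c = 0)
    (hmin : ∀ j i, constantCoeff (R j i) = 0)
    (hdeg : ∀ j i, R j i = 0 ∨ ∃ m, d i + m = d (Fin.natAdd 3 j) + 1 ∧
      (R j i).IsHomogeneous m) : False := by
  choose T hT using fun i => exists_rep (hmem i)
  choose U hU using fun a => hspan (th K a) (th_mem a)
  set t : Matrix (Fin (3 + k)) (Fin 4) K := Matrix.of fun i a => constantCoeff (T i a) with ht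
  set u : Matrix (Fin 4) (Fin (3 + k)) K := Matrix.of fun a i => constantCoeff (U a i) with hu
  -- `u t = 1`
  have hut : u * t = 1 := by
    ext a b
    have h1 : ∑ b, (∑ i, U a i * T i b) • th K b = ∑ b, (if a = b then 1 else 0 :
        MvPolynomial (Fin 3) K) • th K b := by
      have : ∑ b, (if a = b then 1 else 0 : MvPolynomial (Fin 3) K) • th K b = th K a := by
        simp [ite_smul]
      rw [this]
      conv_rhs => rw [hU a]
      simp only [Finset.sum_smul]
      rw [Finset.sum_comm]
      apply Finset.sum_congr rfl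
      intro i _
      conv_rhs => rw [hT i, Finset.smul_sum]
      exact Finset.sum_congr rfl fun b _ => by rw [smul_smul]
    have h2 := const_eq h1 b
    rw [map_sum] at h2
    rw [Matrix.mul_apply, Matrix.one_apply]
    simp only [ht, hu, Matrix.of_apply, map_mul] at h2 ⊢
    rw [h2]
    split_ifs <;> simp
  -- `t u = 1`
  have htu : t * u = 1 := by
    ext i j
    have h1 : ∑ j, ((∑ a, T i a * U a j) - (if i = j then 1 else 0 :
        MvPolynomial (Fin 3) K)) • v j = 0 := by
      simp only [sub_smul, Finset.sum_sub_distrib]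
      have : ∑ j, (if i = j then 1 else 0 : MvPolynomial (Fin 3) K) • v j = v i := by
        simp [ite_smul]
      rw [this, sub_eq_zero]
      conv_rhs => rw [hT i]
      simp only [Finset.sum_smul]
      rw [Finset.sum_comm]
      apply Finset.sum_congr rfl
      intro a _
      conv_rhs => rw [hU a, Finset.smul_sum]
      exact Finset.sum_congr rfl fun b _ => by rw [smul_smul]
    obtain ⟨c, hc⟩ := (hrel _).1 h1
    have h2 := congrArg constantCoeff (hc j)
    rw [map_sum, map_sub, map_sum] at h2
    have h3 : ∑ x, constantCoeff (c x * R x j) = 0 :=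
      Finset.sum_eq_zero fun x _ => by rw [map_mul, hmin, mul_zero]
    rw [h3, sub_eq_zero] at h2
    rw [Matrix.mul_apply, Matrix.one_apply]
    simp only [ht, hu, Matrix.of_apply, map_mul] at h2 ⊢
    rw [h2]
    split_ifs <;> simp
  have hcard := Matrix.square_of_invertible t u htu hut
  have hk : k = 1 := by
    simp only [Fintype.card_fin] at hcard
    omega
  subst hk
  -- the relation
  have hRrel : ∑ i, R 0 i • v i = 0 := by
    rw [hrel]
    exact ⟨fun _ => 1, fun i => by simp⟩
  obtain ⟨c, hc⟩ : ∃ c, ∀ a, ∑ i, R 0 i * T i a = c * rho K a := by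
    apply rel_std
    simp only [Finset.sum_smul]
    rw [Finset.sum_comm]
    rw [← hRrel]
    apply Finset.sum_congr rfl
    intro i _
    conv_rhs => rw [hT i, Finset.smul_sum]
    exact Finset.sum_congr rfl fun b _ => by rw [smul_smul]
  have hlin : ∀ j i, constantCoeff (pderiv j (R 0 i)) = 0 := by
    intro j
    have h1 : Matrix.vecMul (fun i => constantCoeff (pderiv j (R 0 i))) t = 0 := by
      funext a
      have h2 := congrArg (fun p => constantCoeff (pderiv j p)) (hc a)
      simp only [map_sum] at h2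
      have h3 : constantCoeff (pderiv j (c * rho K a)) = 0 := by
        rw [mul_comm, lin_mul (rho_const a), lin_rho, zero_mul]
      rw [h3] at h2
      show ∑ i, constantCoeff (pderiv j (R 0 i)) * t i a = 0
      rw [← h2]
      exact Finset.sum_congr rfl fun i _ => by rw [lin_mul (hmin 0 i)]; rfl
    have h2 := congrArg (fun w => Matrix.vecMul w u) h1
    simp only [Matrix.vecMul_vecMul, htu, Matrix.vecMul_one, Matrix.zero_vecMul] at h2
    exact fun i => congrFun h2 i
  have hR3 : R 0 3 = 0 := by
    rcases hdeg 0 3 with h | ⟨m, hm, hm'⟩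
    · exact h
    · have : Fin.natAdd 3 (0 : Fin 1) = (3 : Fin 4) := rfl
      rw [this] at hm
      have hm1 : m = 1 := by omega
      subst hm1
      exact hom_one_zero hm' fun j => hlin j 3
  -- the standard relation
  obtain ⟨c', hc'⟩ : ∃ c' : Fin 1 → MvPolynomial (Fin 3) K, ∀ i, ∑ a, rho K a * U a i =
      ∑ j, c' j * R j i := by
    apply (hrel _).1
    simp only [Finset.sum_smul]
    rw [Finset.sum_comm]
    rw [← rel_rho]
    apply Finset.sum_congr rfl
    intro i _
    conv_rhs => rw [hU i, Finset.smul_sum]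
    exact Finset.sum_congr rfl fun b _ => by rw [smul_smul]
  have hu3 : ∀ a, a ≠ 0 → u a 3 = 0 := by
    intro a ha
    have h1 := hc' 3
    simp only [Fin.sum_univ_one, hR3, mul_zero] at h1
    exact rho_reg h1 ha
  -- degrees
  have htd : ∀ i a, d i ≠ ee a → t i a = 0 := fun i a hia =>
    const_zero (hhom i) (hT i) hia
  set u' : Matrix (Fin 3) (Fin 3) K := Matrix.of fun a i => u a.succ i.castSucc with hu'
  set t' : Matrix (Fin 3) (Fin 3) K := Matrix.of fun i a => t i.castSucc a.succ with ht'
  have hut' : u' * t' = 1 := by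
    ext a b
    have h1 : (u * t) a.succ b.succ = (1 : Matrix (Fin 4) (Fin 4) K) a.succ b.succ := by rw [hut]
    rw [Matrix.mul_apply, Fin.sum_univ_castSucc] at h1
    have h2 : u a.succ (Fin.last 3) = 0 := hu3 _ (Fin.succ_ne_zero a)
    rw [h2, zero_mul, add_zero] at h1
    rw [Matrix.mul_apply, Matrix.one_apply]
    rw [Matrix.one_apply] at h1
    simp only [Fin.succ_inj] at h1
    exact h1
  have hdet : t'.det ≠ 0 := by
    intro h0
    have h1 := congrArg Matrix.det hut'
    rw [Matrix.det_mul, h0, mul_zero, Matrix.det_one] at h1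
    exact zero_ne_one h1
  have hd4 : ∀ i : Fin 3, d i.castSucc = 4 := by
    intro i
    by_contra hne
    apply hdet
    apply Matrix.det_eq_zero_of_row_eq_zero i
    intro a
    apply htd
    have : ee a.succ = 4 := by fin_cases a <;> rfl
    rw [this]
    exact hne
  have hd3 : d 3 = 1 := by
    by_contra hne
    have h1 : (u * t) 0 0 = (1 : Matrix (Fin 4) (Fin 4) K) 0 0 := by rw [hut]
    rw [Matrix.mul_apply, Fin.sum_univ_castSucc] at h1
    have h2 : t (Fin.last 3) 0 = 0 := htd _ _ hne
    rw [h2, mul_zero, add_zero, Finset.sum_eq_zero] at h1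
    · simp at h1
    · intro i _
      rw [htd _ 0 (by rw [hd4 i]; decide), mul_zero]
  -- hence the relation vanishes
  have hR : ∀ i, R 0 i = 0 := by
    intro i
    refine Fin.lastCases ?_ (fun i => ?_) i
    · exact hR3
    · rcases hdeg 0 i.castSucc with h | ⟨m, hm, -⟩
      · exact h
      · have : Fin.natAdd 3 (0 : Fin 1) = (3 : Fin 4) := rfl
        rw [this, hd3, hd4 i] at hm
        omega
  have h1 := hinj (fun _ => 1) fun i => by simp [hR i]
  have h2 := congrFun h1 0
  exact one_ne_zero h2

end Pool.Agent.Q82.Res7
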